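import Pool.Agent.Work.MP_037d19_vp.Interface

/-!
# Block BND: the reduced norm is bounded
-/

namespace Pool.Agent.VPer

open Pool.Agent.LPer
open scoped Polynomial Topology
open Module (finrank)

theorem p_BND (hRB : Stmt_RB) (hNE : Stmt_NE) (hNNM : Stmt_NNM) (hMUL : Stmt_MUL)
    (hNRD : Stmt_NRD) (hCDET : Stmt_CDET) : Stmt_BND := by
  intro F E A D _ _ _ _ _ _ _ _ _ _ _ _ _ _ N ι k δE a m e hN hd
  have hnt : Nontrivial A := inferInstance
  have hk : k ≠ 0 := by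
    rintro rfl
    have h1 := hd.rankA
    have h2 : 0 < finrank F A := Module.finrank_pos
    rw [h1] at h2
    simp at h2
  obtain ⟨B0, hB0, hB⟩ := hRB F A D N m e hN
  obtain ⟨Ω, _, _, _, _, φ, _, _, _, hdet, _⟩ :=
    hNRD F E A ι k δE a hd.rankE hd.rankA hd.sq hd.nsq
  obtain ⟨hc, _⟩ := hCDET F E A ι
  have hprop : ProperSpace A := FiniteDimensional.proper F A
  have hcomp : IsCompact (Metric.closedBall (0 : A) (‖(1 : A)‖ + B0)) := isCompact_closedBall _ _
  obtain ⟨M, hM⟩ := hcomp.exists_bound_of_continuousOn hc.continuousOn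
  obtain ⟨hmul, hone, _, _⟩ := hMUL F E A ι k δE a hd
  refine ⟨max M 1, lt_max_of_lt_right one_pos, fun g y hy t ht => ?_⟩
  have hM1 : (1 : ℝ) ≤ max M 1 := le_max_right _ _
  set u : A := ((g⁻¹ : Aˣ) : A) * y * g with hu
  have hun : ‖u‖ ≤ B0 := hB u hy
  set x : A := 1 + t • u with hx
  have hxn : ‖x‖ ≤ ‖(1 : A)‖ + B0 := by
    refine (norm_add_le _ _).trans (add_le_add le_rfl ?_)
    rw [norm_smul]
    exact (mul_le_of_le_one_left (norm_nonneg _) ht).trans hun
  have h1 : ‖LinearMap.det (Algebra.lmul F A x)‖ ≤ M :=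
    hM x (by rw [Metric.mem_closedBall, dist_zero_right]; exact hxn)
  have pw : ∀ (r : ℝ) (j : ℕ), 0 ≤ r → j ≠ 0 → r ^ j ≤ max M 1 → r ≤ max M 1 := by
    intro r j hr hj hle
    by_contra hcon
    rw [not_le] at hcon
    have h2 : 1 ≤ r := hM1.trans hcon.le
    have h3 : r ≤ r ^ j := le_self_pow₀ h2 hj
    linarith
  have h2 : ‖nrd F x‖ ≤ max M 1 := by
    refine pw _ (2 * k) (norm_nonneg _) (by omega) ?_
    rw [← norm_pow, hdet x]
    exact h1.trans (le_max_left _ _)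
  -- the element of the centraliser
  have hcoe : ((1 + t • y : Cent ι) : A) = 1 + t • (y : A) := rfl
  have h3 : nrd F x = nrd F ((1 + t • y : Cent ι) : A) := by
    have e1 : x = ((g⁻¹ : Aˣ) : A) * ((1 + t • y : Cent ι) : A) * g := by
      rw [hcoe, hx, hu, mul_add, add_mul, mul_one, Units.inv_mul, mul_smul_comm, smul_mul_assoc]
    have e2 : nrd F ((g⁻¹ : Aˣ) : A) * nrd F (g : A) = 1 := by
      rw [← hmul, Units.inv_mul, hone]
    rw [e1, hmul, hmul, mul_comm (nrd F ((g⁻¹ : Aˣ) : A)), mul_assoc, e2, mul_one]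
  have h4 := (hNNM F E A ι k δE a hd).1 (1 + t • y : Cent ι)
  have h5 := hNE F E hd.rankE (nrd E (1 + t • y : Cent ι))
  refine pw _ 2 (norm_nonneg _) two_ne_zero ?_
  rw [← h5, ← h4, ← h3]
  exact h2

end Pool.Agent.VPer
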