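import Pool.Agent.Work.MP_037d19_vp.Interface

/-!
# Valuations on division rings and integral matrices: basic facts
-/

namespace Pool.Agent.VPer

open Pool.Agent.LPer
open scoped Polynomial Topology
open Module (finrank)

namespace DVal

variable {D : Type} [DivisionRing D] {N : D → ℝ} (h : DVal N)

include h

theorem zero : N 0 = 0 := (h.zero_iff 0).2 rfl

theorem pos {x : D} (hx : x ≠ 0) : 0 < N x :=
  lt_of_le_of_ne (h.nonneg x) (fun h0 => hx ((h.zero_iff x).1 h0.symm))

theorem one : N 1 = 1 := by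
  have h1 := h.mul 1 1
  rw [mul_one] at h1
  have h2 := h.pos (one_ne_zero (α := D))
  have h3 : N 1 * (N 1 - 1) = 0 := by linarith
  rcases mul_eq_zero.mp h3 with h4 | h4
  · exact absurd h4 h2.ne'
  · linarith

theorem inv {x : D} (hx : x ≠ 0) : N x⁻¹ = (N x)⁻¹ := by
  have h1 := h.mul x x⁻¹
  rw [mul_inv_cancel₀ hx, h.one] at h1
  exact eq_inv_of_mul_eq_one_right h1.symm

theorem neg_one : N (-1) = 1 := by
  have h1 := h.mul (-1) (-1)
  rw [neg_mul_neg, mul_one, h.one] at h1
  have h2 := h.nonneg (-1)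
  nlinarith

theorem neg (x : D) : N (-x) = N x := by
  rw [← neg_one_mul, h.mul, h.neg_one, one_mul]

theorem sum_le {ι : Type} (s : Finset ι) (f : ι → D) (B : ℝ) (hB : 0 ≤ B)
    (hf : ∀ i ∈ s, N (f i) ≤ B) : N (∑ i ∈ s, f i) ≤ B := by
  classical
  induction s using Finset.induction_on with
  | empty => simpa [h.zero] using hB
  | insert i s hi ih =>
    rw [Finset.sum_insert hi]
    refine (h.add _ _).trans (max_le (hf i (Finset.mem_insert_self i s)) ?_)
    exact ih (fun j hj => hf j (Finset.mem_insert_of_mem hj))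

theorem sum_lt {ι : Type} (s : Finset ι) (f : ι → D) (B : ℝ) (hB : 0 < B)
    (hf : ∀ i ∈ s, N (f i) < B) : N (∑ i ∈ s, f i) < B := by
  classical
  induction s using Finset.induction_on with
  | empty => simpa [h.zero] using hB
  | insert i s hi ih =>
    rw [Finset.sum_insert hi]
    refine (h.add _ _).trans_lt (max_lt (hf i (Finset.mem_insert_self i s)) ?_)
    exact ih (fun j hj => hf j (Finset.mem_insert_of_mem hj))

theorem intM_one (m : ℕ) : IntM N (1 : Matrix (Fin m) (Fin m) D) := by
  intro i j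
  rw [Matrix.one_apply]
  split_ifs
  · rw [h.one]
  · rw [h.zero]
    exact zero_le_one

theorem intM_mul {m : ℕ} {X Y : Matrix (Fin m) (Fin m) D} (hX : IntM N X) (hY : IntM N Y) :
    IntM N (X * Y) := by
  intro i j
  rw [Matrix.mul_apply]
  refine h.sum_le _ _ 1 zero_le_one ?_
  intro l _
  rw [h.mul]
  exact mul_le_one₀ (hX i l) (h.nonneg _) (hY l j)

theorem intM_add {m : ℕ} {X Y : Matrix (Fin m) (Fin m) D} (hX : IntM N X) (hY : IntM N Y) :
    IntM N (X + Y) := by
  intro i j
  rw [Matrix.add_apply]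
  exact (h.add _ _).trans (max_le (hX i j) (hY i j))

end DVal

/-- Scalars. -/
theorem DNorm.smul {F D : Type} [NormedField F] [DivisionRing D] [Algebra F D] {N : D → ℝ}
    (h : DNorm F N) (a : F) (x : D) : N (a • x) = ‖a‖ * N x := by
  rw [Algebra.smul_def, h.val.mul, h.alg]

end Pool.Agent.VPer
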