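import Pool.Agent.Work.MP_037d19_vp.Interface2
import Pool.Agent.Work.MP_037d19_vp.Basic

/-!
# Vanishing of linear periods, block CL1: approximation with the sharp radius (typed by helper98)
-/

namespace Pool.Agent.VPer

open Pool.Agent.LPer
open scoped Polynomial Topology
open Module (finrank)

namespace CL1

theorem sum_le {E : Type} [NormedField E] (hu : ∀ x y : E, ‖x + y‖ ≤ max ‖x‖ ‖y‖) (n : ℕ)
    (f : ℕ → E) (B : ℝ) (hB : 0 ≤ B) (hf : ∀ i, i < n → ‖f i‖ ≤ B) :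
    ‖∑ i ∈ Finset.range n, f i‖ ≤ B := by
  induction n with
  | zero => simpa using hB
  | succ n ih =>
    rw [Finset.sum_range_succ]
    exact (hu _ _).trans (max_le (ih fun i hi => hf i (by omega)) (hf n (by omega)))

theorem intM_pow {D : Type} [DivisionRing D] {N : D → ℝ} (h : DVal N) {m : ℕ}
    {X : Matrix (Fin m) (Fin m) D} (hX : IntM N X) (n : ℕ) : IntM N (X ^ n) := by
  induction n with
  | zero =>
    rw [pow_zero]
    exact h.intM_one m
  | succ n ih =>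
    rw [pow_succ]
    exact h.intM_mul ih hX

theorem isUnit_one_sub {A : Type} [NormedRing A] [CompleteSpace A] (x : A) (n : ℕ)
    (hx : ‖x ^ n‖ < 1) : IsUnit (1 - x) := by
  have h1 : (1 - x) * ∑ i ∈ Finset.range n, x ^ i = 1 - x ^ n := mul_neg_geom_sum x n
  have h2 : (∑ i ∈ Finset.range n, x ^ i) * (1 - x) = 1 - x ^ n := geom_sum_mul_neg x n
  have hc : Commute (1 - x) (∑ i ∈ Finset.range n, x ^ i) := h1.trans h2.symm
  have h3 : IsUnit ((1 - x) * ∑ i ∈ Finset.range n, x ^ i) := by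
    rw [h1]
    exact ⟨Units.oneSub (x ^ n) hx, Units.val_oneSub _ _⟩
  exact (hc.isUnit_mul_iff.1 h3).1

end CL1

theorem stmt_CL1 (hRB : Stmt_RB) (hTGT1 : Stmt_TGT1) (hNRB : Stmt_NRB) (hLAG1 : Stmt_LAG1) :
    Stmt_CL1 := by
  intro F E A D _ _ _ _ _ _ _ _ _ _ _ _ _ _ N ι k δE a m e hN hD ha hm hult hj hmk hgen s hs0
    hs1 g w hw
  obtain ⟨B, hB, hRB'⟩ := hRB F A D N m e hN
  have hcA : CompleteSpace A := FiniteDimensional.complete F A
  have hsn : 0 < ‖s‖ := norm_pos_iff.2 hs0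
  have hw' : ‖s⁻¹ • w‖ ≤ 1 := by
    rw [norm_smul, norm_inv, inv_mul_le_iff₀ hsn, mul_one]
    exact hw
  obtain ⟨y, Q, hy, hdeg, hQ0, hQ1, hQ⟩ :=
    hTGT1 F E A D N ι k δE a m e hN hD ha hm hult hj hmk hgen g (s⁻¹ • w) hw'
  set u : A := ((g⁻¹ : Aˣ) : A) * (y : A) * g with hu
  have hconj : ∀ t : F, ((g⁻¹ : Aˣ) : A) * (1 + t • (y : A)) * g = 1 + t • u := by
    intro t
    rw [hu, mul_add, mul_one, add_mul, Units.inv_mul, mul_smul_comm, smul_mul_assoc]
  have hR0 : ∀ t : F, ‖t‖ ≤ 1 → InR0 N e (1 + t • u) := by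
    intro t ht
    unfold InR0
    rw [map_add, map_one, map_smul]
    refine hN.val.intM_add (hN.val.intM_one m) ?_
    intro i j
    rw [Matrix.smul_apply, hN.smul]
    exact mul_le_one₀ ht (hN.val.nonneg _) (hy i j)
  have hcoef : ∀ i, ‖Q.coeff i‖ ≤ 1 := by
    refine hLAG1 F E hult k (fun j hj0 hjk => hj j hj0 (by omega)) Q hdeg ?_
    intro t ht
    rw [hQ]
    refine hNRB F E A D N ι k δE a m e hN hD g (1 + t • y) ?_
    have h1 : (((1 + t • y : Cent ι)) : A) = 1 + t • (y : A) := rfl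
    rw [h1, hconj]
    exact hR0 t ht
  obtain ⟨n, hn⟩ := exists_pow_lt_of_lt_one (show (0 : ℝ) < 1 / B by positivity) hs1
  have hun : ‖u ^ n‖ ≤ B := by
    apply hRB'
    unfold InR0
    rw [map_pow]
    exact CL1.intM_pow hN.val hy n
  have hunit : IsUnit (1 - (-s) • u) := by
    apply CL1.isUnit_one_sub _ n
    rw [smul_pow, norm_smul, norm_pow, norm_neg]
    calc ‖s‖ ^ n * ‖u ^ n‖ ≤ ‖s‖ ^ n * B :=
          mul_le_mul_of_nonneg_left hun (pow_nonneg (norm_nonneg _) n)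
      _ < 1 / B * B := mul_lt_mul_of_pos_right hn hB
      _ = 1 := by
          rw [one_div, inv_mul_cancel₀ hB.ne']
  obtain ⟨κ, hκ'⟩ := hunit
  have hκ : (κ : A) = 1 + s • u := by
    rw [hκ', neg_smul, sub_neg_eq_add]
  have hval : ((g * κ * g⁻¹ : Aˣ) : A) = 1 + s • (y : A) := by
    rw [Units.val_mul, Units.val_mul, hκ, hu, mul_add, mul_one, add_mul, Units.mul_inv,
      mul_smul_comm, smul_mul_assoc]
    congr 2
    calc (g : A) * (((g⁻¹ : Aˣ) : A) * (y : A) * g) * ((g⁻¹ : Aˣ) : A)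
        = ((g : A) * ((g⁻¹ : Aˣ) : A)) * (y : A) * ((g : A) * ((g⁻¹ : Aˣ) : A)) := by
          noncomm_ring
      _ = (y : A) := by rw [Units.mul_inv, one_mul, mul_one]
  have hhC : ((g * κ * g⁻¹ : Aˣ) : A) ∈ Cent ι := by
    rw [hval]
    exact ((1 + s • y : Cent ι)).2
  have hsub : (⟨((g * κ * g⁻¹ : Aˣ) : A), hhC⟩ : Cent ι) = 1 + s • y := by
    apply Subtype.ext
    exact hval
  refine ⟨g * κ * g⁻¹, hhC, ?_, ?_⟩
  · intro i j
    have h1 : g⁻¹ * (g * κ * g⁻¹) * g = κ := by group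
    rw [h1, hκ, map_add, map_one, map_smul, add_sub_cancel_left, Matrix.smul_apply, hN.smul]
    calc ‖s‖ * N (e u i j) ≤ ‖s‖ * 1 := mul_le_mul_of_nonneg_left (hy i j) (norm_nonneg _)
      _ = ‖s‖ := mul_one _
  · rw [hsub, ← hQ s, Polynomial.eval_eq_sum_range' (show Q.natDegree < k + 1 + 1 by omega),
      Finset.sum_range_succ', Finset.sum_range_succ', pow_zero, mul_one, hQ0]
    have h2 : Q.coeff (0 + 1) * algebraMap F E s ^ (0 + 1) = w := by
      rw [zero_add, pow_one, hQ1, mul_comm, ← Algebra.smul_def, smul_smul, mul_inv_cancel₀ hs0,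
        one_smul]
    rw [h2]
    have h3 : ∀ S : E, S + w + 1 - 1 - w = S := by
      intro S
      ring
    rw [h3]
    refine CL1.sum_le hult k _ _ (by positivity) ?_
    intro i _
    rw [norm_mul, norm_pow, norm_algebraMap']
    have h4 : ‖s‖ ^ (i + 1 + 1) ≤ ‖s‖ ^ 2 := by
      apply pow_le_pow_of_le_one (norm_nonneg _) hs1.le
      omega
    calc ‖Q.coeff (i + 1 + 1)‖ * ‖s‖ ^ (i + 1 + 1) ≤ 1 * ‖s‖ ^ 2 :=
          mul_le_mul (hcoef _) h4 (by positivity) zero_le_one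
      _ = ‖s‖ ^ 2 := one_mul _

end Pool.Agent.VPer
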