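import Pool.Agent.Work.MP_037d19_vp.Basic

/-!
# Approximation inside `H ∩ g K g⁻¹`
-/

namespace Pool.Agent.VPer

open Pool.Agent.LPer
open scoped Polynomial Topology
open Module (finrank)

theorem stmt_CLG (hRB : Stmt_RB) (hTGT : Stmt_TGT) (hEST : Stmt_EST) : Stmt_CLG := by
  intro F E A D _ _ _ _ _ _ _ _ _ _ _ _ _ _ N ι k δE a m e hN hD ha hm K hK
  obtain ⟨B, hB, hRB'⟩ := hRB F A D N m e hN
  obtain ⟨c₁, hc₁, hT⟩ := hTGT F E A D N ι k δE a m e hN hD ha hm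
  obtain ⟨C, hC, hE⟩ := hEST F E A D N ι k δE a m e hN hD
  have hcA : CompleteSpace A := FiniteDimensional.complete F A
  have hemb : Topology.IsOpenEmbedding (Units.val : Aˣ → A) := Units.isOpenEmbedding_val
  obtain ⟨ε, hε, hball⟩ : ∃ ε : ℝ, 0 < ε ∧ Metric.ball (1 : A) ε ⊆ Units.val '' (K : Set Aˣ) := by
    have h1 : Units.val '' (K : Set Aˣ) ∈ 𝓝 (1 : A) := by
      refine (hemb.isOpenMap _ hK).mem_nhds ?_
      exact ⟨1, K.one_mem, Units.val_one⟩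
    exact Metric.mem_nhds_iff.mp h1
  obtain ⟨c, hc⟩ := NormedField.exists_one_lt_norm F
  have hcpos : 0 < ‖c‖ := one_pos.trans hc
  set M : ℝ := c₁⁻¹ * ‖c‖ with hM
  have hMpos : 0 < M := by positivity
  set r₀ : ℝ := min (1 / M) (ε / (2 * B * M)) with hr₀
  have hr₀pos : 0 < r₀ := by
    rw [hr₀]
    exact lt_min (by positivity) (by positivity)
  refine ⟨r₀, C * M ^ 2, hr₀pos, by positivity, ?_⟩
  intro g w hw
  by_cases hw0 : w = 0
  · obtain ⟨y, Q, -, -, hQ0, -, hQ⟩ := hT g 0 (by rw [norm_zero]; exact hc₁.le)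
    have h1 : nrd E (1 : Cent ι) = 1 := by
      have h2 := hQ 0
      rw [map_zero, ← Polynomial.coeff_zero_eq_eval_zero, hQ0, zero_smul, add_zero] at h2
      exact h2.symm
    refine ⟨1, by rw [Units.val_one]; exact (Cent ι).one_mem, ?_, ?_⟩
    · rw [mul_one, inv_mul_cancel]
      exact K.one_mem
    · have h3 : (⟨((1 : Aˣ) : A), by rw [Units.val_one]; exact (Cent ι).one_mem⟩ : Cent ι) = 1 := by
        apply Subtype.ext
        exact Units.val_one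
      rw [h3, h1, hw0]
      simp
  obtain ⟨d, hd0, hd1, -, hd2⟩ := rescale_to_shell (𝕜 := F) hc hc₁ hw0
  obtain ⟨y, Q, hy, hdeg, hQ0, hQ1, hQ⟩ := hT g (d • w) hd1.le
  set t : F := d⁻¹ with ht
  have htn : ‖t‖ ≤ M * ‖w‖ := by
    rw [ht, norm_inv]
    exact hd2
  have hw1 : ‖w‖ ≤ 1 / M := hw.trans (min_le_left _ _)
  have hw2 : ‖w‖ ≤ ε / (2 * B * M) := hw.trans (min_le_right _ _)
  have ht1 : ‖t‖ ≤ 1 := by
    refine htn.trans ?_
    rw [le_div_iff₀ hMpos] at hw1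
    linarith
  have ht2 : ‖t‖ * B < ε := by
    have h1 : ‖w‖ * (2 * B * M) ≤ ε := (le_div_iff₀ (by positivity)).mp hw2
    have h2 : ‖t‖ * B ≤ M * ‖w‖ * B := mul_le_mul_of_nonneg_right htn hB.le
    nlinarith
  set u : A := ((g⁻¹ : Aˣ) : A) * (y : A) * g with hu
  have hun : ‖u‖ ≤ B := hRB' u hy
  have hmem : 1 + t • u ∈ Metric.ball (1 : A) ε := by
    rw [Metric.mem_ball, dist_eq_norm, add_sub_cancel_left, norm_smul]
    refine lt_of_le_of_lt ?_ ht2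
    gcongr
  obtain ⟨κ, hκK, hκ⟩ := hball hmem
  have hval : ((g * κ * g⁻¹ : Aˣ) : A) = 1 + t • (y : A) := by
    rw [Units.val_mul, Units.val_mul, hκ, hu, mul_add, mul_one, add_mul, Units.mul_inv,
      mul_smul_comm, smul_mul_assoc]
    congr 2
    calc (g : A) * (((g⁻¹ : Aˣ) : A) * (y : A) * g) * ((g⁻¹ : Aˣ) : A)
        = ((g : A) * ((g⁻¹ : Aˣ) : A)) * (y : A) * ((g : A) * ((g⁻¹ : Aˣ) : A)) := by
          noncomm_ring
      _ = (y : A) := by rw [Units.mul_inv, one_mul, mul_one]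
  have hhC : ((g * κ * g⁻¹ : Aˣ) : A) ∈ Cent ι := by
    rw [hval]
    exact ((1 + t • y : Cent ι)).2
  have hsub : (⟨((g * κ * g⁻¹ : Aˣ) : A), hhC⟩ : Cent ι) = 1 + t • y := by
    apply Subtype.ext
    exact hval
  refine ⟨g * κ * g⁻¹, hhC, ?_, ?_⟩
  · have h1 : g⁻¹ * (g * κ * g⁻¹) * g = κ := by group
    rw [h1]
    exact hκK
  · rw [hsub]
    have h1 := hE g y Q hy hdeg hQ0 hQ t ht1
    have h2 : algebraMap F E t * Q.coeff 1 = w := by
      rw [hQ1, ← Algebra.smul_def, smul_smul, ht, inv_mul_cancel₀ hd0, one_smul]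
    rw [h2] at h1
    refine h1.trans ?_
    have h3 : ‖t‖ ^ 2 ≤ (M * ‖w‖) ^ 2 := by gcongr
    calc C * ‖t‖ ^ 2 ≤ C * (M * ‖w‖) ^ 2 := by gcongr
      _ = C * M ^ 2 * ‖w‖ ^ 2 := by ring

end Pool.Agent.VPer
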