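import Pool.Agent.Work.MP_037d19_vp.Interface

/-!
# Block DN: the absolute value on `D` (typed by helper53)
-/

set_option autoImplicit false

namespace Pool.Agent.VPer

open Pool.Agent.LPer
open scoped Polynomial Topology
open Module (finrank)

namespace DN

/-- a vector of `F ^ n` is a multiple of one of norm `1` -/
theorem scale {F : Type} [NormedField F] {n : ℕ} (v : Fin n → F) (hv : v ≠ 0) :
    ∃ (t : F) (u : Fin n → F), v = t • u ∧ ‖t‖ = ‖v‖ ∧ ‖u‖ = 1 := by
  have hn : Nonempty (Fin n) := by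
    by_contra h
    rw [not_nonempty_iff] at h
    exact hv (Subsingleton.elim _ _)
  obtain ⟨i, hi⟩ := Finite.exists_max (fun i => ‖v i‖)
  have h1 : ‖v‖ = ‖v i‖ := by
    apply le_antisymm
    · rw [pi_norm_le_iff_of_nonneg (norm_nonneg _)]
      exact hi
    · exact norm_le_pi_norm v i
  have h2 : v i ≠ 0 := by
    rw [← norm_ne_zero_iff, ← h1]
    exact norm_ne_zero_iff.2 hv
  refine ⟨v i, (v i)⁻¹ • v, ?_, h1.symm, ?_⟩
  · rw [smul_smul, mul_inv_cancel₀ h2, one_smul]
  · rw [norm_smul, norm_inv, ← h1, inv_mul_cancel₀ (norm_ne_zero_iff.2 hv)]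

theorem bounds {F D : Type} [NontriviallyNormedField F] [ProperSpace F] [DivisionRing D]
    [Algebra F D] [FiniteDimensional F D] (n : ℕ) (hn : 1 ≤ n) (b : Module.Basis (Fin n) F D) :
    ∃ C B : ℝ, 0 < C ∧ 0 < B ∧ (∀ z : D, ‖Algebra.norm F z‖ ≤ C * ‖b.equivFun z‖ ^ n) ∧
      ∀ z : D, ‖Algebra.norm F z‖ ≤ 1 → ‖b.equivFun z‖ ≤ B := by
  have hcard : finrank F D = n := by
    rw [Module.finrank_eq_card_basis b, Fintype.card_fin]
  -- continuity
  let P : (Fin n → F) → ℝ := fun v => ‖Algebra.norm F (b.equivFun.symm v)‖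
  have hP : Continuous P := by
    have h1 : Continuous fun v : Fin n → F => Algebra.leftMulMatrix b (b.equivFun.symm v) := by
      let L : (Fin n → F) →ₗ[F] Matrix (Fin n) (Fin n) F :=
        (Algebra.leftMulMatrix b).toLinearMap ∘ₗ b.equivFun.symm.toLinearMap
      exact L.continuous_on_pi
    have h2 : P = fun v => ‖(Algebra.leftMulMatrix b (b.equivFun.symm v)).det‖ := by
      funext v
      change ‖Algebra.norm F (b.equivFun.symm v)‖ = _
      rw [Algebra.norm_eq_matrix_det b]
    rw [h2]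
    exact (h1.matrix_det).norm
  have hhom : ∀ (t : F) (u : Fin n → F), P (t • u) = ‖t‖ ^ n * P u := by
    intro t u
    change ‖Algebra.norm F (b.equivFun.symm (t • u))‖ = _ * ‖Algebra.norm F (b.equivFun.symm u)‖
    rw [map_smul, Algebra.smul_def, map_mul, norm_mul, Algebra.norm_algebraMap, norm_pow, hcard]
  have hS : IsCompact (Metric.sphere (0 : Fin n → F) 1) := isCompact_sphere _ _
  have hne : (Metric.sphere (0 : Fin n → F) 1).Nonempty := by
    have : Nonempty (Fin n) := ⟨⟨0, hn⟩⟩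
    refine ⟨fun _ => 1, ?_⟩
    rw [mem_sphere_zero_iff_norm, pi_norm_const, norm_one]
  obtain ⟨x, hx, hmax⟩ := hS.exists_isMaxOn hne hP.continuousOn
  obtain ⟨y, hy, hmin⟩ := hS.exists_isMinOn hne hP.continuousOn
  have hpos : ∀ u ∈ Metric.sphere (0 : Fin n → F) 1, 0 < P u := by
    intro u hu
    rw [mem_sphere_zero_iff_norm] at hu
    have h1 : u ≠ 0 := by
      rintro rfl
      rw [norm_zero] at hu
      exact one_ne_zero hu.symm
    have h2 : b.equivFun.symm u ≠ 0 := by
      intro h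
      exact h1 ((LinearEquiv.map_eq_zero_iff _).1 h)
    have h3 : Algebra.norm F (b.equivFun.symm u) * Algebra.norm F (b.equivFun.symm u)⁻¹ = 1 := by
      rw [← map_mul, mul_inv_cancel₀ h2, map_one]
    exact norm_pos_iff.2 (left_ne_zero_of_mul_eq_one h3)
  refine ⟨P x, max 1 (P y)⁻¹, hpos x hx, lt_max_of_lt_left one_pos, ?_, ?_⟩
  · intro z
    by_cases hz : b.equivFun z = 0
    · have h1 : z = 0 := (LinearEquiv.map_eq_zero_iff _).1 hz
      have h2 : Algebra.norm F z = 0 := by
        rw [h1]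
        exact Algebra.norm_zero
      rw [h2, norm_zero]
      have := (hpos x hx).le
      positivity
    · obtain ⟨t, u, h1, h2, h3⟩ := scale _ hz
      have h4 : ‖Algebra.norm F z‖ = P (b.equivFun z) := by
        change _ = ‖Algebra.norm F (b.equivFun.symm (b.equivFun z))‖
        rw [LinearEquiv.symm_apply_apply]
      rw [h4, ← h2, h1, hhom, mul_comm]
      exact mul_le_mul_of_nonneg_right (hmax (mem_sphere_zero_iff_norm.2 h3))
        (pow_nonneg (norm_nonneg _) _)
  · intro z hz1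
    by_cases hz : b.equivFun z = 0
    · rw [hz, norm_zero]
      exact le_max_of_le_left zero_le_one
    · obtain ⟨t, u, h1, h2, h3⟩ := scale _ hz
      have h4 : ‖Algebra.norm F z‖ = P (b.equivFun z) := by
        change _ = ‖Algebra.norm F (b.equivFun.symm (b.equivFun z))‖
        rw [LinearEquiv.symm_apply_apply]
      rw [h4, h1, hhom] at hz1
      rw [← h2]
      have h5 : P y ≤ P u := hmin (mem_sphere_zero_iff_norm.2 h3)
      have h6 := hpos y hy
      by_cases h7 : ‖t‖ ≤ 1
      · exact le_max_of_le_left h7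
      · apply le_max_of_le_right
        rw [not_le] at h7
        have h8 : ‖t‖ ≤ ‖t‖ ^ n := le_self_pow₀ h7.le (by omega)
        have h9 : ‖t‖ * P y ≤ 1 := by
          calc ‖t‖ * P y ≤ ‖t‖ ^ n * P u := mul_le_mul h8 h5 h6.le (by positivity)
            _ ≤ 1 := hz1
        rw [← one_div, le_div_iff₀ h6]
        exact h9

theorem grow (n : ℕ) (K q : ℝ) (hK : 0 < K) (h : ∀ k : ℕ, q ^ k ≤ K * ((k : ℝ) + 1) ^ n) : q ≤ 1 := by
  by_contra hq
  rw [not_le] at hq
  have h1 := tendsto_pow_const_div_const_pow_of_one_lt n hq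
  have h2 := h1.comp (Filter.tendsto_add_atTop_nat 1)
  have h3 : ∀ k : ℕ, 1 / (K * q) ≤ ((fun m : ℕ => (m : ℝ) ^ n / q ^ m) ∘ fun a => a + 1) k := by
    intro k
    simp only [Function.comp]
    have hq0 : 0 < q := by linarith
    rw [div_le_div_iff₀ (by positivity) (by positivity), one_mul, pow_succ]
    have h4 := h k
    push_cast
    calc q ^ k * q ≤ (K * ((k : ℝ) + 1) ^ n) * q := mul_le_mul_of_nonneg_right h4 hq0.le
      _ = ((k : ℝ) + 1) ^ n * (K * q) := by ring
  have h4 := ge_of_tendsto' h2 h3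
  have h5 : 0 < 1 / (K * q) := by
    have hq0 : 0 < q := by linarith
    positivity
  linarith

theorem key {F D : Type} [NontriviallyNormedField F] [ProperSpace F] [DivisionRing D]
    [Algebra F D] [FiniteDimensional F D] (hnat : ∀ m : ℕ, ‖(m : F)‖ ≤ 1) (z : D)
    (hz : ‖Algebra.norm F z‖ ≤ 1) : ‖Algebra.norm F (1 + z)‖ ≤ 1 := by
  have hn : 1 ≤ finrank F D := Module.finrank_pos
  let b := Module.finBasis F D
  obtain ⟨C, B, hC, hB, h1, h2⟩ := bounds (finrank F D) hn b
  refine grow (finrank F D) (C * B ^ finrank F D) _ (by positivity) ?_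
  intro k
  have h3 : ‖b.equivFun ((1 + z) ^ k)‖ ≤ ((k : ℝ) + 1) * B := by
    rw [(Commute.one_left z).add_pow, map_sum]
    refine (norm_sum_le _ _).trans ?_
    have h4 : ∀ m ∈ Finset.range (k + 1), ‖b.equivFun (1 ^ m * z ^ (k - m) * (k.choose m : D))‖ ≤ B := by
      intro m _
      rw [one_pow, one_mul, ← nsmul_eq_mul', map_nsmul, ← Nat.cast_smul_eq_nsmul F, norm_smul]
      have h5 : ‖b.equivFun (z ^ (k - m))‖ ≤ B := by
        apply h2
        rw [map_pow, norm_pow]
        exact pow_le_one₀ (norm_nonneg _) hz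
      calc ‖((k.choose m : ℕ) : F)‖ * ‖b.equivFun (z ^ (k - m))‖ ≤ 1 * B :=
            mul_le_mul (hnat _) h5 (norm_nonneg _) zero_le_one
        _ = B := one_mul B
    refine (Finset.sum_le_sum h4).trans ?_
    rw [Finset.sum_const, Finset.card_range, nsmul_eq_mul]
    push_cast
    exact le_refl _
  calc ‖Algebra.norm F (1 + z)‖ ^ k = ‖Algebra.norm F ((1 + z) ^ k)‖ := by rw [map_pow, norm_pow]
    _ ≤ C * ‖b.equivFun ((1 + z) ^ k)‖ ^ finrank F D := h1 _
    _ ≤ C * (((k : ℝ) + 1) * B) ^ finrank F D :=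
      mul_le_mul_of_nonneg_left (pow_le_pow_left₀ (norm_nonneg _) h3 _) hC.le
    _ = C * B ^ finrank F D * ((k : ℝ) + 1) ^ finrank F D := by rw [mul_pow]; ring

end DN

theorem stmt_DN : Stmt_DN := by
  intro p _ F D _ _ _ _ _ _
  have : ProperSpace F := FiniteDimensional.proper ℚ_[p] F
  have hnat : ∀ m : ℕ, ‖(m : F)‖ ≤ 1 := by
    intro m
    have h1 : (m : F) = algebraMap ℚ_[p] F (m : ℚ_[p]) := (map_natCast _ m).symm
    rw [h1, norm_algebraMap']
    have h2 := Padic.norm_int_le_one (p := p) (m : ℤ)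
    rwa [Int.cast_natCast] at h2
  have hn : 1 ≤ finrank F D := Module.finrank_pos
  have hn0 : (0 : ℝ) < (finrank F D : ℝ) := by exact_mod_cast hn
  have hpos : ∀ z : D, z ≠ 0 → 0 < ‖Algebra.norm F z‖ := by
    intro z hz
    have h3 : Algebra.norm F z * Algebra.norm F z⁻¹ = 1 := by
      rw [← map_mul, mul_inv_cancel₀ hz, map_one]
    exact norm_pos_iff.2 (left_ne_zero_of_mul_eq_one h3)
  have hzero : ‖Algebra.norm F (0 : D)‖ = 0 := by
    rw [Algebra.norm_zero, norm_zero]
  let N : D → ℝ := fun z => ‖Algebra.norm F z‖ ^ (1 / (finrank F D : ℝ))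
  have hN : ∀ z, N z = ‖Algebra.norm F z‖ ^ (1 / (finrank F D : ℝ)) := fun _ => rfl
  have hmul : ∀ x y, N (x * y) = N x * N y := by
    intro x y
    rw [hN, hN, hN, map_mul, norm_mul, Real.mul_rpow (norm_nonneg _) (norm_nonneg _)]
  have hnn : ∀ x, 0 ≤ N x := fun x => Real.rpow_nonneg (norm_nonneg _) _
  have h0 : N 0 = 0 := by
    rw [hN, hzero, Real.zero_rpow (by positivity)]
  have hNpos : ∀ z, z ≠ 0 → 0 < N z := fun z hz => Real.rpow_pos_of_pos (hpos z hz) _
  have hle : ∀ z, N z ≤ 1 ↔ ‖Algebra.norm F z‖ ≤ 1 := by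
    intro z
    rw [hN]
    constructor
    · intro h
      by_contra h1
      rw [not_le] at h1
      have := Real.one_lt_rpow h1 (show (0 : ℝ) < 1 / (finrank F D : ℝ) by positivity)
      linarith
    · intro h
      exact Real.rpow_le_one (norm_nonneg _) h (by positivity)
  have hadd1 : ∀ z, N z ≤ 1 → N (1 + z) ≤ 1 := by
    intro z hz
    rw [hle] at hz ⊢
    exact DN.key hnat z hz
  have hadd2 : ∀ x y, N x ≤ N y → N (x + y) ≤ N y := by
    intro x y h
    by_cases hy : y = 0
    · subst hy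
      have hx : x = 0 := by
        by_contra hx
        have := hNpos x hx
        rw [h0] at h
        linarith
      subst hx
      rw [add_zero]
    · have h1 : x + y = (1 + x * y⁻¹) * y := by
        rw [add_mul, one_mul, mul_assoc, inv_mul_cancel₀ hy, mul_one, add_comm]
      have h2 : N (x * y⁻¹) ≤ 1 := by
        have h3 : N x = N (x * y⁻¹) * N y := by
          rw [← hmul, mul_assoc, inv_mul_cancel₀ hy, mul_one]
        rw [h3] at h
        exact le_of_mul_le_mul_right (by rw [one_mul]; exact h) (hNpos y hy)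
      rw [h1, hmul]
      exact mul_le_of_le_one_left (hnn y) (hadd1 _ h2)
  refine ⟨N, ⟨⟨hnn, ?_, hmul, ?_⟩, ?_⟩⟩
  · intro x
    constructor
    · intro h
      by_contra hx
      exact (hNpos x hx).ne' h
    · rintro rfl
      exact h0
  · intro x y
    rcases le_total (N x) (N y) with h | h
    · exact (hadd2 x y h).trans (le_max_right _ _)
    · rw [add_comm]
      exact (hadd2 y x h).trans (le_max_left _ _)
  · intro a
    rw [hN, Algebra.norm_algebraMap, norm_pow, one_div, Real.pow_rpow_inv_natCast (norm_nonneg _) (by omega)]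

end Pool.Agent.VPer
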