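import Pool.Agent.Work.MP_037d19_vp.Interface2
import Pool.Agent.Work.MP_037d19_vp.B_DN

/-!
# Block DN1: the explicit absolute value on `D` (typed by helper53 and helper57)
-/

set_option autoImplicit false

namespace Pool.Agent.VPer

open Pool.Agent.LPer
open scoped Polynomial Topology
open Module (finrank)

theorem stmt_DN1 : Stmt_DN1 := by
  intro p _ F D _ _ _ _ _ _
  have : ProperSpace F := FiniteDimensional.proper ℚ_[p] F
  have hnat : ∀ m : ℕ, ‖(m : F)‖ ≤ 1 := by
    intro m
    have h1 : (m : F) = algebraMap ℚ_[p] F (m : ℚ_[p]) := (map_natCast _ m).symm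
    rw [h1, norm_algebraMap']
    have h2 := Padic.norm_int_le_one (p := p) (m : ℤ)
    rwa [Int.cast_natCast] at h2
  have hn : 1 ≤ finrank F D := Module.finrank_pos
  have hn0 : (0 : ℝ) < (finrank F D : ℝ) := by exact_mod_cast hn
  have hpos : ∀ z : D, z ≠ 0 → 0 < ‖Algebra.norm F z‖ := by
    intro z hz
    have h3 : Algebra.norm F z * Algebra.norm F z⁻¹ = 1 := by
      rw [← map_mul, mul_inv_cancel₀ hz, map_one]
    exact norm_pos_iff.2 (left_ne_zero_of_mul_eq_one h3)
  have hzero : ‖Algebra.norm F (0 : D)‖ = 0 := by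
    rw [Algebra.norm_zero, norm_zero]
  let N : D → ℝ := fun z => ‖Algebra.norm F z‖ ^ (1 / (finrank F D : ℝ))
  have hN : ∀ z, N z = ‖Algebra.norm F z‖ ^ (1 / (finrank F D : ℝ)) := fun _ => rfl
  have hmul : ∀ x y, N (x * y) = N x * N y := by
    intro x y
    rw [hN, hN, hN, map_mul, norm_mul, Real.mul_rpow (norm_nonneg _) (norm_nonneg _)]
  have hnn : ∀ x, 0 ≤ N x := fun x => Real.rpow_nonneg (norm_nonneg _) _
  have h0 : N 0 = 0 := by
    rw [hN, hzero, Real.zero_rpow (by positivity)]
  have hNpos : ∀ z, z ≠ 0 → 0 < N z := fun z hz => Real.rpow_pos_of_pos (hpos z hz) _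
  have hle : ∀ z, N z ≤ 1 ↔ ‖Algebra.norm F z‖ ≤ 1 := by
    intro z
    rw [hN]
    constructor
    · intro h
      by_contra h1
      rw [not_le] at h1
      have := Real.one_lt_rpow h1 (show (0 : ℝ) < 1 / (finrank F D : ℝ) by positivity)
      linarith
    · intro h
      exact Real.rpow_le_one (norm_nonneg _) h (by positivity)
  have hadd1 : ∀ z, N z ≤ 1 → N (1 + z) ≤ 1 := by
    intro z hz
    rw [hle] at hz ⊢
    exact DN.key hnat z hz
  have hadd2 : ∀ x y, N x ≤ N y → N (x + y) ≤ N y := by
    intro x y h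
    by_cases hy : y = 0
    · subst hy
      have hx : x = 0 := by
        by_contra hx
        have := hNpos x hx
        rw [h0] at h
        linarith
      subst hx
      rw [add_zero]
    · have h1 : x + y = (1 + x * y⁻¹) * y := by
        rw [add_mul, one_mul, mul_assoc, inv_mul_cancel₀ hy, mul_one, add_comm]
      have h2 : N (x * y⁻¹) ≤ 1 := by
        have h3 : N x = N (x * y⁻¹) * N y := by
          rw [← hmul, mul_assoc, inv_mul_cancel₀ hy, mul_one]
        rw [h3] at h
        exact le_of_mul_le_mul_right (by rw [one_mul]; exact h) (hNpos y hy)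
      rw [h1, hmul]
      exact mul_le_of_le_one_left (hnn y) (hadd1 _ h2)
  refine ⟨N, ⟨⟨hnn, ?_, hmul, ?_⟩, ?_⟩, fun _ => rfl⟩
  · intro x
    constructor
    · intro h
      by_contra hx
      exact (hNpos x hx).ne' h
    · rintro rfl
      exact h0
  · intro x y
    rcases le_total (N x) (N y) with h | h
    · exact (hadd2 x y h).trans (le_max_right _ _)
    · rw [add_comm]
      exact (hadd2 y x h).trans (le_max_left _ _)
  · intro a
    rw [hN, Algebra.norm_algebraMap, norm_pow, one_div, Real.pow_rpow_inv_natCast (norm_nonneg _) (by omega)]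

end Pool.Agent.VPer
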