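import Pool.Agent.Work.MP_037d19_vp.Basic

/-!
# The quadratic estimate
-/

namespace Pool.Agent.VPer

open Pool.Agent.LPer
open scoped Polynomial Topology
open Module (finrank)

theorem stmt_EST (hBND : Stmt_BND) (hLAG : Stmt_LAG) : Stmt_EST := by
  intro F E A D _ _ _ _ _ _ _ _ _ _ _ _ _ _ N ι k δE a m e hN hD
  obtain ⟨B, hB, h1⟩ := hBND F E A D N ι k δE a m e hN hD
  obtain ⟨C, hC, h2⟩ := hLAG F E k
  refine ⟨(k + 1) * (C * B), by positivity, ?_⟩
  intro g y Q hy hdeg h0 hev t ht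
  have hc : ∀ i, ‖Q.coeff i‖ ≤ C * B := by
    refine h2 Q B hdeg ?_
    intro t ht
    rw [hev]
    exact h1 g y hy t ht
  rw [← hev t]
  have hs : Q.eval (algebraMap F E t) - 1 - algebraMap F E t * Q.coeff 1 =
      ∑ i ∈ Finset.range k, Q.coeff (i + 2) * algebraMap F E t ^ (i + 2) := by
    rw [Polynomial.eval_eq_sum_range' (show Q.natDegree < k + 1 + 1 by omega),
      Finset.sum_range_succ', Finset.sum_range_succ']
    simp only [h0, pow_zero, zero_add, pow_one]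
    ring
  rw [hs]
  have hnt : ‖algebraMap F E t‖ = ‖t‖ := norm_algebraMap' E t
  calc ‖∑ i ∈ Finset.range k, Q.coeff (i + 2) * algebraMap F E t ^ (i + 2)‖
      ≤ ∑ i ∈ Finset.range k, ‖Q.coeff (i + 2) * algebraMap F E t ^ (i + 2)‖ := norm_sum_le _ _
    _ ≤ ∑ i ∈ Finset.range k, C * B * ‖t‖ ^ 2 := by
        refine Finset.sum_le_sum ?_
        intro i _
        rw [norm_mul, norm_pow, hnt, pow_add]
        have h3 : ‖t‖ ^ i ≤ 1 := pow_le_one₀ (norm_nonneg _) ht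
        have h4 : ‖t‖ ^ i * ‖t‖ ^ 2 ≤ ‖t‖ ^ 2 := by
          calc ‖t‖ ^ i * ‖t‖ ^ 2 ≤ 1 * ‖t‖ ^ 2 := by gcongr
            _ = ‖t‖ ^ 2 := one_mul _
        exact mul_le_mul (hc _) h4 (by positivity) (by positivity)
    _ = k * (C * B * ‖t‖ ^ 2) := by
        rw [Finset.sum_const, Finset.card_range, nsmul_eq_mul]
    _ ≤ (k + 1) * (C * B) * ‖t‖ ^ 2 := by
        have h5 : 0 ≤ C * B * ‖t‖ ^ 2 := by positivity
        nlinarith

end Pool.Agent.VPer
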