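import Pool.Agent.Work.MP_037d19_vp.Interface3

namespace Pool.Agent.VPer

/-- FA. -/
theorem stmt_FA : Stmt_FA := by
  intro F E _ _ _ _ r z₀ hr hz hz1
  obtain ⟨z, hzdef⟩ : ∃ z : E, z = algebraMap F E z₀ := ⟨_, rfl⟩
  rw [← hzdef]
  have hn : ‖z‖ = ‖z₀‖ := by rw [hzdef, norm_algebraMap']
  have hz0 : 0 < ‖z‖ := by rw [hn]; exact norm_pos_iff.2 hz
  have hz1' : ‖z‖ < 1 := by rw [hn]; exact hz1
  have hne : z ≠ 0 := norm_pos_iff.1 hz0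
  have hR : IsCompact (Metric.closedBall (0 : E) 1 ∩ {x : E | ‖z‖ ≤ ‖x‖}) :=
    (isCompact_closedBall (0 : E) 1).inter_right (isClosed_le continuous_const continuous_norm)
  have hR0 : ∀ e ∈ Metric.closedBall (0 : E) 1 ∩ {x : E | ‖z‖ ≤ ‖x‖}, e ≠ 0 := by
    rintro e ⟨-, he⟩ rfl
    have he' : ‖z‖ ≤ ‖(0 : E)‖ := he
    rw [norm_zero] at he'
    exact absurd hz0 (not_lt.2 he')
  obtain ⟨T, hT1, hT2⟩ := hR.elim_nhds_subcover (fun e => {x : E | ‖x / e - 1‖ < r}) (by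
    intro e he
    have hopen : IsOpen {x : E | ‖x / e - 1‖ < r} :=
      isOpen_lt (((continuous_id.div_const e).sub continuous_const).norm) continuous_const
    refine hopen.mem_nhds ?_
    change ‖e / e - 1‖ < r
    rw [div_self (hR0 e he), sub_self, norm_zero]
    exact hr)
  refine ⟨T, fun e he => hR0 e (hT1 e he), ?_⟩
  intro x hx
  have hxn : 0 < ‖x‖ := norm_pos_iff.2 hx
  obtain ⟨n, hn1, hn2⟩ := exists_mem_Ico_zpow hxn ((one_lt_inv₀ hz0).2 hz1')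
  have hy0 : (0 : ℝ) < ‖z‖⁻¹ := inv_pos.2 hz0
  have hpw : ‖z ^ (-(n + 1))‖ = ‖z‖⁻¹ ^ (n + 1) := by
    rw [norm_zpow, zpow_neg, inv_zpow]
  have hpos : 0 < ‖z‖⁻¹ ^ (n + 1) := zpow_pos hy0 _
  have hmem : x / z ^ (-(n + 1)) ∈ Metric.closedBall (0 : E) 1 ∩ {x : E | ‖z‖ ≤ ‖x‖} := by
    constructor
    · rw [mem_closedBall_zero_iff, norm_div, hpw, div_le_one hpos]
      exact hn2.le
    · change ‖z‖ ≤ ‖x / z ^ (-(n + 1))‖
      rw [norm_div, hpw, le_div_iff₀ hpos, zpow_add_one₀ hy0.ne']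
      calc ‖z‖ * (‖z‖⁻¹ ^ n * ‖z‖⁻¹) = ‖z‖⁻¹ ^ n := by field_simp
        _ ≤ ‖x‖ := hn1
  have h1 := hT2 hmem
  rw [Set.mem_iUnion₂] at h1
  obtain ⟨e, he, h2⟩ := h1
  refine ⟨e, he, -(n + 1), ?_⟩
  rw [← div_div]
  exact le_of_lt h2

end Pool.Agent.VPer
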