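import Pool.Agent.Work.MP_037d19_vp.Interface3

/-!
# FA: finitely many classes (second copy, helper9)
-/

namespace Pool.Agent.VPer

open scoped Topology

theorem stmt_FA : Stmt_FA := by
  classical
  intro F E _ _ _ _ r z₀ hr hz hz1
  have hz0 : 0 < ‖z₀‖ := norm_pos_iff.2 hz
  have hzE : algebraMap F E z₀ ≠ 0 := by
    rw [Ne, map_eq_zero]
    exact hz
  have hnE : ‖algebraMap F E z₀‖ = ‖z₀‖ := norm_algebraMap' E z₀
  have hcomp : IsCompact {x : E | ‖z₀‖ ≤ ‖x‖ ∧ ‖x‖ ≤ 1} := by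
    refine (isCompact_closedBall (0 : E) 1).of_isClosed_subset ?_ ?_
    · exact (isClosed_le continuous_const continuous_norm).inter
        (isClosed_le continuous_norm continuous_const)
    · rintro x ⟨_, hx⟩
      rw [Metric.mem_closedBall, dist_zero_right]
      exact hx
  obtain ⟨T, hT1, hT2⟩ := hcomp.elim_nhds_subcover (fun e => {x : E | ‖x / e - 1‖ < r}) (by
    rintro e ⟨he, _⟩
    have he0 : e ≠ 0 := norm_pos_iff.1 (lt_of_lt_of_le hz0 he)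
    refine IsOpen.mem_nhds ?_ ?_
    · exact isOpen_lt (((continuous_id.div_const e).sub continuous_const).norm) continuous_const
    · show ‖e / e - 1‖ < r
      rw [div_self he0, sub_self, norm_zero]
      exact hr)
  refine ⟨T, fun e he => norm_pos_iff.1 (lt_of_lt_of_le hz0 (hT1 e he).1), ?_⟩
  intro x hx
  have hy : 1 < ‖z₀‖⁻¹ := (one_lt_inv₀ hz0).2 hz1
  obtain ⟨n, hn1, hn2⟩ := exists_mem_Ioc_zpow (norm_pos_iff.2 hx) hy
  have hj1 : ‖x‖ ≤ ‖z₀‖ ^ (-(n + 1)) := by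
    rw [zpow_neg, ← inv_zpow]
    exact hn2
  have hj2 : ‖z₀‖ * ‖z₀‖ ^ (-(n + 1)) ≤ ‖x‖ := by
    have h1 : ‖z₀‖ * ‖z₀‖ ^ (-(n + 1)) = ‖z₀‖⁻¹ ^ n := by
      rw [← zpow_one_add₀ hz0.ne', inv_zpow, ← zpow_neg]
      congr 1
      ring
    rw [h1]
    exact hn1.le
  have hq : 0 < ‖z₀‖ ^ (-(n + 1)) := zpow_pos hz0 _
  have hmem : x / algebraMap F E z₀ ^ (-(n + 1)) ∈ {x : E | ‖z₀‖ ≤ ‖x‖ ∧ ‖x‖ ≤ 1} := by
    have h1 : ‖x / algebraMap F E z₀ ^ (-(n + 1))‖ = ‖x‖ / ‖z₀‖ ^ (-(n + 1)) := by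
      rw [norm_div, norm_zpow, hnE]
    refine ⟨?_, ?_⟩
    · rw [h1, le_div_iff₀ hq]
      exact hj2
    · rw [h1, div_le_one hq]
      exact hj1
  have h2 := hT2 hmem
  simp only [Set.mem_iUnion] at h2
  obtain ⟨e, he, h3⟩ := h2
  refine ⟨e, he, -(n + 1), ?_⟩
  have h4 : x / (algebraMap F E z₀ ^ (-(n + 1)) * e) = x / algebraMap F E z₀ ^ (-(n + 1)) / e := by
    rw [div_div]
  rw [h4]
  exact le_of_lt h3

end Pool.Agent.VPer
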