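import Pool.Agent.Work.MP_037d19_vp.Interface3

/-!
# Block FB: a power of every non-zero element is a power of `z₀` up to a small ball
-/

namespace Pool.Agent.VPer

open Pool.Agent.LPer
open scoped Topology

theorem stmt_FB (hFA : Stmt_FA) : Stmt_FB := by
  intro F E _ _ _ _ hult r z₀ hr hz0 hz1 x hx
  have hr' : 0 < min r (1 / 2) := lt_min hr (by norm_num)
  obtain ⟨T, hT0, hcov⟩ := hFA F E (min r (1 / 2)) z₀ hr' hz0 hz1
  have hz : algebraMap F E z₀ ≠ 0 := by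
    rw [Ne, map_eq_zero]
    exact hz0
  have hcov' : ∀ a : ℕ, ∃ e : T, ∃ j : ℤ,
      ‖x ^ a / (algebraMap F E z₀ ^ j * (e : E)) - 1‖ ≤ min r (1 / 2) := by
    intro a
    obtain ⟨e, he, j, hj⟩ := hcov (x ^ a) (pow_ne_zero a hx)
    exact ⟨⟨e, he⟩, j, hj⟩
  choose e j hej using hcov'
  have hpig : ∃ a b : ℕ, a < b ∧ e a = e b := by
    obtain ⟨a, b, hab, h⟩ := Finite.exists_ne_map_eq_of_infinite e
    rcases lt_or_gt_of_ne hab with h1 | h1
    · exact ⟨a, b, h1, h⟩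
    · exact ⟨b, a, h1, h.symm⟩
  obtain ⟨a, b, hab, hE⟩ := hpig
  refine ⟨b - a, j b - j a, by omega, ?_⟩
  have ha := hej a
  have hb := hej b
  rw [← hE] at hb
  have he0 : ((e a : T) : E) ≠ 0 := hT0 _ (e a).2
  obtain ⟨u, hu⟩ : ∃ u, u = x ^ a / (algebraMap F E z₀ ^ (j a) * ((e a : T) : E)) := ⟨_, rfl⟩
  obtain ⟨v, hv⟩ : ∃ v, v = x ^ b / (algebraMap F E z₀ ^ (j b) * ((e a : T) : E)) := ⟨_, rfl⟩
  rw [← hu] at ha
  rw [← hv] at hb
  have hxa : x ^ a ≠ 0 := pow_ne_zero a hx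
  have hza : algebraMap F E z₀ ^ (j a) ≠ 0 := zpow_ne_zero _ hz
  have hzb : algebraMap F E z₀ ^ (j b) ≠ 0 := zpow_ne_zero _ hz
  have hu0 : u ≠ 0 := by
    rw [hu]
    exact div_ne_zero hxa (mul_ne_zero hza he0)
  have hratio : x ^ (b - a) / algebraMap F E z₀ ^ (j b - j a) = v / u := by
    rw [hu, hv, pow_sub₀ x hx hab.le, zpow_sub₀ hz]
    field_simp
  have hu1 : 1 ≤ ‖u‖ := by
    have h1 := hult u (1 - u)
    rw [add_sub_cancel, norm_one] at h1
    rcases le_max_iff.mp h1 with h2 | h2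
    · exact h2
    · exfalso
      rw [norm_sub_rev] at h2
      have h3 : ‖u - 1‖ ≤ 1 / 2 := ha.trans (min_le_right _ _)
      linarith
  have hvu : ‖v - u‖ ≤ min r (1 / 2) := by
    have h1 := hult (v - 1) (1 - u)
    rw [sub_add_sub_cancel] at h1
    rw [norm_sub_rev] at ha
    exact h1.trans (max_le hb ha)
  rw [hratio, div_sub_one hu0, norm_div]
  calc ‖v - u‖ / ‖u‖ ≤ ‖v - u‖ := div_le_self (norm_nonneg _) hu1
    _ ≤ min r (1 / 2) := hvu
    _ ≤ r := min_le_left _ _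

end Pool.Agent.VPer
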