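import Pool.Agent.Work.MP_037d19_vp.Interface3

/-!
# FB: a power of every element is a power of `z₀` up to the ball (second copy, helper9)
-/

namespace Pool.Agent.VPer

open scoped Topology

namespace FBx

theorem quot {E : Type} [NormedField E] (hu : ∀ x y : E, ‖x + y‖ ≤ max ‖x‖ ‖y‖) {r : ℝ} (hr : r ≤ 1 / 2)
    {p q : E} (hp : ‖p - 1‖ ≤ r) (hq : ‖q - 1‖ ≤ r) : ‖p / q - 1‖ ≤ r := by
  have h1 : 1 ≤ ‖q‖ := by
    have h := hu q (1 - q)
    rw [add_sub_cancel, norm_one] at h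
    rcases le_max_iff.1 h with h2 | h2
    · exact h2
    · rw [norm_sub_rev] at h2
      linarith
  have hq0 : q ≠ 0 := by
    rintro rfl
    rw [norm_zero] at h1
    linarith
  have h2 : ‖p - q‖ ≤ r := by
    have h := hu (p - 1) (1 - q)
    rw [sub_add_sub_cancel] at h
    refine h.trans (max_le hp ?_)
    rw [norm_sub_rev]
    exact hq
  have h3 : p / q - 1 = (p - q) / q := by
    rw [sub_div, div_self hq0]
  rw [h3, norm_div]
  have h4 : (0 : ℝ) < ‖q‖ := by linarith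
  rw [div_le_iff₀ h4]
  have h5 : 0 ≤ r := le_trans (norm_nonneg _) hp
  nlinarith

end FBx

theorem stmt_FB (hFA : Stmt_FA) : Stmt_FB := by
  classical
  intro F E _ _ _ _ hultra r z₀ hr hz hz1 x hx
  have hzE : algebraMap F E z₀ ≠ 0 := by
    rw [Ne, map_eq_zero]
    exact hz
  obtain ⟨T, hT0, hT⟩ := hFA F E (min r (1 / 2)) z₀ (lt_min hr (by norm_num)) hz hz1
  have h1 : ∀ a : ℕ, ∃ p : E × ℤ, p.1 ∈ T ∧ ‖x ^ a / (algebraMap F E z₀ ^ p.2 * p.1) - 1‖ ≤ min r (1 / 2) := by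
    intro a
    obtain ⟨e, he, j, hj⟩ := hT (x ^ a) (pow_ne_zero _ hx)
    exact ⟨(e, j), he, hj⟩
  choose P hP1 hP2 using h1
  obtain ⟨a, _, b, _, hab, hE⟩ := Finset.exists_ne_map_eq_of_card_lt_of_maps_to
    (s := Finset.range (T.card + 1)) (t := T) (f := fun a => (P a).1)
    (by rw [Finset.card_range]; omega) (fun a _ => hP1 a)
  have key : ∀ a b : ℕ, a < b → (P a).1 = (P b).1 → ∃ (M : ℕ) (l : ℤ), 0 < M ∧
      ‖x ^ M / algebraMap F E z₀ ^ l - 1‖ ≤ r := by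
    intro a b hab hE
    refine ⟨b - a, (P b).2 - (P a).2, by omega, ?_⟩
    have h2 := FBx.quot hultra (min_le_right r (1 / 2)) (hP2 b) (hP2 a)
    have he0 : (P a).1 ≠ 0 := hT0 _ (hP1 a)
    have h3 : x ^ b / (algebraMap F E z₀ ^ (P b).2 * (P b).1) /
        (x ^ a / (algebraMap F E z₀ ^ (P a).2 * (P a).1)) =
        x ^ (b - a) / algebraMap F E z₀ ^ ((P b).2 - (P a).2) := by
      rw [← hE, zpow_sub₀ hzE, pow_sub₀ x hx hab.le]
      have hza : algebraMap F E z₀ ^ (P a).2 ≠ 0 := zpow_ne_zero _ hzE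
      have hzb : algebraMap F E z₀ ^ (P b).2 ≠ 0 := zpow_ne_zero _ hzE
      have hxa : x ^ a ≠ 0 := pow_ne_zero _ hx
      field_simp
    rw [h3] at h2
    exact h2.trans (min_le_left _ _)
  rcases lt_or_gt_of_ne hab with h | h
  · exact key a b h hE
  · exact key b a h hE.symm

end Pool.Agent.VPer
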