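import Pool.Agent.Work.MP_037d19_vp.Interface3

/-!
# FINC: finitely many characters
-/

namespace Pool.Agent.VPer

namespace Finc

theorem roots_finite (k : ℕ) (hk : 0 < k) (κ : ℂ) : {c : ℂ | c ^ k = κ}.Finite := by
  classical
  refine (Polynomial.nthRoots k κ).toFinset.finite_toSet.subset ?_
  intro c hc
  rw [Finset.mem_coe, Multiset.mem_toFinset, Polynomial.mem_nthRoots hk]
  exact hc

end Finc

theorem stmt_FINC (hFA : Stmt_FA) (hFB : Stmt_FB) : Stmt_FINC := by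
  classical
  intro F E _ _ _ _ hult r k z₀ κ hr hk hz hz1
  obtain ⟨T, hT0, hT⟩ := hFA F E r z₀ hr hz hz1
  have hB : ∀ e : T, ∃ (M : ℕ) (l : ℤ), 0 < M ∧ ‖(e : E) ^ M / algebraMap F E z₀ ^ l - 1‖ ≤ r :=
    fun e => hFB F E hult r z₀ hr hz hz1 e (hT0 e e.2)
  choose M l hM hMl using hB
  have hz' : algebraMap F E z₀ ≠ 0 := by
    intro h
    exact hz ((map_eq_zero (algebraMap F E)).1 h)
  have hA : {c : ℂ | c ^ k = κ}.Finite := Finc.roots_finite k hk κ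
  have hBf : ∀ e : T, (⋃ c ∈ {c : ℂ | c ^ k = κ}, {y : ℂ | y ^ M e = c ^ l e}).Finite :=
    fun e => hA.biUnion fun c _ => Finc.roots_finite (M e) (hM e) _
  refine Set.Finite.of_finite_image
    (f := fun χ : E →*₀ ℂ => (χ (algebraMap F E z₀), fun e : T => χ e)) ?_ ?_
  · refine (hA.prod (Set.Finite.pi' hBf)).subset ?_
    rintro _ ⟨χ, ⟨h1, h2⟩, rfl⟩
    refine ⟨h2, fun e => ?_⟩
    refine Set.mem_biUnion h2 ?_
    have h3 := h1 _ (hMl e)
    rw [map_div₀, map_pow, map_zpow₀] at h3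
    have h4 : (χ (algebraMap F E z₀)) ^ l e ≠ 0 := zpow_ne_zero _ ((map_ne_zero χ).2 hz')
    exact (div_eq_one_iff_eq h4).1 h3
  · intro χ hχ χ' hχ' h
    refine DFunLike.ext _ _ fun x => ?_
    by_cases hx : x = 0
    · rw [hx, map_zero, map_zero]
    obtain ⟨e, he, j, hj⟩ := hT x hx
    have key : ∀ ψ : E →*₀ ℂ, (∀ x : E, ‖x - 1‖ ≤ r → ψ x = 1) →
        ψ x = ψ (algebraMap F E z₀) ^ j * ψ e := by
      intro ψ hψ
      have h3 := hψ _ hj
      rw [map_div₀, map_mul, map_zpow₀] at h3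
      have h4 : ψ (algebraMap F E z₀) ^ j * ψ e ≠ 0 :=
        mul_ne_zero (zpow_ne_zero _ ((map_ne_zero ψ).2 hz')) ((map_ne_zero ψ).2 (hT0 e he))
      exact (div_eq_one_iff_eq h4).1 h3
    have h5 : χ (algebraMap F E z₀) = χ' (algebraMap F E z₀) := congrArg Prod.fst h
    have h6 : χ e = χ' e := congrFun (congrArg Prod.snd h) ⟨e, he⟩
    rw [key χ hχ.1, key χ' hχ'.1, h5, h6]

end Pool.Agent.VPer
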