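import Pool.Agent.Work.MP_037d19_vp.Interface3

namespace Pool.Agent.VPer

open Pool.Agent.LPer
open scoped Topology
open Module (finrank)

namespace FINCx

theorem fin_roots (M : ℕ) (hM : 0 < M) (c : ℂ) : {u : ℂ | u ^ M = c}.Finite := by
  have : {u : ℂ | u ^ M = c} = ((Polynomial.nthRoots M c).toFinset : Set ℂ) := by
    ext u
    simp [Polynomial.mem_nthRoots hM]
  rw [this]
  exact Finset.finite_toSet _

end FINCx

theorem stmt_FINCx (hFA : Stmt_FA) (hFB : Stmt_FB) : Stmt_FINC := by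
  intro F E _ _ _ _ hult r k z₀ κ hr hk hz hz1
  obtain ⟨T, hT0, hT⟩ := hFA F E r z₀ hr hz hz1
  have hz' : algebraMap F E z₀ ≠ 0 := by
    intro h
    exact hz ((map_eq_zero (algebraMap F E)).mp h)
  have hB : ∀ e : T, ∃ (M : ℕ) (l : ℤ), 0 < M ∧ ‖(e : E) ^ M / algebraMap F E z₀ ^ l - 1‖ ≤ r :=
    fun e => hFB F E hult r z₀ hr hz hz1 e (hT0 e e.2)
  choose M l hM hl using hB
  set S : Set (E →*₀ ℂ) :=
    {χ : E →*₀ ℂ | (∀ x : E, ‖x - 1‖ ≤ r → χ x = 1) ∧ χ (algebraMap F E z₀) ^ k = κ} with hS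
  let Φ : (E →*₀ ℂ) → ℂ × (T → ℂ) := fun χ => (χ (algebraMap F E z₀), fun e => χ e)
  have hinj : Set.InjOn Φ S := by
    intro χ₁ h₁ χ₂ h₂ h
    have e1 : χ₁ (algebraMap F E z₀) = χ₂ (algebraMap F E z₀) := congrArg Prod.fst h
    have e2 : ∀ e : T, χ₁ e = χ₂ e := fun e => congrFun (congrArg Prod.snd h) e
    ext x
    by_cases hx : x = 0
    · rw [hx, map_zero, map_zero]
    · obtain ⟨e, he, j, hj⟩ := hT x hx
      have hne : algebraMap F E z₀ ^ j * e ≠ 0 := mul_ne_zero (zpow_ne_zero _ hz') (hT0 e he)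
      have hx2 : x = x / (algebraMap F E z₀ ^ j * e) * (algebraMap F E z₀ ^ j * e) := by
        rw [div_mul_cancel₀ _ hne]
      rw [hx2, map_mul, map_mul χ₂, h₁.1 _ hj, h₂.1 _ hj, map_mul, map_mul χ₂, map_zpow₀,
        map_zpow₀, e1, e2 ⟨e, he⟩]
  have himg : (Φ '' S).Finite := by
    have hW : {w : ℂ | w ^ k = κ}.Finite := FINCx.fin_roots k hk κ
    have hU : (⋃ w ∈ {w : ℂ | w ^ k = κ}, ({w} : Set ℂ) ×ˢ
        (Set.pi Set.univ fun e : T => {u : ℂ | u ^ M e = w ^ l e})).Finite := by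
      apply hW.biUnion
      intro w _
      apply (Set.finite_singleton w).prod
      apply Set.Finite.pi
      intro e
      exact FINCx.fin_roots (M e) (hM e) _
    apply hU.subset
    rintro _ ⟨χ, hχ, rfl⟩
    rw [Set.mem_iUnion₂]
    refine ⟨χ (algebraMap F E z₀), hχ.2, ?_⟩
    refine ⟨rfl, ?_⟩
    intro e _
    show χ e ^ M e = χ (algebraMap F E z₀) ^ l e
    have h3 := hχ.1 _ (hl e)
    rw [map_div₀, map_pow, map_zpow₀] at h3
    have h4 : χ (algebraMap F E z₀) ^ l e ≠ 0 := by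
      apply zpow_ne_zero
      rw [map_ne_zero]
      exact hz'
    exact (div_eq_one_iff_eq h4).mp h3
  exact Set.Finite.of_finite_image himg hinj

end Pool.Agent.VPer
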