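import Pool.Agent.Work.MP_037d19_vp.Interface2

/-!
# Block GEN: a good generator of a quadratic extension (typed by helper53)
-/

set_option autoImplicit false

namespace Pool.Agent.VPer

open Pool.Agent.LPer
open scoped Polynomial Topology
open Module (finrank)

namespace GEN

variable {F E : Type} [Field F] [Field E] [Algebra F E]

/-- coordinates with respect to `1, δ`, and the norm in coordinates -/
theorem coord (δ : E) (a : F) (hE : finrank F E = 2) (hsq : δ ^ 2 = algebraMap F E a)
    (hns : ∀ b : F, b ^ 2 ≠ a) :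
    (∀ w : E, ∃ u v : F, w = algebraMap F E u + algebraMap F E v * δ) ∧
    ∀ u v : F, Algebra.norm F (algebraMap F E u + algebraMap F E v * δ) = u ^ 2 - v ^ 2 * a := by
  have hfin : FiniteDimensional F E := Module.finite_of_finrank_pos (by omega)
  let L : F × F →ₗ[F] E :=
    (Algebra.linearMap F E).comp (LinearMap.fst F F F) +
      ((LinearMap.mulRight F δ).comp (Algebra.linearMap F E)).comp (LinearMap.snd F F F)
  have hL : ∀ q : F × F, L q = algebraMap F E q.1 + algebraMap F E q.2 * δ := fun q => rfl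
  have hinj : Function.Injective L := by
    rw [injective_iff_map_eq_zero]
    rintro ⟨u, v⟩ h
    rw [hL] at h
    simp only at h
    by_cases hv : v = 0
    · subst hv
      rw [map_zero, zero_mul, add_zero] at h
      have hu : u = 0 := (FaithfulSMul.algebraMap_injective F E) (by rw [h, map_zero])
      rw [hu]
      rfl
    · exfalso
      apply hns (u / v)
      apply FaithfulSMul.algebraMap_injective F E
      have hv' : algebraMap F E v ≠ 0 := by
        intro h0
        exact hv ((FaithfulSMul.algebraMap_injective F E) (by rw [h0, map_zero]))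
      have h1 : algebraMap F E v * δ = -algebraMap F E u := by
        linear_combination h
      have h2 : δ = -(algebraMap F E u / algebraMap F E v) := by
        field_simp
        linear_combination h1
      rw [← hsq, h2, map_pow, map_div₀]
      ring
  have hdim : finrank F (F × F) = finrank F E := by
    rw [hE, Module.finrank_prod, Module.finrank_self]
  let e : (F × F) ≃ₗ[F] E := LinearEquiv.ofInjectiveOfFinrankEq L hinj hdim
  have he : ∀ q, e q = algebraMap F E q.1 + algebraMap F E q.2 * δ := fun q => rfl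
  refine ⟨fun w => ⟨(e.symm w).1, (e.symm w).2, ?_⟩, fun u v => ?_⟩
  · rw [← he, LinearEquiv.apply_symm_apply]
  · let b : Module.Basis (Fin 2) F E :=
      Module.Basis.ofEquivFun (e.symm.trans (LinearEquiv.finTwoArrow F F).symm)
    have hb : ∀ i, b i = e ((LinearEquiv.finTwoArrow F F) (Pi.single i 1)) := by
      intro i
      rw [Module.Basis.coe_ofEquivFun]
      rfl
    have hr : ∀ (x : E) (i : Fin 2), b.repr x i = ![(e.symm x).1, (e.symm x).2] i := by
      intro x i
      rw [Module.Basis.ofEquivFun_repr_apply]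
      rfl
    have b0 : b 0 = 1 := by
      rw [hb, he]
      simp
    have b1 : b 1 = δ := by
      rw [hb, he]
      simp
    have e1 : e.symm ((algebraMap F E u + algebraMap F E v * δ) * 1) = (u, v) := by
      rw [mul_one, LinearEquiv.symm_apply_eq, he]
    have e2 : e.symm ((algebraMap F E u + algebraMap F E v * δ) * δ) = (v * a, u) := by
      rw [LinearEquiv.symm_apply_eq, he, map_mul]
      linear_combination (algebraMap F E v) * hsq
    rw [Algebra.norm_eq_matrix_det b, Matrix.det_fin_two, Algebra.leftMulMatrix_eq_repr_mul,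
      Algebra.leftMulMatrix_eq_repr_mul, Algebra.leftMulMatrix_eq_repr_mul,
      Algebra.leftMulMatrix_eq_repr_mul, hr, hr, hr, hr, b0, b1, e1, e2]
    simp only [Matrix.cons_val_zero, Matrix.cons_val_one]
    ring

end GEN

theorem stmt_GEN : Stmt_GEN := by
  intro F E _ _ _ _ _ _ h2 hult hnorm hE δ a hsq hns
  obtain ⟨hco, hno⟩ := GEN.coord δ a hE hsq hns
  have ha : a ≠ 0 := by
    intro h
    apply hns 0
    rw [h]
    exact zero_pow two_ne_zero
  have haN : 0 < ‖a‖ := norm_pos_iff.2 ha
  let S : Set F := {s | ‖s ^ 2 * a‖ ≤ 1}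
  have hSc : IsCompact S := by
    apply Metric.isCompact_of_isClosed_isBounded
    · exact isClosed_le (by fun_prop) continuous_const
    · rw [isBounded_iff_forall_norm_le]
      refine ⟨1 + 1 / ‖a‖, fun s hs => ?_⟩
      have h1 : ‖s‖ ^ 2 * ‖a‖ ≤ 1 := by
        rw [← norm_pow, ← norm_mul]
        exact hs
      have h3 : ‖s‖ ^ 2 ≤ 1 / ‖a‖ := by
        rw [le_div_iff₀ haN]
        exact h1
      nlinarith [sq_nonneg (‖s‖ - 1), norm_nonneg s]
  have hS0 : S.Nonempty := ⟨0, by
    change ‖(0 : F) ^ 2 * a‖ ≤ 1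
    rw [zero_pow two_ne_zero, zero_mul, norm_zero]
    exact zero_le_one⟩
  obtain ⟨s, hs, hmax⟩ := hSc.exists_isMaxOn hS0 continuous_norm.continuousOn
  have hs0 : s ≠ 0 := by
    obtain ⟨x, hx0, hx1⟩ := NormedField.exists_norm_lt F
      (show 0 < min 1 (1 / ‖a‖) from lt_min one_pos (by positivity))
    have h3 : x ∈ S := by
      change ‖x ^ 2 * a‖ ≤ 1
      rw [norm_mul, norm_pow]
      have h4 : ‖x‖ ≤ 1 := hx1.le.trans (min_le_left _ _)
      have h5 : ‖x‖ * ‖a‖ ≤ 1 := by
        have h6 : ‖x‖ ≤ 1 / ‖a‖ := hx1.le.trans (min_le_right _ _)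
        rwa [le_div_iff₀ haN] at h6
      calc ‖x‖ ^ 2 * ‖a‖ = ‖x‖ * (‖x‖ * ‖a‖) := by ring
        _ ≤ 1 * 1 := mul_le_mul h4 h5 (by positivity) zero_le_one
        _ = 1 := one_mul 1
    have h4 : ‖x‖ ≤ ‖s‖ := hmax h3
    rw [← norm_pos_iff]
    exact lt_of_lt_of_le hx0 h4
  have hmap : ∀ x : F, ‖algebraMap F E x‖ = ‖x‖ := fun x => norm_algebraMap' E x
  refine ⟨s, hs0, hs, fun w hw => ?_⟩
  obtain ⟨u, v, rfl⟩ := hco w
  have hcj : ‖algebraMap F E u + algebraMap F E (-v) * δ‖ ≤ 1 := by
    have h3 : ‖algebraMap F E u + algebraMap F E (-v) * δ‖ ^ 2 ≤ 1 := by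
      rw [← hnorm, hno, neg_sq, ← hno, hnorm]
      exact pow_le_one₀ (norm_nonneg _) hw
    exact (sq_le_one_iff₀ (norm_nonneg _)).1 h3
  have hu : ‖u‖ ≤ 1 := by
    have h3 : ‖algebraMap F E (2 * u)‖ ≤ 1 := by
      have h4 : algebraMap F E (2 * u) = (algebraMap F E u + algebraMap F E v * δ) +
          (algebraMap F E u + algebraMap F E (-v) * δ) := by
        rw [map_mul, map_neg, map_ofNat]
        ring
      rw [h4]
      exact (hult _ _).trans (max_le hw hcj)
    rwa [hmap, norm_mul, h2, one_mul] at h3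
  have hv : ‖algebraMap F E v * δ‖ ≤ 1 := by
    have h3 : algebraMap F E v * δ = (algebraMap F E u + algebraMap F E v * δ) +
        algebraMap F E (-u) := by
      rw [map_neg]
      ring
    rw [h3]
    refine (hult _ _).trans (max_le hw ?_)
    rwa [hmap, norm_neg]
  have hvS : v ∈ S := by
    change ‖v ^ 2 * a‖ ≤ 1
    have h3 : algebraMap F E (v ^ 2 * a) = (algebraMap F E v * δ) ^ 2 := by
      rw [map_mul, map_pow, ← hsq]
      ring
    rw [← hmap, h3, norm_pow]
    exact pow_le_one₀ (norm_nonneg _) hv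
  have hvs : ‖v‖ ≤ ‖s‖ := hmax hvS
  refine ⟨u, v / s, hu, ?_, ?_⟩
  · rw [norm_div]
    exact div_le_one_of_le₀ hvs (norm_nonneg _)
  · have h3 : algebraMap F E (v / s) * (algebraMap F E s * δ) = algebraMap F E v * δ := by
      rw [← mul_assoc, ← map_mul, div_mul_cancel₀ _ hs0]
    rw [h3]

end Pool.Agent.VPer
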