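import Pool.Agent.Work.MP_037d19_vp.Interface

/-! # ITER: successive approximation -/

namespace Pool.Agent.VPer

open Pool.Agent.LPer
open scoped Polynomial Topology
open Module (finrank)

theorem stmt_ITER : Stmt_ITER := by
  intro E _ r₀ C hr₀ hC
  obtain ⟨r₁, hr₁, h1, h2, h3⟩ : ∃ r₁ : ℝ, 0 < r₁ ∧ r₁ ≤ r₀ ∧ r₁ ≤ 1 / 4 ∧ C * r₁ ≤ 1 / 4 := by
    refine ⟨min r₀ (min (1 / 4) (1 / (4 * C))), ?_, min_le_left _ _, ?_, ?_⟩
    · apply lt_min hr₀
      apply lt_min (by norm_num)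
      positivity
    · exact (min_le_right _ _).trans (min_le_left _ _)
    · have h : min r₀ (min (1 / 4) (1 / (4 * C))) ≤ 1 / (4 * C) :=
        (min_le_right _ _).trans (min_le_right _ _)
      calc C * min r₀ (min (1 / 4) (1 / (4 * C))) ≤ C * (1 / (4 * C)) :=
            mul_le_mul_of_nonneg_left h hC.le
        _ = 1 / 4 := by
            field_simp
  refine ⟨r₁, hr₁, ?_⟩
  intro χ hχ happ x hx
  have step : ∀ e : E, ‖e - 1‖ ≤ r₁ → ∃ e' : E, χ e' = χ e ∧ ‖e' - 1‖ ≤ ‖e - 1‖ / 2 := by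
    intro e he
    obtain ⟨u, hu, hue⟩ := happ (e - 1) (he.trans h1)
    have hw0 : 0 ≤ ‖e - 1‖ := norm_nonneg _
    have hCw : C * ‖e - 1‖ ≤ 1 / 4 := (mul_le_mul_of_nonneg_left he hC.le).trans h3
    have hue' : ‖u - e‖ ≤ 1 / 4 * ‖e - 1‖ := by
      have h5 : u - 1 - (e - 1) = u - e := by ring
      rw [h5] at hue
      refine hue.trans ?_
      rw [pow_two, ← mul_assoc]
      exact mul_le_mul_of_nonneg_right hCw hw0
    have hun : 1 / 2 ≤ ‖u‖ := by
      have h6 : (1 : ℝ) ≤ ‖u‖ + ‖u - e‖ + ‖e - 1‖ := by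
        have h7 : (1 : E) = u - (u - e) - (e - 1) := by ring
        calc (1 : ℝ) = ‖(1 : E)‖ := norm_one.symm
          _ = ‖u - (u - e) - (e - 1)‖ := by rw [← h7]
          _ ≤ ‖u - (u - e)‖ + ‖e - 1‖ := norm_sub_le _ _
          _ ≤ ‖u‖ + ‖u - e‖ + ‖e - 1‖ := by
              gcongr
              exact norm_sub_le _ _
      have h8 : ‖e - 1‖ ≤ 1 / 4 := he.trans h2
      linarith
    have hu0 : u ≠ 0 := by
      intro h
      rw [h, norm_zero] at hun
      linarith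
    refine ⟨e / u, ?_, ?_⟩
    · rw [map_div₀, hu, div_one]
    · have h9 : e / u - 1 = (e - u) / u := by
        field_simp
      rw [h9, norm_div, norm_sub_rev, div_le_iff₀ (by linarith)]
      nlinarith
  have hall : ∀ n : ℕ, ∃ e : E, χ e = χ x ∧ ‖e - 1‖ ≤ r₁ / 2 ^ n := by
    intro n
    induction n with
    | zero => exact ⟨x, rfl, by simpa using hx⟩
    | succ n ih =>
      obtain ⟨e, he, he'⟩ := ih
      have h10 : r₁ / 2 ^ n ≤ r₁ := by
        apply div_le_self hr₁.le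
        exact one_le_pow₀ (by norm_num)
      obtain ⟨e', h11, h12⟩ := step e (he'.trans h10)
      refine ⟨e', h11.trans he, h12.trans ?_⟩
      rw [pow_succ, ← div_div]
      linarith
  obtain ⟨ε, hε, hε'⟩ := Metric.eventually_nhds_iff.1 hχ
  obtain ⟨n, hn⟩ := exists_pow_lt_of_lt_one (div_pos hε hr₁) (by norm_num : (1 / 2 : ℝ) < 1)
  obtain ⟨e, he, he'⟩ := hall n
  rw [← he]
  apply hε'
  rw [dist_eq_norm]
  refine he'.trans_lt ?_
  rw [lt_div_iff₀ hr₁] at hn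
  calc r₁ / 2 ^ n = (1 / 2) ^ n * r₁ := by
        rw [div_pow, one_pow]
        ring
    _ < ε := hn

end Pool.Agent.VPer
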