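import Pool.Agent.Work.MP_037d19_vp.Interface2

/-!
# Block ITER1: successive approximation with the sharp radius
-/

namespace Pool.Agent.VPer

open scoped Topology

theorem stmt_ITER1 : Stmt_ITER1 := by
  intro F E _ _ _ hult t ht ht1 χ hχ happ x hx
  have hall : ∀ n : ℕ, ∃ e : E, χ e = χ x ∧ ‖e - 1‖ ≤ ‖t‖ ^ (2 ^ n) := by
    intro n
    induction n with
    | zero => exact ⟨x, rfl, by simpa using hx⟩
    | succ n ih =>
      obtain ⟨e, he, he'⟩ := ih
      have hs0 : t ^ (2 ^ n) ≠ 0 := pow_ne_zero _ ht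
      have hs1 : ‖t ^ (2 ^ n)‖ ≤ ‖t‖ := by
        rw [norm_pow]
        exact pow_le_of_le_one (norm_nonneg _) ht1.le (by positivity)
      obtain ⟨u, hu, hue⟩ := happ (t ^ (2 ^ n)) hs0 hs1 (e - 1) (by rw [norm_pow]; exact he')
      have h5 : u - 1 - (e - 1) = u - e := by ring
      rw [h5, norm_pow] at hue
      have hsn : ‖t‖ ^ (2 ^ n) < 1 := by
        rw [norm_pow] at hs1
        exact hs1.trans_lt ht1
      have hs2 : (‖t‖ ^ (2 ^ n)) ^ 2 < 1 := pow_lt_one₀ (by positivity) hsn (by norm_num)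
      have h6 : ‖u - 1‖ < 1 := by
        have h7 := hult (u - e) (e - 1)
        have h8 : u - e + (e - 1) = u - 1 := by ring
        rw [h8] at h7
        exact h7.trans_lt (max_lt (hue.trans_lt hs2) (he'.trans_lt hsn))
      have hun : 1 ≤ ‖u‖ := by
        have h7 := hult u (1 - u)
        have h8 : u + (1 - u) = 1 := by ring
        rw [h8, norm_one] at h7
        rcases le_max_iff.1 h7 with h9 | h9
        · exact h9
        · rw [norm_sub_rev] at h9
          linarith
      have hu0 : u ≠ 0 := by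
        intro h
        rw [h, norm_zero] at hun
        linarith
      refine ⟨e / u, ?_, ?_⟩
      · rw [map_div₀, hu, div_one, he]
      · have h9 : e / u - 1 = (e - u) / u := by
          field_simp
        rw [h9, norm_div, norm_sub_rev, pow_succ 2 n, pow_mul]
        refine (div_le_self (norm_nonneg _) hun).trans hue
  obtain ⟨ε, hε, hε'⟩ := Metric.eventually_nhds_iff.1 hχ
  obtain ⟨n, hn⟩ := exists_pow_lt_of_lt_one hε ht1
  obtain ⟨e, he, he'⟩ := hall n
  rw [← he]
  apply hε'
  rw [dist_eq_norm]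
  refine he'.trans_lt (lt_of_le_of_lt ?_ hn)
  exact pow_le_pow_of_le_one (norm_nonneg _) ht1.le (Nat.lt_two_pow_self).le

end Pool.Agent.VPer
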