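import Pool.Agent.Work.MP_037d19_vp.Basic

/-!
# The key lemma for matrices
-/

namespace Pool.Agent.VPer

open Pool.Agent.LPer
open scoped Polynomial Topology
open Module (finrank)
open Matrix

/-- The unit entry in the middle group. -/
theorem exists_unit_entry (hRANK : Stmt_RANK) {D : Type} [DivisionRing D] {N : D → ℝ}
    (hN : DVal N) {m : ℕ} (hm : Odd m) (θ : ℝ)
    (hθ : 0 < θ) (K K' : Matrix (Fin m) (Fin m) D) (al : Fin m → ℝ)
    (hKK : K * K' = 1) (hKK' : K' * K = 1) (hK : IntM N K) (hK' : IntM N K')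
    (h1 : ∀ i j, N (K i j) * (al i * al j) ≤ θ * θ)
    (h2 : ∀ i j, N (K' i j) * (θ * θ) ≤ al i * al j) (hal : ∀ i, 0 < al i) :
    ∃ i j, al i = θ ∧ al j = θ ∧ N (K i j) = 1 := by
  classical
  by_contra hcon
  push Not at hcon
  have hlt1 : ∀ i j, θ ≤ al i → θ ≤ al j → N (K i j) < 1 := by
    intro i j hi hj
    rcases eq_or_lt_of_le hi with hi' | hi'
    · rcases eq_or_lt_of_le hj with hj' | hj'
      · exact lt_of_le_of_ne (hK i j) (hcon i j hi'.symm hj'.symm)
      · by_contra hge
        push Not at hge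
        have h3 : θ * θ < al i * al j := by
          have : θ * θ < θ * al j := mul_lt_mul_of_pos_left hj' hθ
          have h4 : θ * al j ≤ al i * al j := mul_le_mul_of_nonneg_right hi (hal j).le
          linarith
        have h5 := h1 i j
        have h6 : 1 * (al i * al j) ≤ N (K i j) * (al i * al j) :=
          mul_le_mul_of_nonneg_right hge (mul_pos (hal i) (hal j)).le
        linarith
    · by_contra hge
      push Not at hge
      have h3 : θ * θ < al i * al j := by
        have : θ * θ < al i * θ := mul_lt_mul_of_pos_right hi' hθ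
        have h4 : al i * θ ≤ al i * al j := mul_le_mul_of_nonneg_left hj (hal i).le
        linarith
      have h5 := h1 i j
      have h6 : 1 * (al i * al j) ≤ N (K i j) * (al i * al j) :=
        mul_le_mul_of_nonneg_right hge (mul_pos (hal i) (hal j)).le
      linarith
  have hlt2 : ∀ i j, al i < θ → al j ≤ θ → N (K' i j) < 1 := by
    intro i j hi hj
    by_contra hge
    push Not at hge
    have h3 : al i * al j < θ * θ := by
      have : al i * al j < θ * al j := mul_lt_mul_of_pos_right hi (hal j)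
      have h4 : θ * al j ≤ θ * θ := mul_le_mul_of_nonneg_left hj hθ.le
      linarith
    have h5 := h2 i j
    have h6 : 1 * (θ * θ) ≤ N (K' i j) * (θ * θ) :=
      mul_le_mul_of_nonneg_right hge (mul_pos hθ hθ).le
    linarith
  have hr1 := hRANK D N hN m K K' (Finset.univ.filter (fun i => θ ≤ al i))
    (Finset.univ.filter (fun i => θ ≤ al i)) hKK hK' (by
      intro i hi j hj
      exact hlt1 i j (Finset.mem_filter.mp hi).2 (Finset.mem_filter.mp hj).2)
  have hr2 := hRANK D N hN m K' K (Finset.univ.filter (fun i => al i < θ))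
    (Finset.univ.filter (fun i => al i ≤ θ)) hKK' hK (by
      intro i hi j hj
      exact hlt2 i j (Finset.mem_filter.mp hi).2 (Finset.mem_filter.mp hj).2)
  have hc1 : (Finset.univ.filter (fun i => θ ≤ al i)).card +
      (Finset.univ.filter (fun i => al i < θ)).card = m := by
    have := Finset.card_filter_add_card_filter_not (s := (Finset.univ : Finset (Fin m)))
      (fun i => θ ≤ al i)
    simpa [not_le] using this
  have hc2 : (Finset.univ.filter (fun i => al i < θ)).card ≤
      (Finset.univ.filter (fun i => al i ≤ θ)).card := by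
    apply Finset.card_le_card
    intro i hi
    rw [Finset.mem_filter] at hi ⊢
    exact ⟨hi.1, hi.2.le⟩
  obtain ⟨q, hq⟩ := hm
  omega

theorem stmt_KEYM (hSNF : Stmt_SNF) (hRANK : Stmt_RANK) : Stmt_KEYM := by
  intro F D _ _ _ N hNF m X δ hm hδ hδ1 hX
  classical
  have hN := hNF.val
  obtain ⟨P, P', Q, Q', a, hP, hP', hQ, hQ', hPP, hPP', hQQ, hQQ', hXe⟩ := hSNF D N hN m X
  -- the scalars
  have hsc : ∀ M : Matrix (Fin m) (Fin m) D, algebraMap F (Matrix (Fin m) (Fin m) D) δ * M =
      δ • M := fun M => (Algebra.smul_def δ M).symm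
  set Δ : Matrix (Fin m) (Fin m) D := Matrix.diagonal a with hΔ
  set K : Matrix (Fin m) (Fin m) D := Q * P with hKdef
  set K' : Matrix (Fin m) (Fin m) D := P' * Q' with hK'def
  have hKK : K * K' = 1 := by
    calc Q * P * (P' * Q') = Q * (P * P') * Q' := by noncomm_ring
      _ = 1 := by rw [hPP, mul_one, hQQ]
  have hKK' : K' * K = 1 := by
    calc P' * Q' * (Q * P) = P' * (Q' * Q) * P := by noncomm_ring
      _ = 1 := by rw [hQQ', mul_one, hPP']
  have hK : IntM N K := hN.intM_mul hQ hP
  have hK' : IntM N K' := hN.intM_mul hP' hQ'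
  -- Δ K Δ = δ K'
  have hXX : P * Δ * Q * (P * Δ * Q) = algebraMap F (Matrix (Fin m) (Fin m) D) δ := by
    rw [← hXe, hX]
  have hDKD : Δ * K * Δ = δ • K' := by
    calc Δ * K * Δ = P' * P * Δ * Q * (P * Δ) * (Q * Q') := by
          rw [hPP', hQQ, hKdef]
          noncomm_ring
      _ = P' * (P * Δ * Q * (P * Δ * Q)) * Q' := by noncomm_ring
      _ = P' * algebraMap F (Matrix (Fin m) (Fin m) D) δ * Q' := by rw [hXX]
      _ = δ • K' := by
          rw [← Algebra.commutes, mul_assoc, hsc]
  have hent : ∀ i j, a i * K i j * a j = δ • K' i j := by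
    intro i j
    have h := congrFun (congrFun hDKD i) j
    rw [hΔ, Matrix.mul_diagonal, Matrix.diagonal_mul, Matrix.smul_apply] at h
    exact h
  have hδN : 0 < ‖δ‖ := norm_pos_iff.mpr hδ
  -- the diagonal entries are non-zero
  have ha : ∀ i, a i ≠ 0 := by
    intro i hi
    have h0 : ∀ j, K' i j = 0 := by
      intro j
      have h := hent i j
      rw [hi, zero_mul, zero_mul] at h
      exact (smul_eq_zero.mp h.symm).resolve_left hδ
    have h1 : (K' * K) i i = 1 := by rw [hKK', Matrix.one_apply_eq]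
    rw [Matrix.mul_apply] at h1
    simp [h0] at h1
  have hal : ∀ i, 0 < N (a i) := fun i => hN.pos (ha i)
  set θ : ℝ := Real.sqrt ‖δ‖ with hθdef
  have hθ : 0 < θ := Real.sqrt_pos.mpr hδN
  have hθθ : θ * θ = ‖δ‖ := Real.mul_self_sqrt hδN.le
  have hθ1 : θ ≤ 1 := by
    rw [hθdef]
    exact Real.sqrt_le_one.mpr hδ1
  have hNent : ∀ i j, N (a i) * N (K i j) * N (a j) = ‖δ‖ * N (K' i j) := by
    intro i j
    rw [← hN.mul, ← hN.mul, hent, hNF.smul]
  have h1 : ∀ i j, N (K i j) * (N (a i) * N (a j)) ≤ θ * θ := by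
    intro i j
    rw [hθθ]
    have h3 := hNent i j
    have h4 := mul_le_mul_of_nonneg_left (hK' i j) hδN.le
    nlinarith
  have h2 : ∀ i j, N (K' i j) * (θ * θ) ≤ N (a i) * N (a j) := by
    intro i j
    rw [hθθ]
    have h3 := hNent i j
    have h4 := mul_le_mul_of_nonneg_left (hK i j) (mul_pos (hal i) (hal j)).le
    nlinarith
  obtain ⟨i, j, hi, hj, hij⟩ := exists_unit_entry hRANK hN hm θ hθ K K' (fun i => N (a i)) hKK
    hKK' hK hK' h1 h2 hal
  change N (a i) = θ at hi
  change N (a j) = θ at hj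
  have hKij : K i j ≠ 0 := by
    intro h0
    rw [h0, hN.zero] at hij
    exact zero_ne_one hij
  set c : D := (K i j * a j)⁻¹ * algebraMap F D δ with hc
  have hNc : N c = θ := by
    rw [hc, hN.mul, hN.inv (mul_ne_zero hKij (ha j)), hN.mul, hij, hNF.alg, ← hθθ, one_mul]
    rw [hj]
    field_simp
  set z : Matrix (Fin m) (Fin m) D := Matrix.single j i c with hz
  have hzI : IntM N z := by
    intro l l'
    rw [hz, Matrix.single_apply]
    split_ifs
    · rw [hNc]
      exact hθ1
    · rw [hN.zero]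
      exact zero_le_one
  -- the matrix Q (X Z) Q'
  have hM : Q * (X * (Q' * z * Q)) * Q' = K * Δ * z := by
    calc Q * (X * (Q' * z * Q)) * Q' = Q * (P * Δ * Q) * Q' * z * (Q * Q') := by
          rw [hXe]
          noncomm_ring
      _ = Q * P * Δ * (Q * Q') * z * (Q * Q') := by noncomm_ring
      _ = K * Δ * z := by rw [hQQ, mul_one, mul_one]
  have hMe : ∀ l l', (K * Δ * z) l l' = if l' = i then K l j * a j * c else 0 := by
    intro l l'
    rw [hz, Matrix.mul_apply]
    simp only [Matrix.single_apply, hΔ, Matrix.mul_diagonal]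
    by_cases h : l' = i
    · subst h
      simp
    · have : ¬ (i = l') := fun h' => h h'.symm
      simp [h, this]
  -- X Z X
  have hXZX : X * (Q' * z * Q) * X = Q' * (K * (Δ * z * K * Δ)) * Q := by
    calc X * (Q' * z * Q) * X = Q' * Q * (P * Δ * Q) * Q' * z * Q * (P * Δ * Q) := by
          rw [hXe, hQQ']
          noncomm_ring
      _ = Q' * (Q * P) * Δ * (Q * Q') * z * (Q * P) * Δ * Q := by noncomm_ring
      _ = Q' * (K * (Δ * z * K * Δ)) * Q := by
          rw [hQQ, mul_one, hKdef]
          noncomm_ring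
  have hDz : ∀ l l', N ((Δ * z * K * Δ) l l') ≤ ‖δ‖ := by
    intro l l'
    have he : (Δ * z * K * Δ) l l' = if l = j then a j * c * K i l' * a l' else 0 := by
      rw [hΔ, Matrix.mul_diagonal, Matrix.mul_apply]
      simp only [Matrix.diagonal_mul, hz, Matrix.single_apply]
      by_cases h : l = j
      · subst h
        simp
      · have : ¬ (j = l) := fun h' => h h'.symm
        simp [h, this]
    rw [he]
    split_ifs
    · rw [hN.mul, hN.mul, hN.mul, hNc]
      change N (a j) = θ at hj
      have h3 := h1 i l'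
      change N (a i) = θ at hi
      rw [hi] at h3
      rw [hj]
      have h4 : N (K i l') * N (a l') ≤ θ := by
        have h5 : θ * (N (K i l') * N (a l')) ≤ θ * θ := by linarith
        exact le_of_mul_le_mul_left h5 hθ
      calc θ * θ * N (K i l') * N (a l') = θ * θ * (N (K i l') * N (a l')) := by ring
        _ ≤ θ * θ * θ := mul_le_mul_of_nonneg_left h4 (mul_pos hθ hθ).le
        _ ≤ θ * θ * 1 := mul_le_mul_of_nonneg_left hθ1 (mul_pos hθ hθ).le
        _ = ‖δ‖ := by rw [mul_one, hθθ]
    · rw [hN.zero]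
      exact hδN.le
  set W0 : Matrix (Fin m) (Fin m) D := δ⁻¹ • (Δ * z * K * Δ) with hW0
  have hW0I : IntM N W0 := by
    intro l l'
    rw [hW0, Matrix.smul_apply, hNF.smul, norm_inv]
    rw [inv_mul_le_iff₀ hδN, mul_one]
    exact hDz l l'
  have hW0e : Δ * z * K * Δ = δ • W0 := by
    rw [hW0, smul_smul, mul_inv_cancel₀ hδ, one_smul]
  refine ⟨Q' * z * Q, Q' * (K * W0) * Q, Q, Q', i, ?_, ?_, ?_, hQQ, hQQ', ?_, ?_⟩
  · exact hN.intM_mul (hN.intM_mul hQ' hzI) hQ
  · exact hN.intM_mul (hN.intM_mul hQ' (hN.intM_mul hK hW0I)) hQ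
  · rw [hXZX, hW0e, mul_smul_comm, mul_smul_comm, smul_mul_assoc]
  · intro l l' hl'
    rw [hM, hMe, if_neg hl']
  · rw [hM, hMe, if_pos rfl, hc, ← mul_assoc, mul_inv_cancel₀ (mul_ne_zero hKij (ha j)), one_mul]

end Pool.Agent.VPer
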