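import Pool.Agent.Work.MP_037d19_vp.Interface

set_option autoImplicit false

namespace Pool.Agent.VPer

open scoped Polynomial

theorem p_LAG : Stmt_LAG := by
  intro F E _ _ _ k
  classical
  obtain ⟨c, hc0, hc1⟩ := NormedField.exists_norm_lt_one F
  have hcne : c ≠ 0 := norm_pos_iff.1 hc0
  let s : Finset ℕ := Finset.range (k + 1)
  let v : ℕ → E := fun j => algebraMap F E (c ^ j)
  have hv : Set.InjOn v s := by
    intro i _ j _ hij
    have h1 : c ^ i = c ^ j := (algebraMap F E).injective hij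
    have h2 : ‖c‖ ^ i = ‖c‖ ^ j := by rw [← norm_pow, ← norm_pow, h1]
    exact (pow_right_strictAnti₀ hc0 hc1).injective h2
  refine ⟨1 + ∑ i ∈ s, ∑ n ∈ s, ‖(Lagrange.basis s v i).coeff n‖, by positivity, ?_⟩
  intro Q B hQ hB n
  have hB0 : 0 ≤ B := le_trans (norm_nonneg _) (hB 0 (by simp))
  have hC0 : 0 ≤ ∑ i ∈ s, ∑ n ∈ s, ‖(Lagrange.basis s v i).coeff n‖ := by positivity
  by_cases hn : k < n
  · rw [Polynomial.coeff_eq_zero_of_natDegree_lt (lt_of_le_of_lt hQ hn), norm_zero]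
    positivity
  · have hns : n ∈ s := Finset.mem_range.2 (by omega)
    have hdeg : Q.degree < (s.card : WithBot ℕ) := by
      rw [Finset.card_range]
      exact lt_of_le_of_lt (Polynomial.degree_le_of_natDegree_le hQ) (by exact_mod_cast Nat.lt_succ_self k)
    have hQ2 := Lagrange.eq_interpolate hv hdeg
    have h3 : Q.coeff n = ∑ i ∈ s, Q.eval (v i) * (Lagrange.basis s v i).coeff n := by
      conv_lhs => rw [hQ2, Lagrange.interpolate_apply]
      rw [Polynomial.finsetSum_coeff]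
      refine Finset.sum_congr rfl fun i _ => ?_
      rw [Polynomial.coeff_C_mul]
    rw [h3]
    have h4 : ∀ i ∈ s, ‖Q.eval (v i) * (Lagrange.basis s v i).coeff n‖ ≤
        B * ∑ n ∈ s, ‖(Lagrange.basis s v i).coeff n‖ := by
      intro i _
      rw [norm_mul]
      have h5 : ‖Q.eval (v i)‖ ≤ B := by
        refine hB (c ^ i) ?_
        rw [norm_pow]
        exact pow_le_one₀ (norm_nonneg _) hc1.le
      have h6 : ‖(Lagrange.basis s v i).coeff n‖ ≤ ∑ n ∈ s, ‖(Lagrange.basis s v i).coeff n‖ :=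
        Finset.single_le_sum (f := fun n => ‖(Lagrange.basis s v i).coeff n‖)
          (fun _ _ => norm_nonneg _) hns
      exact mul_le_mul h5 h6 (norm_nonneg _) hB0
    calc ‖∑ i ∈ s, Q.eval (v i) * (Lagrange.basis s v i).coeff n‖
        ≤ ∑ i ∈ s, ‖Q.eval (v i) * (Lagrange.basis s v i).coeff n‖ := norm_sum_le _ _
      _ ≤ ∑ i ∈ s, B * ∑ n ∈ s, ‖(Lagrange.basis s v i).coeff n‖ := Finset.sum_le_sum h4
      _ = B * ∑ i ∈ s, ∑ n ∈ s, ‖(Lagrange.basis s v i).coeff n‖ := by rw [Finset.mul_sum]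
      _ ≤ (1 + ∑ i ∈ s, ∑ n ∈ s, ‖(Lagrange.basis s v i).coeff n‖) * B := by nlinarith

end Pool.Agent.VPer
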