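import Pool.Agent.Work.MP_037d19_vp.Interface2

set_option autoImplicit false

/-! # Integrality of the coefficients of an interpolation polynomial (block LAG1) -/

namespace Pool.Agent.VPer

open scoped Polynomial

namespace LAG1

/-- ultrametric bound for finite sums -/
theorem sum_le {E ι : Type} [NormedField E] (hu : ∀ x y : E, ‖x + y‖ ≤ max ‖x‖ ‖y‖)
    (s : Finset ι) (f : ι → E) (h : ∀ i ∈ s, ‖f i‖ ≤ 1) : ‖∑ i ∈ s, f i‖ ≤ 1 := by
  classical
  induction s using Finset.induction_on with
  | empty => simp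
  | insert a s ha ih =>
    rw [Finset.sum_insert ha]
    refine (hu _ _).trans (max_le (h a (Finset.mem_insert_self a s)) (ih fun i hi => ?_))
    exact h i (Finset.mem_insert_of_mem hi)

/-- polynomials with coefficients in the unit ball -/
def P {E : Type} [NormedField E] (q : E[X]) : Prop := ∀ i, ‖q.coeff i‖ ≤ 1

theorem P_mul {E : Type} [NormedField E] (hu : ∀ x y : E, ‖x + y‖ ≤ max ‖x‖ ‖y‖) {p q : E[X]}
    (hp : P p) (hq : P q) : P (p * q) := by
  intro n
  rw [Polynomial.coeff_mul]
  refine sum_le hu _ _ fun x _ => ?_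
  rw [norm_mul]
  exact mul_le_one₀ (hp _) (norm_nonneg _) (hq _)

theorem P_C {E : Type} [NormedField E] {a : E} (ha : ‖a‖ ≤ 1) : P (Polynomial.C a) := by
  intro n
  rw [Polynomial.coeff_C]
  split_ifs
  · exact ha
  · simp

theorem P_one {E : Type} [NormedField E] : P (1 : E[X]) := by
  rw [← Polynomial.C_1]
  exact P_C (by simp)

theorem P_X_sub {E : Type} [NormedField E] {a : E} (ha : ‖a‖ ≤ 1) :
    P (Polynomial.X - Polynomial.C a) := by
  intro n
  rw [Polynomial.coeff_sub, Polynomial.coeff_X, Polynomial.coeff_C]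
  by_cases h1 : 1 = n
  · subst h1
    simp
  · rw [if_neg h1]
    split_ifs
    · simpa using ha
    · simp

theorem P_prod {E ι : Type} [NormedField E] (hu : ∀ x y : E, ‖x + y‖ ≤ max ‖x‖ ‖y‖)
    (s : Finset ι) (f : ι → E[X]) (h : ∀ i ∈ s, P (f i)) : P (∏ i ∈ s, f i) := by
  classical
  induction s using Finset.induction_on with
  | empty => simpa using P_one
  | insert a s ha ih =>
    rw [Finset.prod_insert ha]
    exact P_mul hu (h a (Finset.mem_insert_self a s))
      (ih fun i hi => h i (Finset.mem_insert_of_mem hi))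

end LAG1

theorem stmt_LAG1 : Stmt_LAG1 := by
  intro F E _ _ _ hu k hj Q hQ hB n
  classical
  let s : Finset ℕ := Finset.range (k + 1)
  let v : ℕ → E := fun j => algebraMap F E (j : F)
  have hdiff : ∀ i ∈ s, ∀ j ∈ s, i ≠ j → ‖v i - v j‖ = 1 := by
    intro i hi j hj' hij
    have hi' : i < k + 1 := Finset.mem_range.1 hi
    have hj'' : j < k + 1 := Finset.mem_range.1 hj'
    have h1 : v i - v j = algebraMap F E ((i : F) - (j : F)) := by
      rw [map_sub]
    rw [h1, norm_algebraMap']
    rcases lt_or_gt_of_ne hij with h2 | h2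
    · have h3 : (i : F) - (j : F) = -(((j - i : ℕ) : F)) := by
        rw [Nat.cast_sub h2.le]
        ring
      rw [h3, norm_neg]
      exact hj _ (by omega) (by omega)
    · have h3 : (i : F) - (j : F) = (((i - j : ℕ) : F)) := by
        rw [Nat.cast_sub h2.le]
      rw [h3]
      exact hj _ (by omega) (by omega)
  have hv : Set.InjOn v s := by
    intro i hi j hj' hij
    by_contra hne
    have h1 := hdiff i hi j hj' hne
    rw [hij, sub_self, norm_zero] at h1
    exact zero_ne_one h1
  have hle : ∀ j ∈ s, ‖(j : F)‖ ≤ 1 := by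
    intro j hj'
    have hj'' : j < k + 1 := Finset.mem_range.1 hj'
    rcases Nat.eq_zero_or_pos j with h1 | h1
    · rw [h1, Nat.cast_zero, norm_zero]
      exact zero_le_one
    · exact (hj j h1 (by omega)).le
  have hvle : ∀ j ∈ s, ‖v j‖ ≤ 1 := by
    intro j hj'
    change ‖algebraMap F E (j : F)‖ ≤ 1
    rw [norm_algebraMap']
    exact hle j hj'
  have hdeg : Q.degree < (s.card : WithBot ℕ) := by
    rw [Finset.card_range]
    exact lt_of_le_of_lt (Polynomial.degree_le_of_natDegree_le hQ)
      (by exact_mod_cast Nat.lt_succ_self k)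
  have hQ2 := Lagrange.eq_interpolate hv hdeg
  have h3 : Q.coeff n = ∑ i ∈ s, Q.eval (v i) * (Lagrange.basis s v i).coeff n := by
    conv_lhs => rw [hQ2, Lagrange.interpolate_apply]
    rw [Polynomial.finsetSum_coeff]
    refine Finset.sum_congr rfl fun i _ => ?_
    rw [Polynomial.coeff_C_mul]
  rw [h3]
  refine LAG1.sum_le hu s _ fun i hi => ?_
  rw [norm_mul]
  have h5 : ‖Q.eval (v i)‖ ≤ 1 := hB _ (hle i hi)
  have h6 : LAG1.P (Lagrange.basis s v i) := by
    unfold Lagrange.basis
    refine LAG1.P_prod hu _ _ fun j hj' => ?_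
    rw [Finset.mem_erase] at hj'
    unfold Lagrange.basisDivisor
    refine LAG1.P_mul hu (LAG1.P_C ?_) (LAG1.P_X_sub (hvle j hj'.2))
    rw [norm_inv, hdiff i hi j hj'.2 (Ne.symm hj'.1), inv_one]
  exact mul_le_one₀ h5 (norm_nonneg _) (h6 n)

end Pool.Agent.VPer
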