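import Pool.Agent.Work.MP_037d19_vp.Interface

/-!
# Block NE: the absolute value of the norm of a quadratic extension
-/

namespace Pool.Agent.VPer

open Pool.Agent.LPer
open Module (finrank)

namespace NE

theorem cont (F E : Type) [NontriviallyNormedField F] [CompleteSpace F] [NormedField E]
    [NormedAlgebra F E] [FiniteDimensional F E] :
    Continuous fun x : E => Algebra.norm F x := by
  classical
  let b := Module.finBasis F E
  have h1 : (fun x : E => Algebra.norm F x) =
      fun x : E => (Algebra.leftMulMatrix b x).det := by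
    funext x
    exact Algebra.norm_eq_matrix_det b x
  rw [h1]
  refine Continuous.matrix_det ?_
  refine continuous_matrix fun i j => ?_
  let L : E →ₗ[F] F :=
    { toFun := fun x => (Algebra.leftMulMatrix b x) i j
      map_add' := fun x y => by rw [map_add]; rfl
      map_smul' := fun c x => by rw [map_smul]; rfl }
  exact L.continuous_of_finiteDimensional

end NE

/-- Block NE. -/
theorem stmt_NE (hANN : Stmt_ANN) : Stmt_NE := by
  intro F E _ _ _ _ _ hfr x
  haveI : FiniteDimensional F E := Module.finite_of_finrank_pos (by omega)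
  haveI : ProperSpace E := FiniteDimensional.proper F E
  rcases eq_or_ne x 0 with rfl | hx
  · rw [Algebra.norm_zero, norm_zero, norm_zero]
    norm_num
  have h := hANN F E (fun x => ‖Algebra.norm F x‖ / ‖x‖ ^ 2)
    (fun x y => by
      rw [map_mul, norm_mul, norm_mul, mul_pow, mul_div_mul_comm])
    (fun x hx => by
      have h1 : Algebra.norm F x ≠ 0 := Algebra.norm_ne_zero_iff.2 hx
      have h2 : 0 < ‖Algebra.norm F x‖ := norm_pos_iff.2 h1
      have h3 : 0 < ‖x‖ := norm_pos_iff.2 hx
      positivity)
    (by
      refine ContinuousOn.div ?_ ?_ ?_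
      · exact ((NE.cont F E).norm).continuousOn
      · exact (continuous_norm.pow 2).continuousOn
      · intro x hx
        have h3 : 0 < ‖x‖ := norm_pos_iff.2 hx
        positivity)
    (fun z hz => by
      have h3 : ‖z‖ ≠ 0 := norm_ne_zero_iff.2 hz
      rw [Algebra.norm_algebraMap, hfr, norm_pow, norm_algebraMap', div_self (pow_ne_zero 2 h3)])
    x hx
  have h3 : ‖x‖ ^ 2 ≠ 0 := pow_ne_zero 2 (norm_ne_zero_iff.2 hx)
  exact (div_eq_one_iff_eq h3).1 h

end Pool.Agent.VPer
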