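import Pool.Agent.Work.MP_037d19_vp.Interface2

/-!
# NRB: the reduced norm of an integral element is integral
-/

set_option autoImplicit false

namespace Pool.Agent.VPer

open Pool.Agent.LPer
open scoped Polynomial Topology
open Module (finrank)

theorem NRB.intM_pow {D : Type} [DivisionRing D] {N : D → ℝ} (h : DVal N) {m : ℕ}
    {X : Matrix (Fin m) (Fin m) D} (hX : IntM N X) (n : ℕ) : IntM N (X ^ n) := by
  induction n with
  | zero =>
    rw [pow_zero]
    exact h.intM_one m
  | succ n ih =>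
    rw [pow_succ]
    exact h.intM_mul ih hX

theorem NRB.intM_sub_one {D : Type} [DivisionRing D] {N : D → ℝ} (h : DVal N) {m : ℕ}
    {X : Matrix (Fin m) (Fin m) D} (hX : IntM N X) : IntM N (X - 1) := by
  rw [sub_eq_add_neg]
  refine h.intM_add hX ?_
  intro i j
  rw [Matrix.neg_apply, h.neg]
  exact h.intM_one m i j

theorem stmt_NRB (hBND : Stmt_BND) (hMUL : Stmt_MUL) : Stmt_NRB := by
  intro F E A D _ _ _ _ _ _ _ _ _ _ _ _ _ _ N ι k δE a m e hN hD g h hh
  obtain ⟨B, -, hB⟩ := hBND F E A D N ι k δE a m e hN hD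
  obtain ⟨-, -, hm, h1⟩ := hMUL F E A ι k δE a hD
  have hpow : ∀ n : ℕ, nrd E (h ^ n) = nrd E h ^ n := by
    intro n
    induction n with
    | zero => rw [pow_zero, pow_zero, h1]
    | succ n ih => rw [pow_succ, pow_succ, hm, ih]
  have hbd : ∀ n : ℕ, ‖nrd E h‖ ^ n ≤ B := by
    intro n
    have h2 : InR0 N e (((g⁻¹ : Aˣ) : A) * ((h ^ n - 1 : Cent ι) : A) * g) := by
      have h3 : ((g⁻¹ : Aˣ) : A) * ((h ^ n - 1 : Cent ι) : A) * g =
          (((g⁻¹ : Aˣ) : A) * (h : A) * g) ^ n - 1 := by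
        rw [Units.conj_pow', AddSubgroupClass.coe_sub, SubmonoidClass.coe_pow, OneMemClass.coe_one,
          mul_sub, mul_one, sub_mul, Units.inv_mul]
      unfold InR0
      rw [h3, map_sub, map_pow, map_one]
      exact NRB.intM_sub_one hN.val (NRB.intM_pow hN.val hh n)
    have h4 := hB g (h ^ n - 1) h2 1 (by rw [norm_one])
    have h5 : (1 + (1 : F) • (h ^ n - 1) : Cent ι) = h ^ n := by
      rw [one_smul, add_sub_cancel]
    rw [h5, hpow, norm_pow] at h4
    exact h4
  by_contra hcon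
  push Not at hcon
  obtain ⟨n, hn⟩ := pow_unbounded_of_one_lt B hcon
  exact absurd (hbd n) (not_le.2 hn)

end Pool.Agent.VPer
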