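import Pool.Agent.Work.MP_037d19_vp.Interface

/-!
# Block POLY: the polynomial `Nrd(1 + t y)` (typed by helper53)
-/

set_option autoImplicit false

namespace Pool.Agent.VPer

open Pool.Agent.LPer
open scoped Polynomial Topology
open Module (finrank)
open Matrix (fromBlocks)

namespace POLY

/-- the polynomial `det(1 + X M)` -/
noncomputable def dp {n : Type} [Fintype n] [DecidableEq n] {R : Type} [CommRing R]
    (M : Matrix n n R) : R[X] := Matrix.det (1 + (Polynomial.X : R[X]) • M.map Polynomial.C)

theorem dp_eval {n : Type} [Fintype n] [DecidableEq n] {R : Type} [CommRing R]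
    (M : Matrix n n R) (t : R) : (dp M).eval t = (1 + t • M).det := by
  unfold dp
  rw [← Polynomial.coe_evalRingHom, RingHom.map_det]
  congr 1
  ext i j
  simp only [RingHom.mapMatrix_apply, Matrix.map_apply, Matrix.add_apply, Matrix.smul_apply,
    Polynomial.coe_evalRingHom, Polynomial.eval_add, smul_eq_mul, Polynomial.eval_mul,
    Polynomial.eval_X, Polynomial.eval_C, Matrix.one_apply]
  by_cases h : i = j
  · rw [if_pos h, if_pos h, Polynomial.eval_one]
  · rw [if_neg h, if_neg h, Polynomial.eval_zero]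

theorem dp_zero {n : Type} [Fintype n] [DecidableEq n] {R : Type} [CommRing R]
    (M : Matrix n n R) : (dp M).eval 0 = 1 := by
  rw [dp_eval, zero_smul, add_zero, Matrix.det_one]

theorem dp_der {n : Type} [Fintype n] [DecidableEq n] {R : Type} [CommRing R]
    (M : Matrix n n R) : (Polynomial.derivative (dp M)).eval 0 = M.trace :=
  Matrix.derivative_det_one_add_X_smul M

theorem dp_deg {n : Type} [Fintype n] [DecidableEq n] {R : Type} [CommRing R]
    (M : Matrix n n R) : (dp M).natDegree ≤ Fintype.card n := by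
  have h := Polynomial.natDegree_det_X_add_C_le M 1
  have h1 : (Polynomial.X : R[X]) • M.map Polynomial.C + (1 : Matrix n n R).map Polynomial.C =
      1 + (Polynomial.X : R[X]) • M.map Polynomial.C := by
    rw [add_comm, Matrix.map_one _ Polynomial.C_0 Polynomial.C_1]
  rw [h1] at h
  exact h

/-- the reduced trace -/
theorem tr_eq {F A Ω : Type} [Field F] [CharZero F] [Ring A] [Algebra F A]
    [FiniteDimensional F A] [Field Ω] [Algebra F Ω] {n : Type} [Fintype n] [DecidableEq n]
    (φ : A →ₐ[F] Matrix n n Ω) (m : ℕ)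
    (h1 : ∀ x : A, algebraMap F Ω (nrd F x) = (φ x).det)
    (h2 : ∀ x : A, nrd F x ^ m = LinearMap.det (Algebra.lmul F A x)) (x : A) :
    algebraMap F Ω (trA F x) = (m : Ω) * (φ x).trace := by
  let b := Module.finBasis F A
  let L := LinearMap.toMatrix b b (Algebra.lmul F A x)
  have e1 : (dp L).map (algebraMap F Ω) = dp (φ x) ^ m := by
    apply Polynomial.eq_of_infinite_eval_eq
    have h3 : Set.range (fun j : ℕ => algebraMap F Ω (j : F)) ⊆
        {z | Polynomial.eval z ((dp L).map (algebraMap F Ω)) = Polynomial.eval z (dp (φ x) ^ m)} := by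
      rintro _ ⟨j, rfl⟩
      change Polynomial.eval _ ((dp L).map (algebraMap F Ω)) = Polynomial.eval _ (dp (φ x) ^ m)
      rw [Polynomial.eval_map, Polynomial.eval₂_at_apply, dp_eval, Polynomial.eval_pow, dp_eval]
      have h4 : (1 + (j : F) • L) = LinearMap.toMatrix b b (Algebra.lmul F A (1 + (j : F) • x)) := by
        rw [map_add, map_add, map_smul, map_smul, map_one]
        congr 1
        exact (LinearMap.toMatrix_one b).symm
      have h5 : (1 + (algebraMap F Ω (j : F)) • φ x) = φ (1 + (j : F) • x) := by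
        rw [map_add, map_smul, map_one, algebraMap_smul]
      rw [h4, LinearMap.det_toMatrix, ← h2, map_pow, h1, h5]
    refine Set.Infinite.mono h3 (Set.infinite_range_of_injective ?_)
    intro i j hij
    exact Nat.cast_injective ((algebraMap F Ω).injective hij)
  have e2 := congrArg (fun P : Polynomial Ω => (Polynomial.derivative P).eval 0) e1
  change ((Polynomial.derivative ((dp L).map (algebraMap F Ω))).eval 0) =
    (Polynomial.derivative (dp (φ x) ^ m)).eval 0 at e2
  rw [Polynomial.derivative_map, Polynomial.derivative_pow, Polynomial.eval_mul, Polynomial.eval_mul,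
    Polynomial.eval_C, Polynomial.eval_pow, dp_zero, dp_der, one_pow, mul_one] at e2
  have e3 : ((Polynomial.derivative (dp L)).map (algebraMap F Ω)).eval 0 =
      algebraMap F Ω ((Polynomial.derivative (dp L)).eval 0) := by
    rw [← map_zero (algebraMap F Ω), Polynomial.eval_map, Polynomial.eval₂_at_apply]
  rw [e3, dp_der] at e2
  rw [← e2]
  unfold trA
  rw [LinearMap.trace_eq_matrix_trace F b]

theorem tr_blocks {Ω : Type} [Field Ω] {k : ℕ} (M : Matrix (Fin k ⊕ Fin k) (Fin k ⊕ Fin k) Ω) :
    M.trace = M.toBlocks₁₁.trace + M.toBlocks₂₂.trace := by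
  unfold Matrix.trace
  rw [Fintype.sum_sum_type]
  rfl

theorem tr_mul {Ω : Type} [Field Ω] {k : ℕ} (d : Ω) (M : Matrix (Fin k ⊕ Fin k) (Fin k ⊕ Fin k) Ω) :
    (fromBlocks (d • (1 : Matrix (Fin k) (Fin k) Ω)) 0 0 (-(d • (1 : Matrix (Fin k) (Fin k) Ω))) *
      M).trace = d * M.toBlocks₁₁.trace - d * M.toBlocks₂₂.trace := by
  conv_lhs => rw [← Matrix.fromBlocks_toBlocks M]
  rw [Matrix.fromBlocks_multiply, tr_blocks, Matrix.toBlocks_fromBlocks₁₁,
    Matrix.toBlocks_fromBlocks₂₂]
  simp only [Matrix.smul_mul, Matrix.one_mul, Matrix.zero_mul, add_zero, zero_add, Matrix.neg_mul,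
    Matrix.trace_smul, Matrix.trace_neg, smul_eq_mul]
  ring

end POLY

open POLY in
theorem stmt_POLY (hNRD : Stmt_NRD) : Stmt_POLY := by
  intro F E A _ _ _ _ _ _ _ _ _ ι k δE a hD y
  have hEc : CharZero E := charZero_of_injective_algebraMap (algebraMap F E).injective
  obtain ⟨Ω, _, _, _, _, φ, hφδ, c1, c2, c3, c4⟩ := hNRD F E A ι k δE a hD.rankE hD.rankA hD.sq hD.nsq
  let B := (φ (y : A)).toBlocks₁₁
  let s := Finset.range (k + 1)
  let v : ℕ → E := fun i => (i : E)
  have hv : Set.InjOn v s := fun i _ j _ h => Nat.cast_injective h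
  let Q : E[X] := Lagrange.interpolate s v (fun i => nrd E (1 + (i : F) • y : Cent ι))
  have hQe : ∀ t : F, algebraMap E Ω (nrd E (1 + t • y : Cent ι)) =
      (dp B).eval (algebraMap F Ω t) := by
    intro t
    rw [c2, dp_eval]
    congr 1
    have h1 : ((1 + t • y : Cent ι) : A) = 1 + t • (y : A) := rfl
    rw [h1, map_add, map_smul, map_one]
    ext i j
    simp only [Matrix.toBlocks₁₁, Matrix.of_apply, Matrix.add_apply, Matrix.smul_apply,
      Matrix.one_apply, Sum.inl.injEq, B]
    rw [algebraMap_smul]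
  have hQP : Q.map (algebraMap E Ω) = dp B := by
    refine Polynomial.eq_of_degrees_lt_of_eval_index_eq (s := s)
      (v := fun i => algebraMap E Ω (v i)) ?_ ?_ ?_ ?_
    · intro i hi j hj h
      exact hv hi hj ((algebraMap E Ω).injective h)
    · rw [Polynomial.degree_map]
      exact Lagrange.degree_interpolate_lt _ hv
    · have h1 := dp_deg B
      rw [Fintype.card_fin] at h1
      have h2 : (s.card : WithBot ℕ) = ((k + 1 : ℕ) : WithBot ℕ) := by
        rw [Finset.card_range]
      rw [h2]
      calc (dp B).degree ≤ ((dp B).natDegree : WithBot ℕ) := Polynomial.degree_le_natDegree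
        _ < ((k + 1 : ℕ) : WithBot ℕ) := by exact_mod_cast Nat.lt_succ_of_le h1
    · intro i hi
      rw [Polynomial.eval_map, Polynomial.eval₂_at_apply]
      have h1 : Q.eval (v i) = nrd E (1 + (i : F) • y : Cent ι) :=
        Lagrange.eval_interpolate_at_node _ hv hi
      rw [h1, hQe]
      congr 1
      change algebraMap F Ω (i : F) = algebraMap E Ω (i : E)
      rw [map_natCast, map_natCast]
  have hinj := (algebraMap E Ω).injective
  refine ⟨Q, ?_, ?_, ?_, ?_⟩
  · rw [← Polynomial.natDegree_map (algebraMap E Ω), hQP]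
    have h1 := dp_deg B
    rwa [Fintype.card_fin] at h1
  · apply hinj
    rw [← Polynomial.coeff_map, hQP, Polynomial.coeff_zero_eq_eval_zero, dp_zero, map_one]
  · apply hinj
    have h1 : algebraMap E Ω (Q.coeff 1) = B.trace := by
      rw [← Polynomial.coeff_map, hQP]
      exact Matrix.coeff_det_one_add_X_smul_one B
    have t1 := tr_eq φ (2 * k) c1 c3 (y : A)
    have t2 := tr_eq φ (2 * k) c1 c3 (ι δE * (y : A))
    rw [tr_blocks] at t1
    rw [map_mul, hφδ, tr_mul] at t2
    have h2 : ∀ x : F, algebraMap E Ω (algebraMap F E x) = algebraMap F Ω x := fun x =>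
      (IsScalarTower.algebraMap_apply F E Ω x).symm
    rw [map_add, map_mul, map_mul, map_mul, map_mul, map_natCast, h1, h2, h2, t1, t2]
    have h3 : algebraMap E Ω 4 = 4 := by
      have := map_natCast (algebraMap E Ω) 4
      exact_mod_cast this
    rw [h3]
    change 4 * (k : Ω) * algebraMap E Ω δE * ((φ (y : A)).toBlocks₁₁).trace = _
    push_cast
    ring
  · intro t
    apply hinj
    rw [hQe t, ← hQP, IsScalarTower.algebraMap_apply F E Ω, Polynomial.eval_map,
      Polynomial.eval₂_at_apply]

end Pool.Agent.VPer
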