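import Pool.Agent.Work.MP_037d19_vp.Basic

/-! # RANK: a block of non-units in an integral invertible matrix is small -/

namespace Pool.Agent.VPer

open Pool.Agent.LPer
open scoped Polynomial Topology
open Module (finrank)

theorem stmt_RANK : Stmt_RANK := by
  intro D _ N hN m K K' S T hKK hK' hST
  by_contra hcon
  push Not at hcon
  classical
  -- the rows in `S`, restricted to the columns outside `T`, are dependent
  have hdep : ¬ LinearIndependent D (fun (i : S) (j : ↥(Tᶜ)) => K i j) := by
    intro hli
    have h1 := hli.fintype_card_le_finrank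
    rw [Module.finrank_pi, Fintype.card_coe, Fintype.card_coe, Finset.card_compl,
      Fintype.card_fin] at h1
    have h2 : T.card ≤ m := by
      have h3 := Finset.card_le_univ T
      rwa [Fintype.card_fin] at h3
    omega
  obtain ⟨c, hc, i₁, hi₁⟩ := Fintype.not_linearIndependent_iff.1 hdep
  -- a coefficient of maximal value
  obtain ⟨i₀, -, hmax⟩ := Finset.exists_max_image (Finset.univ : Finset S) (fun i => N (c i))
    ⟨i₁, Finset.mem_univ _⟩
  have hc0 : c i₀ ≠ 0 := by
    intro h
    have h2 := hmax i₁ (Finset.mem_univ _)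
    have h3 := hN.pos hi₁
    simp only [h, hN.zero] at h2
    linarith
  -- normalized coefficients, extended by zero
  let b : Fin m → D := fun i => if h : i ∈ S then (c i₀)⁻¹ * c ⟨i, h⟩ else 0
  have hb1 : ∀ i, N (b i) ≤ 1 := by
    intro i
    by_cases h : i ∈ S
    · simp only [b, dif_pos h]
      rw [hN.mul, hN.inv hc0]
      have h4 := hmax ⟨i, h⟩ (Finset.mem_univ _)
      rw [inv_mul_le_iff₀ (hN.pos hc0), mul_one]
      exact h4
    · simp only [b, dif_neg h]
      rw [hN.zero]
      exact zero_le_one
  have hb0 : b i₀ = 1 := by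
    simp only [b, dif_pos i₀.2]
    exact inv_mul_cancel₀ hc0
  have hbS : ∀ i, i ∉ S → b i = 0 := fun i h => by simp only [b, dif_neg h]
  -- the combination of the rows
  have hr : ∀ j, N (∑ i, b i * K i j) < 1 := by
    intro j
    by_cases hj : j ∈ T
    · apply hN.sum_lt _ _ 1 zero_lt_one
      intro i _
      by_cases hi : i ∈ S
      · rw [hN.mul]
        calc N (b i) * N (K i j) ≤ 1 * N (K i j) :=
              mul_le_mul_of_nonneg_right (hb1 i) (hN.nonneg _)
          _ = N (K i j) := one_mul _
          _ < 1 := hST i hi j hj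
      · rw [hbS i hi, zero_mul, hN.zero]
        exact zero_lt_one
    · have h5 : ∑ i, b i * K i j = 0 := by
        have h6 := congrFun hc ⟨j, Finset.mem_compl.2 hj⟩
        rw [Finset.sum_apply] at h6
        simp only [Pi.smul_apply, smul_eq_mul, Pi.zero_apply] at h6
        have h7 : ∑ i, b i * K i j = ∑ i ∈ S, b i * K i j := by
          symm
          apply Finset.sum_subset (Finset.subset_univ S)
          intro i _ hi
          rw [hbS i hi, zero_mul]
        rw [h7, ← Finset.sum_coe_sort]
        have h8 : ∀ i : S, b i * K i j = (c i₀)⁻¹ * (c i * K i j) := by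
          intro i
          simp only [b, dif_pos i.2]
          rw [mul_assoc]
        simp only [h8]
        rw [← Finset.mul_sum, h6, mul_zero]
      rw [h5, hN.zero]
      exact zero_lt_one
  -- multiply by `K'`
  have hfin : ∑ j, (∑ i, b i * K i j) * K' j i₀ = 1 := by
    have h9 : ∑ j, (∑ i, b i * K i j) * K' j i₀ = ∑ i, b i * (K * K') i i₀ := by
      simp only [Matrix.mul_apply, Finset.sum_mul, Finset.mul_sum]
      rw [Finset.sum_comm]
      refine Finset.sum_congr rfl fun i _ => Finset.sum_congr rfl fun j _ => ?_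
      rw [mul_assoc]
    rw [h9, hKK, Finset.sum_eq_single (i₀ : Fin m)]
    · rw [Matrix.one_apply_eq, mul_one, hb0]
    · intro i _ hi
      rw [Matrix.one_apply_ne hi, mul_zero]
    · intro h
      exact absurd (Finset.mem_univ _) h
  have hlt : N (∑ j, (∑ i, b i * K i j) * K' j i₀) < 1 := by
    apply hN.sum_lt _ _ 1 zero_lt_one
    intro j _
    rw [hN.mul]
    calc N (∑ i, b i * K i j) * N (K' j i₀) ≤ N (∑ i, b i * K i j) * 1 :=
          mul_le_mul_of_nonneg_left (hK' j i₀) (hN.nonneg _)
      _ = N (∑ i, b i * K i j) := mul_one _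
      _ < 1 := hr j
  rw [hfin, hN.one] at hlt
  exact lt_irrefl _ hlt

end Pool.Agent.VPer
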