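import Pool.Agent.Work.MP_037d19_vp.Basic

/-!
# The order is bounded
-/

namespace Pool.Agent.VPer

open Pool.Agent.LPer
open scoped Polynomial Topology
open Module (finrank)

namespace RB

theorem bd {F V W : Type} [NontriviallyNormedField F] [CompleteSpace F] [AddCommGroup V]
    [Module F V] [FiniteDimensional F V] [NormedAddCommGroup W] [NormedSpace F W] (N : V → ℝ)
    (h0 : ∀ x, 0 ≤ N x) (h1 : ∀ x, N x = 0 ↔ x = 0) (h2 : ∀ x y, N (x + y) ≤ N x + N y)
    (h3 : ∀ (a : F) x, N (a • x) = ‖a‖ * N x) (f : V →ₗ[F] W) :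
    ∃ C : ℝ, 0 ≤ C ∧ ∀ v, ‖f v‖ ≤ C * N v := by
  letI : Norm V := ⟨N⟩
  have core : NormedSpace.Core F V :=
    { norm_nonneg := h0
      norm_smul := h3
      norm_triangle := h2
      norm_eq_zero_iff := h1 }
  letI : NormedAddCommGroup V := NormedAddCommGroup.ofCore core
  letI : NormedSpace F V := NormedSpace.ofCore core
  refine ⟨‖LinearMap.toContinuousLinearMap f‖, norm_nonneg _, fun v => ?_⟩
  exact (LinearMap.toContinuousLinearMap f).le_opNorm v

end RB

theorem stmt_RB : Stmt_RB := by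
  intro F A D _ _ _ _ _ _ _ _ N m e hN
  have hs : ∀ (a : F) (x : D), N (a • x) = ‖a‖ * N x := by
    intro a x
    rw [Algebra.smul_def, hN.val.mul, hN.alg]
  have ha : ∀ x y : D, N (x + y) ≤ N x + N y := by
    intro x y
    refine (hN.val.add x y).trans (max_le ?_ ?_)
    · linarith [hN.val.nonneg y]
    · linarith [hN.val.nonneg x]
  have hf : ∀ i j : Fin m, ∃ C : ℝ, 0 ≤ C ∧ ∀ d : D,
      ‖e.symm (Matrix.single i j d)‖ ≤ C * N d := by
    intro i j
    exact RB.bd N hN.val.nonneg hN.val.zero_iff ha hs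
      ((e.symm.toLinearEquiv.toLinearMap).comp (Matrix.singleLinearMap F i j))
  choose C hC0 hC using hf
  refine ⟨1 + ∑ i, ∑ j, C i j, ?_, ?_⟩
  · have : 0 ≤ ∑ i, ∑ j, C i j :=
      Finset.sum_nonneg fun i _ => Finset.sum_nonneg fun j _ => hC0 i j
    linarith
  · intro u hu
    have h1 : u = ∑ i, ∑ j, e.symm (Matrix.single i j ((e u) i j)) := by
      have h2 := Matrix.matrix_eq_sum_single (e u)
      have h3 := congrArg e.symm h2
      rw [AlgEquiv.symm_apply_apply, map_sum] at h3
      refine h3.trans (Finset.sum_congr rfl fun i _ => ?_)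
      rw [map_sum]
    have h4 : ‖u‖ ≤ ∑ i, ∑ j, C i j := by
      rw [h1]
      refine (norm_sum_le _ _).trans (Finset.sum_le_sum fun i _ => ?_)
      refine (norm_sum_le _ _).trans (Finset.sum_le_sum fun j _ => ?_)
      refine (hC i j _).trans ?_
      exact mul_le_of_le_one_right (hC0 i j) (hu i j)
    linarith

end Pool.Agent.VPer
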