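import Pool.Agent.Work.MP_037d19_vp.Interface

/-! # REP: the period and the fixed vector -/

namespace Pool.Agent.VPer

open Pool.Agent.LPer
open scoped Polynomial Topology
open Module (finrank)

theorem stmt_REP : Stmt_REP := by
  intro F E A V _ _ _ _ _ _ _ _ ι χ π K v ℓ hirr hv hK hper hℓ
  have hex : ∃ g : Aˣ, ℓ (π g v) ≠ 0 := by
    by_contra hcon
    push Not at hcon
    let W : Submodule ℂ V :=
      { carrier := {x | ∀ g : Aˣ, ℓ (π g x) = 0}
        add_mem' := by
          intro a b ha hb g
          rw [map_add, map_add, ha g, hb g, add_zero]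
        zero_mem' := by
          intro g
          rw [map_zero, map_zero]
        smul_mem' := by
          intro c x hx g
          rw [map_smul, map_smul, hx g, smul_zero] }
    have hW : ∀ x : V, x ∈ W ↔ ∀ g : Aˣ, ℓ (π g x) = 0 := fun x => Iff.rfl
    have hst : ∀ g : Aˣ, ∀ x ∈ W, π g x ∈ W := by
      intro g x hx
      rw [hW] at hx ⊢
      intro g'
      have h1 : π g' (π g x) = π (g' * g) x := by
        rw [map_mul]
        rfl
      rw [h1]
      exact hx _
    rcases hirr W hst with h | h
    · have h1 : v ∈ W := (hW v).2 hcon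
      rw [h, Submodule.mem_bot] at h1
      exact hv h1
    · apply hℓ
      apply LinearMap.ext
      intro x
      have h1 : x ∈ W := by
        rw [h]
        exact Submodule.mem_top
      have h2 := (hW x).1 h1 1
      rw [map_one] at h2
      exact h2
  obtain ⟨g, hg⟩ := hex
  refine ⟨g, fun h hh hmem => ?_⟩
  have h1 := hper h hh (π g v)
  have h2 : π h (π g v) = π g v := by
    have h3 : π h (π g v) = π (h * g) v := by
      rw [map_mul]
      rfl
    have h4 : h * g = g * (g⁻¹ * h * g) := by group
    have h5 : π (g * (g⁻¹ * h * g)) v = π g (π (g⁻¹ * h * g) v) := by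
      rw [map_mul π g (g⁻¹ * h * g)]
      rfl
    rw [h3, h4, h5, hK _ hmem]
  rw [h2] at h1
  have h6 : (χ (nrd E (⟨(h : A), hh⟩ : Cent ι)) - 1) * ℓ (π g v) = 0 := by
    rw [sub_mul, one_mul, ← h1, sub_self]
  rcases mul_eq_zero.mp h6 with h7 | h7
  · exact sub_eq_zero.mp h7
  · exact absurd h7 hg

end Pool.Agent.VPer
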