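import Pool.Agent.Work.MP_037d19_vp.Interface3

/-!
# Block SCH: central elements act by scalars
-/

namespace Pool.Agent.VPer

open Pool.Agent.LPer
open scoped Topology
open Module (finrank)

theorem stmt_SCH (hNNM : Stmt_NNM) : Stmt_SCH := by
  intro F E A _ _ _ _ _ _ _ _ _ _ ι k δE a hD χ₁ χ₂ V _ _ π hπ ℓ₁ ℓ₂ hℓ₁ hℓ₁0 hℓ₂ hℓ₂0 z hz
  let u : Aˣ := Units.map ((algebraMap F A : F →+* A) : F →* A) (Units.mk0 z hz)
  have hu : (u : A) = algebraMap F A z := rfl
  have hcen : ∀ g : Aˣ, u * g = g * u := by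
    intro g
    apply Units.ext
    rw [Units.val_mul, Units.val_mul, hu]
    exact Algebra.commutes z (g : A)
  have := hπ.nontrivial
  obtain ⟨v, hv⟩ := exists_ne (0 : V)
  let K : Subgroup Aˣ :=
    { carrier := {g | π g v = v}
      mul_mem' := by
        intro g h hg hh
        change π (g * h) v = v
        rw [map_mul, Module.End.mul_apply]
        have hh' : π h v = v := hh
        have hg' : π g v = v := hg
        rw [hh', hg']
      one_mem' := by
        change π 1 v = v
        rw [map_one]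
        rfl
      inv_mem' := by
        intro g hg
        change π g⁻¹ v = v
        have hg' : π g v = v := hg
        calc π g⁻¹ v = π g⁻¹ (π g v) := by rw [hg']
          _ = (π g⁻¹ * π g) v := rfl
          _ = v := by
            rw [← map_mul, inv_mul_cancel, map_one]
            rfl }
  have hK : IsOpen (K : Set Aˣ) := hπ.smooth v
  have := hπ.admissible K hK
  have hvK : v ∈ fixed π K := fun g hg => hg
  have hstab : ∀ x ∈ fixed π K, π u x ∈ fixed π K := by
    intro x hx g hg
    have h1 : π g (π u x) = (π g * π u) x := rfl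
    rw [h1, ← map_mul, ← hcen, map_mul, Module.End.mul_apply, hx g hg]
  let f : Module.End ℂ (fixed π K) := (π u).restrict hstab
  have : Nontrivial (fixed π K) :=
    ⟨⟨⟨v, hvK⟩, 0, fun h => hv (congrArg Subtype.val h)⟩⟩
  obtain ⟨c, hc⟩ := Module.End.exists_eigenvalue f
  obtain ⟨w, hw⟩ := hc.exists_hasEigenvector
  have hw1 : π u (w : V) = c • (w : V) := congrArg Subtype.val hw.apply_eq_smul
  have hw0 : (w : V) ≠ 0 := fun h => hw.2 (Subtype.ext h)
  have htop : Module.End.eigenspace (π u) c = ⊤ := by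
    rcases hπ.irreducible (Module.End.eigenspace (π u) c) (by
      intro g x hx
      rw [Module.End.mem_eigenspace_iff] at hx ⊢
      have h1 : π u (π g x) = (π u * π g) x := rfl
      rw [h1, ← map_mul, hcen, map_mul, Module.End.mul_apply, hx, map_smul]) with h | h
    · exfalso
      apply hw0
      have h2 : (w : V) ∈ Module.End.eigenspace (π u) c := Module.End.mem_eigenspace_iff.2 hw1
      rw [h] at h2
      exact (Submodule.mem_bot ℂ).1 h2
    · exact h
  have hall : ∀ x, π u x = c • x := fun x =>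
    Module.End.mem_eigenspace_iff.1 (by rw [htop]; exact Submodule.mem_top)
  have key : ∀ (χ : E →*₀ ℂ) (ℓ : Module.Dual ℂ V), IsPeriod ι χ π ℓ → ℓ ≠ 0 →
      χ (algebraMap F E z) ^ k = c := by
    intro χ ℓ hℓ h0
    obtain ⟨x, hx⟩ : ∃ x, ℓ x ≠ 0 := by
      by_contra h
      push Not at h
      exact h0 (LinearMap.ext h)
    have hmem : (u : A) ∈ Cent ι := by
      rw [mem_Cent_iff]
      intro e
      rw [hu]
      exact (Algebra.commutes z (ι e)).symm
    have h1 := hℓ u hmem x
    rw [hall, map_smul, smul_eq_mul] at h1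
    have h2 : (⟨(u : A), hmem⟩ : Cent ι) = algebraMap F (Cent ι) z := rfl
    rw [h2, (hNNM F E A ι k δE a hD).2.1 z, map_pow] at h1
    exact (mul_right_cancel₀ hx h1).symm
  rw [key χ₁ ℓ₁ hℓ₁ hℓ₁0, key χ₂ ℓ₂ hℓ₂ hℓ₂0]

end Pool.Agent.VPer
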