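import Pool.Agent.Work.MP_037d19_vp.Interface

/-!
# SNF: the elementary divisor form over the valuation ring of a division ring
-/

namespace Pool.Agent.VPer
namespace BSNF

variable {D : Type} [DivisionRing D] {N : D → ℝ}

theorem N_zero (h : DVal N) : N 0 = 0 := (h.zero_iff 0).2 rfl

theorem N_one (h : DVal N) : N 1 = 1 := by
  have h1 : N 1 ≠ 0 := fun h0 => one_ne_zero ((h.zero_iff 1).1 h0)
  have h2 := h.mul 1 1
  rw [mul_one] at h2
  have h4 : N 1 * (N 1 - 1) = 0 := by linarith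
  rcases mul_eq_zero.1 h4 with h3 | h3
  · exact absurd h3 h1
  · linarith

theorem N_neg (h : DVal N) (x : D) : N (-x) = N x := by
  have h1 : N (-1) * N (-1) = 1 := by rw [← h.mul, neg_mul_neg, one_mul, N_one h]
  have h2 : 0 ≤ N (-1) := h.nonneg _
  have h3 : N (-1) = 1 := by nlinarith
  have h4 : -x = (-1) * x := by simp
  rw [h4, h.mul, h3, one_mul]

theorem N_sum {ι : Type} (h : DVal N) (s : Finset ι) (f : ι → D) (hf : ∀ i ∈ s, N (f i) ≤ 1) :
    N (∑ i ∈ s, f i) ≤ 1 := by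
  classical
  induction s using Finset.induction_on with
  | empty => rw [Finset.sum_empty, N_zero h]; norm_num
  | insert a s ha ih =>
    rw [Finset.sum_insert ha]
    refine (h.add _ _).trans (max_le (hf a (Finset.mem_insert_self a s)) (ih fun i hi => ?_))
    exact hf i (Finset.mem_insert_of_mem hi)

theorem int_mul (h : DVal N) {m : ℕ} {A B : Matrix (Fin m) (Fin m) D} (hA : IntM N A)
    (hB : IntM N B) : IntM N (A * B) := by
  intro i j
  rw [Matrix.mul_apply]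
  refine N_sum h _ _ fun k _ => ?_
  rw [h.mul]
  exact mul_le_one₀ (hA i k) (h.nonneg _) (hB k j)

theorem int_one (h : DVal N) {m : ℕ} : IntM N (1 : Matrix (Fin m) (Fin m) D) := by
  intro i j
  rw [Matrix.one_apply]
  split_ifs
  · rw [N_one h]
  · rw [N_zero h]; norm_num

/-- integral matrices with integral inverse -/
def GI (N : D → ℝ) {m : ℕ} (P : Matrix (Fin m) (Fin m) D) : Prop :=
  ∃ P' : Matrix (Fin m) (Fin m) D, IntM N P ∧ IntM N P' ∧ P * P' = 1 ∧ P' * P = 1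

theorem GI_one (h : DVal N) {m : ℕ} : GI N (1 : Matrix (Fin m) (Fin m) D) :=
  ⟨1, int_one h, int_one h, one_mul 1, one_mul 1⟩

theorem GI_mul (h : DVal N) {m : ℕ} {P Q : Matrix (Fin m) (Fin m) D} (hP : GI N P)
    (hQ : GI N Q) : GI N (P * Q) := by
  obtain ⟨P', a1, a2, a3, a4⟩ := hP
  obtain ⟨Q', b1, b2, b3, b4⟩ := hQ
  refine ⟨Q' * P', int_mul h a1 b1, int_mul h b2 a2, ?_, ?_⟩
  · rw [mul_assoc, ← mul_assoc Q, b3, one_mul, a3]
  · rw [mul_assoc, ← mul_assoc P', a4, one_mul, b4]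

/-- the block matrix with corner `a`, row `r`, column `c` -/
def blk {m : ℕ} (a : D) (r c : Fin m → D) (M : Matrix (Fin m) (Fin m) D) :
    Matrix (Fin (m + 1)) (Fin (m + 1)) D :=
  Matrix.of (Fin.cons (Fin.cons a r) fun i => Fin.cons (c i) (M i))

@[simp] theorem blk_00 {m : ℕ} (a : D) (r c : Fin m → D) (M : Matrix (Fin m) (Fin m) D) :
    blk a r c M 0 0 = a := rfl

@[simp] theorem blk_0s {m : ℕ} (a : D) (r c : Fin m → D) (M : Matrix (Fin m) (Fin m) D)
    (j : Fin m) : blk a r c M 0 j.succ = r j := rfl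

@[simp] theorem blk_s0 {m : ℕ} (a : D) (r c : Fin m → D) (M : Matrix (Fin m) (Fin m) D)
    (i : Fin m) : blk a r c M i.succ 0 = c i := rfl

@[simp] theorem blk_ss {m : ℕ} (a : D) (r c : Fin m → D) (M : Matrix (Fin m) (Fin m) D)
    (i j : Fin m) : blk a r c M i.succ j.succ = M i j := rfl

theorem blk_mul {m : ℕ} (a : D) (r c : Fin m → D) (M : Matrix (Fin m) (Fin m) D)
    (a' : D) (r' c' : Fin m → D) (M' : Matrix (Fin m) (Fin m) D) :
    blk a r c M * blk a' r' c' M' =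
      blk (a * a' + ∑ k, r k * c' k) (fun j => a * r' j + ∑ k, r k * M' k j)
        (fun i => c i * a' + ∑ k, M i k * c' k)
        (Matrix.of fun i j => c i * r' j + ∑ k, M i k * M' k j) := by
  ext i j
  refine Fin.cases ?_ (fun i => ?_) i <;> refine Fin.cases ?_ (fun j => ?_) j <;>
    simp [Matrix.mul_apply, Fin.sum_univ_succ]

theorem blk_one {m : ℕ} : blk (1 : D) 0 0 (1 : Matrix (Fin m) (Fin m) D) = 1 := by
  ext i j
  refine Fin.cases ?_ (fun i => ?_) i <;> refine Fin.cases ?_ (fun j => ?_) j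
  · simp
  · simp [Matrix.one_apply, (Fin.succ_ne_zero j).symm]
  · simp [Matrix.one_apply, Fin.succ_ne_zero i]
  · simp [Matrix.one_apply]

theorem blk_diag {m : ℕ} (a : D) (b : Fin m → D) :
    blk a 0 0 (Matrix.diagonal b) = Matrix.diagonal (Fin.cons a b : Fin (m + 1) → D) := by
  ext i j
  refine Fin.cases ?_ (fun i => ?_) i <;> refine Fin.cases ?_ (fun j => ?_) j
  · simp
  · simp [Matrix.diagonal_apply, (Fin.succ_ne_zero j).symm]
  · simp [Matrix.diagonal_apply, Fin.succ_ne_zero i]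
  · simp [Matrix.diagonal_apply]

theorem int_blk {m : ℕ} {a : D} {r c : Fin m → D} {M : Matrix (Fin m) (Fin m) D}
    (ha : N a ≤ 1) (hr : ∀ j, N (r j) ≤ 1) (hc : ∀ i, N (c i) ≤ 1) (hM : IntM N M) :
    IntM N (blk a r c M) := by
  intro i j
  refine Fin.cases ?_ (fun i => ?_) i <;> refine Fin.cases ?_ (fun j => ?_) j
  · exact ha
  · exact hr _
  · exact hc _
  · exact hM _ _

theorem GI_blk (h : DVal N) {m : ℕ} {P : Matrix (Fin m) (Fin m) D} (hP : GI N P) :
    GI N (blk 1 0 0 P) := by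
  obtain ⟨P', a1, a2, a3, a4⟩ := hP
  have h0 : ∀ j : Fin m, N ((0 : Fin m → D) j) ≤ 1 := fun j => by
    rw [Pi.zero_apply, N_zero h]; norm_num
  refine ⟨blk 1 0 0 P', int_blk (N_one h).le h0 h0 a1, int_blk (N_one h).le h0 h0 a2, ?_, ?_⟩
  · rw [← blk_one, ← a3, blk_mul]
    ext i j
    refine Fin.cases ?_ (fun i => ?_) i <;> refine Fin.cases ?_ (fun j => ?_) j <;>
      simp [Matrix.mul_apply]
  · rw [← blk_one, ← a4, blk_mul]
    ext i j
    refine Fin.cases ?_ (fun i => ?_) i <;> refine Fin.cases ?_ (fun j => ?_) j <;>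
      simp [Matrix.mul_apply]

theorem GI_col (h : DVal N) {m : ℕ} {c : Fin m → D} (hc : ∀ i, N (c i) ≤ 1) :
    GI N (blk 1 0 c (1 : Matrix (Fin m) (Fin m) D)) := by
  have h0 : ∀ j : Fin m, N ((0 : Fin m → D) j) ≤ 1 := fun j => by
    rw [Pi.zero_apply, N_zero h]; norm_num
  refine ⟨blk 1 0 (fun i => - c i) 1, int_blk (N_one h).le h0 hc (int_one h),
    int_blk (N_one h).le h0 (fun i => by rw [N_neg h]; exact hc i) (int_one h), ?_, ?_⟩
  · rw [← blk_one, blk_mul]
    ext i j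
    refine Fin.cases ?_ (fun i => ?_) i <;> refine Fin.cases ?_ (fun j => ?_) j <;>
      simp [Matrix.one_apply]
  · rw [← blk_one, blk_mul]
    ext i j
    refine Fin.cases ?_ (fun i => ?_) i <;> refine Fin.cases ?_ (fun j => ?_) j <;>
      simp [Matrix.one_apply]

theorem GI_row (h : DVal N) {m : ℕ} {r : Fin m → D} (hr : ∀ i, N (r i) ≤ 1) :
    GI N (blk 1 r 0 (1 : Matrix (Fin m) (Fin m) D)) := by
  have h0 : ∀ j : Fin m, N ((0 : Fin m → D) j) ≤ 1 := fun j => by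
    rw [Pi.zero_apply, N_zero h]; norm_num
  refine ⟨blk 1 (fun i => - r i) 0 1, int_blk (N_one h).le hr h0 (int_one h),
    int_blk (N_one h).le (fun i => by rw [N_neg h]; exact hr i) h0 (int_one h), ?_, ?_⟩
  · rw [← blk_one, blk_mul]
    ext i j
    refine Fin.cases ?_ (fun i => ?_) i <;> refine Fin.cases ?_ (fun j => ?_) j <;>
      simp [Matrix.one_apply]
  · rw [← blk_one, blk_mul]
    ext i j
    refine Fin.cases ?_ (fun i => ?_) i <;> refine Fin.cases ?_ (fun j => ?_) j <;>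
      simp [Matrix.one_apply]

/-- permutation matrices -/
def pm (D : Type) [DivisionRing D] {m : ℕ} (σ : Equiv.Perm (Fin m)) :
    Matrix (Fin m) (Fin m) D :=
  Matrix.of fun i j => if σ i = j then 1 else 0

theorem pm_mul {m : ℕ} (σ : Equiv.Perm (Fin m)) (M : Matrix (Fin m) (Fin m) D) :
    pm D σ * M = Matrix.of fun i j => M (σ i) j := by
  ext i j
  simp [pm, Matrix.mul_apply]

theorem mul_pm {m : ℕ} (σ : Equiv.Perm (Fin m)) (M : Matrix (Fin m) (Fin m) D) :
    M * pm D σ = Matrix.of fun i j => M i (σ.symm j) := by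
  ext i j
  simp only [pm, Matrix.mul_apply, Matrix.of_apply, mul_ite, mul_one, mul_zero]
  rw [Finset.sum_eq_single (σ.symm j)]
  · simp
  · intro k _ hk
    rw [if_neg]
    intro h
    exact hk (by rw [← h, Equiv.symm_apply_apply])
  · intro h
    exact absurd (Finset.mem_univ _) h

theorem GI_pm (h : DVal N) {m : ℕ} (σ : Equiv.Perm (Fin m)) : GI N (pm D σ) := by
  have hint : ∀ τ : Equiv.Perm (Fin m), IntM N (pm D τ) := by
    intro τ i j
    simp only [pm, Matrix.of_apply]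
    split_ifs
    · rw [N_one h]
    · rw [N_zero h]; norm_num
  have hmul : ∀ τ : Equiv.Perm (Fin m), pm D τ * pm D τ.symm = 1 := by
    intro τ
    rw [pm_mul]
    ext i j
    simp [pm, Matrix.one_apply]
  refine ⟨pm D σ.symm, hint _, hint _, hmul σ, ?_⟩
  have := hmul σ.symm
  rwa [Equiv.symm_symm] at this

theorem snf (h : DVal N) : ∀ (m : ℕ) (X : Matrix (Fin m) (Fin m) D),
    ∃ (P Q : Matrix (Fin m) (Fin m) D) (a : Fin m → D), GI N P ∧ GI N Q ∧
      X = P * Matrix.diagonal a * Q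
  | 0, X => ⟨1, 1, 0, GI_one h, GI_one h, by ext i; exact i.elim0⟩
  | m + 1, X => by
    classical
    by_cases hX : X = 0
    · refine ⟨1, 1, 0, GI_one h, GI_one h, ?_⟩
      rw [hX]
      ext i j
      simp
    obtain ⟨p, hp⟩ := Finite.exists_max fun p : Fin (m + 1) × Fin (m + 1) => N (X p.1 p.2)
    obtain ⟨i₀, j₀⟩ := p
    set Y : Matrix (Fin (m + 1)) (Fin (m + 1)) D :=
      Matrix.of fun i j => X (Equiv.swap 0 i₀ i) (Equiv.swap 0 j₀ j) with hY
    have hY0 : Y 0 0 = X i₀ j₀ := by simp [hY]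
    have hmax : ∀ i j, N (Y i j) ≤ N (Y 0 0) := by
      intro i j
      rw [hY0]
      exact hp (Equiv.swap 0 i₀ i, Equiv.swap 0 j₀ j)
    have hne : Y 0 0 ≠ 0 := by
      intro h0
      apply hX
      ext i j
      have h1 := hp (i, j)
      simp only at h1
      rw [← hY0, h0, N_zero h] at h1
      exact (h.zero_iff _).1 (le_antisymm h1 (h.nonneg _))
    have hXY : X = pm D (Equiv.swap 0 i₀) * Y * pm D (Equiv.swap 0 j₀) := by
      rw [pm_mul, mul_pm]
      ext i j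
      simp [hY]
    have hpos : 0 < N (Y 0 0) := lt_of_le_of_ne (h.nonneg _) fun h0 => hne ((h.zero_iff _).1 h0.symm)
    have hinv : N (Y 0 0) * N (Y 0 0)⁻¹ = 1 := by rw [← h.mul, mul_inv_cancel₀ hne, N_one h]
    set c : Fin m → D := fun i => Y i.succ 0 * (Y 0 0)⁻¹ with hc
    set d : Fin m → D := fun j => (Y 0 0)⁻¹ * Y 0 j.succ with hd
    have hcN : ∀ i, N (c i) ≤ 1 := by
      intro i
      rw [hc]
      simp only
      rw [h.mul]
      calc N (Y i.succ 0) * N (Y 0 0)⁻¹ ≤ N (Y 0 0) * N (Y 0 0)⁻¹ :=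
            mul_le_mul_of_nonneg_right (hmax _ _) (h.nonneg _)
        _ = 1 := hinv
    have hdN : ∀ i, N (d i) ≤ 1 := by
      intro i
      rw [hd]
      simp only
      rw [h.mul]
      calc N (Y 0 0)⁻¹ * N (Y 0 i.succ) ≤ N (Y 0 0)⁻¹ * N (Y 0 0) :=
            mul_le_mul_of_nonneg_left (hmax _ _) (h.nonneg _)
        _ = 1 := by rw [mul_comm]; exact hinv
    set X' : Matrix (Fin m) (Fin m) D := Matrix.of fun i j =>
      Y i.succ j.succ - c i * Y 0 j.succ with hX'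
    obtain ⟨P₁, Q₁, a, hP₁, hQ₁, h1⟩ := snf h m X'
    have hYe : Y = blk 1 0 c 1 * blk (Y 0 0) 0 0 X' * blk 1 d 0 1 := by
      rw [blk_mul, blk_mul]
      ext i j
      refine Fin.cases ?_ (fun i => ?_) i <;> refine Fin.cases ?_ (fun j => ?_) j
      · simp
      · simp [hd, hne]
      · simp [hc, hne]
      · simp [hc, hd, hX', hne, Matrix.one_apply, mul_assoc]
    have hmid : blk (Y 0 0) 0 0 X' =
        blk 1 0 0 P₁ * Matrix.diagonal (Fin.cons (Y 0 0) a : Fin (m + 1) → D) * blk 1 0 0 Q₁ := by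
      rw [← blk_diag, blk_mul, blk_mul, h1]
      ext i j
      refine Fin.cases ?_ (fun i => ?_) i <;> refine Fin.cases ?_ (fun j => ?_) j <;>
        simp [Matrix.mul_apply]
    refine ⟨pm D (Equiv.swap 0 i₀) * (blk 1 0 c 1 * blk 1 0 0 P₁),
      blk 1 0 0 Q₁ * blk 1 d 0 1 * pm D (Equiv.swap 0 j₀), Fin.cons (Y 0 0) a,
      GI_mul h (GI_pm h _) (GI_mul h (GI_col h hcN) (GI_blk h hP₁)),
      GI_mul h (GI_mul h (GI_blk h hQ₁) (GI_row h hdN)) (GI_pm h _), ?_⟩
    calc X = pm D (Equiv.swap 0 i₀) * Y * pm D (Equiv.swap 0 j₀) := hXY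
      _ = pm D (Equiv.swap 0 i₀) * (blk 1 0 c 1 * (blk 1 0 0 P₁ *
          Matrix.diagonal (Fin.cons (Y 0 0) a : Fin (m + 1) → D) * blk 1 0 0 Q₁) * blk 1 d 0 1) *
          pm D (Equiv.swap 0 j₀) := by rw [← hmid, ← hYe]
      _ = _ := by simp only [mul_assoc]

end BSNF

/-- SNF -/
theorem stmt_SNF : Stmt_SNF := by
  intro D _ N h m X
  obtain ⟨P, Q, a, ⟨P', a1, a2, a3, a4⟩, ⟨Q', b1, b2, b3, b4⟩, e⟩ := BSNF.snf h m X
  exact ⟨P, P', Q, Q', a, a1, a2, b1, b2, a3, a4, b3, b4, e⟩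

end Pool.Agent.VPer
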