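import Pool.Agent.Work.MP_037d19_vp.Interface2

/-!
# Vanishing of linear periods: block TGT1
-/

namespace Pool.Agent.VPer

open Pool.Agent.LPer
open scoped Polynomial Topology
open Module (finrank)

open KeyA in
theorem stmt_TGT1 (hKEYA : Stmt_KEYA) (hPOLY : Stmt_POLY) (hW : Stmt_W) (hNRB : Stmt_NRB)
    (hLAG1 : Stmt_LAG1) : Stmt_TGT1 := by
  intro F E A D _ _ _ _ _ _ _ _ _ _ _ _ _ _ N ι k δE a m e hN hD ha hm hult hj hmk hdec g w hw
  have hk0 : k ≠ 0 := by
    intro h
    have h1 : 0 < finrank F A := Module.finrank_pos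
    rw [hD.rankA, h] at h1
    simp at h1
  have hkF : (k : F) ≠ 0 := Nat.cast_ne_zero.2 hk0
  have hm0 : m ≠ 0 := by
    rintro rfl
    simp at hm
  have hmF : (m : F) ≠ 0 := Nat.cast_ne_zero.2 hm0
  have h2F : (2 : F) ≠ 0 := two_ne_zero
  have ha0 : a ≠ 0 := by
    intro h
    apply hD.nsq 0
    rw [h]
    simp
  have hkn : ‖(k : F)‖ = 1 := hj k (Nat.pos_of_ne_zero hk0) (by omega)
  have h2kn : ‖(2 * k : F)‖ = 1 := by
    have h1 := hj (2 * k) (by omega) le_rfl
    push_cast at h1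
    exact h1
  have hmn : ‖(m : F)‖ = 1 := hj m (Nat.pos_of_ne_zero hm0) hmk
  have hnE : ∀ x : F, ‖algebraMap F E x‖ = ‖x‖ := fun x => norm_algebraMap' E x
  have hultF : ∀ x y : F, ‖x + y‖ ≤ max ‖x‖ ‖y‖ := by
    intro x y
    rw [← hnE (x + y), ← hnE x, ← hnE y, map_add]
    exact hult _ _
  have hδ1 : ‖δE‖ ≤ 1 := by
    have h1 : ‖δE‖ ^ 2 ≤ 1 := by
      rw [← norm_pow, hD.sq, hnE]
      exact ha
    exact (pow_le_one_iff_of_nonneg (norm_nonneg _) two_ne_zero).1 h1
  have hδ00 : δE ≠ 0 := by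
    intro h
    apply ha0
    apply FaithfulSMul.algebraMap_injective F E
    rw [← hD.sq, h, map_zero]
    simp
  -- the trace of `δ` is zero
  have hδδ : ι δE * ι δE = algebraMap F A a := by
    rw [← map_mul, ← pow_two, hD.sq, AlgHom.commutes]
  have htδ : trA F (ι δE) = 0 := by
    obtain ⟨w, hw⟩ := hW F E A δE a (ι δE) hD.rankE hD.sq hD.nsq hδδ
    have h1 : trA F ((w : A) * ι δE * ((w⁻¹ : Aˣ) : A)) = trA F (ι δE) := trA_conj w _
    have h2 : (w : A) * ι δE * ((w⁻¹ : Aˣ) : A) = (-1 : F) • ι δE := by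
      rw [hw, neg_mul, mul_assoc, Units.mul_inv, mul_one, neg_smul, one_smul]
    rw [h2, trA_smul] at h1
    have h3 : (2 : F) * trA F (ι δE) = 0 := by linear_combination -h1
    exact (mul_eq_zero.1 h3).resolve_left h2F
  obtain ⟨u, v, hu, hv, hw'⟩ := hdec w hw
  obtain ⟨y₀, z, hy₀, hR₀, hz, hty, hty'⟩ := hKEYA F E A D N ι k δE a m e hN hD ha hm g
  -- integrality of the trace of `z`
  obtain ⟨Q₀, hQd₀, hQ0₀, hQ1₀, hQe₀⟩ := hPOLY F E A ι k δE a hD ⟨y₀, hy₀⟩
  have hint : ∀ t : F, ‖t‖ ≤ 1 → ‖Q₀.eval (algebraMap F E t)‖ ≤ 1 := by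
    intro t ht
    rw [hQe₀]
    apply hNRB F E A D N ι k δE a m e hN hD g
    have h1 : ((g⁻¹ : Aˣ) : A) * ((1 + t • (⟨y₀, hy₀⟩ : Cent ι) : Cent ι) : A) * g =
        1 + t • (((g⁻¹ : Aˣ) : A) * y₀ * g) := by
      change ((g⁻¹ : Aˣ) : A) * (1 + t • y₀) * g = _
      rw [mul_add, add_mul, mul_one, Units.inv_mul, mul_smul_comm, smul_mul_assoc]
    rw [h1]
    intro i j
    rw [map_add, map_one, map_smul, Matrix.add_apply, Matrix.smul_apply, Matrix.one_apply]
    refine (hN.val.add _ _).trans (max_le ?_ ?_)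
    · split_ifs
      · have h2 := hN.alg 1
        rw [map_one, norm_one] at h2
        exact h2.le
      · rw [(hN.val.zero_iff 0).2 rfl]
        exact zero_le_one
    · rw [Algebra.smul_def, hN.val.mul, hN.alg]
      calc ‖t‖ * N (e (((g⁻¹ : Aˣ) : A) * y₀ * g) i j) ≤ 1 * 1 :=
            mul_le_mul ht (hR₀ i j) (hN.val.nonneg _) zero_le_one
        _ = 1 := one_mul 1
  have hc1 : ‖Q₀.coeff 1‖ ≤ 1 :=
    hLAG1 F E hult k (fun j h1 h2 => hj j h1 (by omega)) Q₀ hQd₀ hint 1
  have hz1 : ‖trA F z‖ ≤ 1 := by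
    have e1 : (m : E) * algebraMap F E (trA F (ι δE * y₀)) = 2 * δE ^ 2 * (2 * (k : E)) ^ 2 := by
      have h1 := congrArg (algebraMap F E) hty
      simp only [map_mul, map_natCast, map_ofNat, map_pow] at h1
      rw [← hD.sq] at h1
      exact h1
    have e2 : algebraMap F E (trA F y₀) = 2 * algebraMap F E (trA F z) := by
      rw [hty', map_mul, map_ofNat]
    have e3 : 4 * (k : E) * δE * Q₀.coeff 1 =
        δE * algebraMap F E (trA F y₀) + algebraMap F E (trA F (ι δE * y₀)) := hQ1₀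
    have h2E : (2 : E) ≠ 0 := by
      have h := (map_ne_zero (algebraMap F E)).2 h2F
      rwa [map_ofNat] at h
    have h1 : algebraMap F E ((m : F) * trA F z) =
        algebraMap F E (2 * k * m) * Q₀.coeff 1 + -(algebraMap F E ((2 * k) ^ 2) * δE) := by
      apply mul_left_cancel₀ (mul_ne_zero h2E hδ00)
      simp only [map_mul, map_natCast, map_ofNat, map_pow]
      rw [e2] at e3
      linear_combination (-(m : E)) * e3 - e1
    have h2 : ‖algebraMap F E ((m : F) * trA F z)‖ ≤ 1 := by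
      rw [h1]
      refine (hult _ _).trans (max_le ?_ ?_)
      · rw [norm_mul, hnE, norm_mul, h2kn, hmn, one_mul, one_mul]
        exact hc1
      · rw [norm_neg, norm_mul, hnE, norm_pow, h2kn, one_pow, one_mul]
        exact hδ1
    rw [hnE, norm_mul, hmn, one_mul] at h2
    exact h2
  set μ : F := v * (m / (2 * k)) with hμ
  set lam : F := (1 / k) * (u - μ * trA F z * (1 / (2 * k))) with hlam
  have hμ1 : ‖μ‖ ≤ 1 := by
    rw [hμ, norm_mul, norm_div, hmn, h2kn, div_one, mul_one]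
    exact hv
  have hlam1 : ‖lam‖ ≤ 1 := by
    rw [hlam, norm_mul, norm_div, norm_one, hkn, div_one, one_mul, sub_eq_add_neg]
    refine (hultF _ _).trans (max_le hu ?_)
    rw [norm_neg, norm_mul, norm_mul, norm_div, norm_one, h2kn, div_one, mul_one]
    calc ‖μ‖ * ‖trA F z‖ ≤ 1 * 1 := mul_le_mul hμ1 hz1 (norm_nonneg _) zero_le_one
      _ = 1 := one_mul 1
  -- the element
  set y : Cent ι := algebraMap F (Cent ι) lam + μ • ⟨y₀, hy₀⟩ with hy
  have hyc : (y : A) = algebraMap F A lam + μ • y₀ := rfl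
  obtain ⟨Q, hQd, hQ0, hQ1, hQe⟩ := hPOLY F E A ι k δE a hD y
  refine ⟨y, Q, ?_, hQd, hQ0, ?_, hQe⟩
  · have h1 : ((g⁻¹ : Aˣ) : A) * (y : A) * g =
        algebraMap F A lam + μ • (((g⁻¹ : Aˣ) : A) * y₀ * g) := by
      rw [hyc, mul_add, add_mul, ← Algebra.commutes lam ((g⁻¹ : Aˣ) : A), mul_assoc (algebraMap F A lam),
        Units.inv_mul, mul_one, mul_smul_comm, smul_mul_assoc]
    rw [h1]
    intro i j
    rw [map_add, map_smul, AlgEquiv.commutes, Matrix.add_apply, Matrix.smul_apply]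
    refine (hN.val.add _ _).trans (max_le ?_ ?_)
    · rw [Matrix.algebraMap_matrix_apply]
      split_ifs
      · rw [hN.alg]
        exact hlam1
      · rw [(hN.val.zero_iff 0).2 rfl]
        exact zero_le_one
    · rw [Algebra.smul_def, hN.val.mul, hN.alg]
      calc ‖μ‖ * N (e (((g⁻¹ : Aˣ) : A) * y₀ * g) i j) ≤ 1 * 1 :=
            mul_le_mul hμ1 (hR₀ i j) (hN.val.nonneg _) zero_le_one
        _ = 1 := one_mul 1
  · have h1 : trA F (y : A) = lam * (2 * k) ^ 2 + μ * (2 * trA F z) := by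
      rw [hyc, trA_add, trA_smul, hty', Algebra.algebraMap_eq_smul_one, trA_smul, trA_one,
        hD.rankA]
      push_cast
      ring
    have h2 : trA F (ι δE * (y : A)) = μ * trA F (ι δE * y₀) := by
      rw [hyc, mul_add, mul_smul_comm, trA_add, trA_smul, ← Algebra.commutes, ← Algebra.smul_def,
        trA_smul, htδ, mul_zero, zero_add]
    have h3 : (m : F) * trA F (ι δE * (y : A)) = μ * (2 * a * (2 * k) ^ 2) := by
      rw [h2, ← hty]
      ring
    have hδ0 : δE ≠ 0 := by
      intro h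
      apply ha0
      apply FaithfulSMul.algebraMap_injective F E
      rw [← hD.sq, h, map_zero]
      simp
    have hkE : (k : E) ≠ 0 := by
      have h := (map_ne_zero (algebraMap F E)).2 hkF
      rwa [map_natCast] at h
    have hmE : (m : E) ≠ 0 := by
      have h := (map_ne_zero (algebraMap F E)).2 hmF
      rwa [map_natCast] at h
    have h2E : (2 : E) ≠ 0 := by
      have h := (map_ne_zero (algebraMap F E)).2 h2F
      rwa [map_ofNat] at h
    -- multiply by `m`
    have h4 : (m : E) * (4 * (k : E) * δE * Q.coeff 1) = (m : E) * (4 * (k : E) * δE * w) := by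
      rw [hQ1]
      have h5 : (m : E) * algebraMap F E (trA F (ι δE * (y : A))) =
          algebraMap F E (μ * (2 * a * (2 * k) ^ 2)) := by
        rw [← h3, map_mul, map_natCast]
      have h6 : (k : F) * lam = u - μ * trA F z * (1 / (2 * k)) := by
        rw [hlam]
        field_simp
      have h7 : (2 * k : F) * μ = v * m := by
        rw [hμ]
        field_simp
      have h8 : (2 * (k : F)) * (k * lam) = 2 * k * u - μ * trA F z := by
        rw [h6]
        field_simp
      have h9 : trA F (y : A) = 4 * k * u := by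
        rw [h1]
        linear_combination 2 * h8
      have h10 : μ * (2 * a * (2 * k) ^ 2) = 4 * k * a * (v * m) := by
        linear_combination (4 * k * a) * h7
      rw [mul_add, h5, h9, h10, hw']
      simp only [map_mul, map_natCast, map_ofNat]
      rw [← hD.sq]
      ring
    have h11 : (m : E) * (4 * (k : E) * δE) ≠ 0 := by
      have h4E : (4 : E) ≠ 0 := by
        have : (4 : E) = 2 * 2 := by norm_num
        rw [this]
        exact mul_ne_zero h2E h2E
      exact mul_ne_zero hmE (mul_ne_zero (mul_ne_zero h4E hkE) hδ0)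
    apply mul_left_cancel₀ h11
    linear_combination h4

end Pool.Agent.VPer
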