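import Pool.Agent.Work.MP_037d19_vp.Interface

/-! # TRM: trace forms on matrices with one column -/

namespace Pool.Agent.VPer

open Pool.Agent.LPer
open scoped Polynomial Topology
open Module (finrank)

theorem stmt_TRM : Stmt_TRM := by
  intro F D _ _ _ m T hT M i δ hM hMi
  have hzero : ∀ l, l ≠ i → ∀ x : D, T (Matrix.single l i x) = 0 := by
    intro l hl x
    have h1 : Matrix.single l i x = Matrix.single l i x * Matrix.single i i (1 : D) := by
      rw [Matrix.single_mul_single_same, mul_one]
    rw [h1, hT, Matrix.single_mul_single_of_ne _ _ _ _ (Ne.symm hl), map_zero]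
  have hdiag : ∀ l, T (Matrix.single l l (algebraMap F D δ)) =
      T (Matrix.single i i (algebraMap F D δ)) := by
    intro l
    have h1 : Matrix.single l l (algebraMap F D δ) =
        Matrix.single l i (1 : D) * Matrix.single i l (algebraMap F D δ) := by
      rw [Matrix.single_mul_single_same, one_mul]
    rw [h1, hT, Matrix.single_mul_single_same, mul_one]
  have hM1 : M = ∑ l, Matrix.single l i (M l i) := by
    ext a b
    rw [Matrix.sum_apply]
    by_cases hb : b = i
    · subst hb
      rw [Finset.sum_eq_single a]
      · rw [Matrix.single_apply_same]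
      · intro l _ hl
        rw [Matrix.single_apply_of_row_ne hl]
      · intro h
        exact absurd (Finset.mem_univ a) h
    · rw [hM a b hb, Finset.sum_eq_zero]
      intro l _
      rw [Matrix.single_apply_of_col_ne _ _ (Ne.symm hb)]
  have hTM : T M = T (Matrix.single i i (algebraMap F D δ)) := by
    rw [hM1, map_sum, Finset.sum_eq_single i]
    · rw [hMi]
    · intro l _ hl
      exact hzero l hl _
    · intro h
      exact absurd (Finset.mem_univ i) h
  have hone : δ • (1 : Matrix (Fin m) (Fin m) D) =
      ∑ l, Matrix.single l l (algebraMap F D δ) := by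
    ext a b
    rw [Matrix.sum_apply, Matrix.smul_apply, Matrix.one_apply]
    by_cases hab : a = b
    · subst hab
      rw [Finset.sum_eq_single a]
      · rw [if_pos rfl, Matrix.single_apply_same, Algebra.smul_def, mul_one]
      · intro l _ hl
        rw [Matrix.single_apply_of_row_ne hl]
      · intro h
        exact absurd (Finset.mem_univ a) h
    · rw [if_neg hab, smul_zero, Finset.sum_eq_zero]
      intro l _
      by_cases hl : l = a
      · subst hl
        rw [Matrix.single_apply_of_col_ne _ _ hab]
      · rw [Matrix.single_apply_of_row_ne hl]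
  have h2 : δ * T 1 = ∑ l : Fin m, T (Matrix.single l l (algebraMap F D δ)) := by
    rw [← map_sum, ← hone, map_smul, smul_eq_mul]
  rw [h2, hTM]
  simp only [hdiag]
  rw [Finset.sum_const, Finset.card_univ, Fintype.card_fin, nsmul_eq_mul]

end Pool.Agent.VPer
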