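import Pool.Agent.Work.MP_037d19_vp.Interface3

namespace Pool.Agent.VPer

open Pool.Agent.LPer
open scoped Topology
open Module (finrank)

theorem stmt_FA : Stmt_FA := by
  intro F E _ _ _ _ r z₀ hr hz0 hz1
  classical
  have hzpos : 0 < ‖z₀‖ := norm_pos_iff.mpr hz0
  have hcomp : IsCompact {x : E | ‖z₀‖ ≤ ‖x‖ ∧ ‖x‖ ≤ 1} := by
    refine (isCompact_closedBall (0 : E) 1).of_isClosed_subset ?_ ?_
    · exact (isClosed_le continuous_const continuous_norm).inter
        (isClosed_le continuous_norm continuous_const)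
    · intro x hx
      rw [mem_closedBall_zero_iff]
      exact hx.2
  obtain ⟨T, hT1, hT2⟩ := hcomp.elim_nhds_subcover (fun e => {x : E | ‖x / e - 1‖ < r}) (by
    intro e he
    have he0 : e ≠ 0 := by
      intro h
      have h1 := he.1
      rw [h, norm_zero] at h1
      linarith
    have hc : Continuous fun x : E => ‖x / e - 1‖ := by fun_prop
    refine (hc.tendsto e).eventually (gt_mem_nhds ?_)
    rw [div_self he0, sub_self, norm_zero]
    exact hr)
  refine ⟨T, ?_, ?_⟩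
  · intro e he h
    have h1 := (hT1 e he).1
    rw [h, norm_zero] at h1
    linarith
  · intro x hx
    have hxpos : 0 < ‖x‖ := norm_pos_iff.mpr hx
    have hy1 : 1 < ‖z₀‖⁻¹ := (one_lt_inv₀ hzpos).mpr hz1
    obtain ⟨n, hn1, hn2⟩ := exists_mem_Ico_zpow hxpos hy1
    have hzE : ‖algebraMap F E z₀‖ = ‖z₀‖ := norm_algebraMap' E z₀
    have hz0E : algebraMap F E z₀ ≠ 0 := by
      rw [Ne, map_eq_zero]
      exact hz0
    have hpow : ‖algebraMap F E z₀ ^ (-(n + 1))‖ = ‖z₀‖⁻¹ ^ (n + 1) := by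
      rw [norm_zpow, hzE, inv_zpow, zpow_neg]
    have hppos : 0 < ‖z₀‖⁻¹ ^ (n + 1) := by positivity
    have hmem : x / algebraMap F E z₀ ^ (-(n + 1)) ∈ {x : E | ‖z₀‖ ≤ ‖x‖ ∧ ‖x‖ ≤ 1} := by
      refine ⟨?_, ?_⟩
      · rw [norm_div, hpow, le_div_iff₀ hppos]
        calc ‖z₀‖ * ‖z₀‖⁻¹ ^ (n + 1) = ‖z₀‖⁻¹ ^ n := by
              rw [zpow_add₀ (inv_ne_zero hzpos.ne'), zpow_one]
              field_simp
          _ ≤ ‖x‖ := hn1
      · rw [norm_div, hpow, div_le_one₀ hppos]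
        exact hn2.le
    obtain ⟨e, he, hxe⟩ := Set.mem_iUnion₂.mp (hT2 hmem)
    refine ⟨e, he, -(n + 1), ?_⟩
    rw [← div_div]
    exact (le_of_lt hxe)

end Pool.Agent.VPer
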