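import Pool.Agent.Work.MP_037d19_vp.Interface3

namespace Pool.Agent.VPer

open Pool.Agent.LPer
open scoped Topology
open Module (finrank)

theorem stmt_FB (hFA : Stmt_FA) : Stmt_FB := by
  intro F E _ _ _ _ hult r z₀ hr hz0 hz1 x hx
  classical
  have hr' : 0 < min r (1 / 2) := lt_min hr (by norm_num)
  obtain ⟨T, hT0, hT⟩ := hFA F E (min r (1 / 2)) z₀ hr' hz0 hz1
  have hz0' : algebraMap F E z₀ ≠ 0 := by
    rw [Ne, map_eq_zero]
    exact hz0
  have hc : ∀ a : ℕ, ∃ (e : T) (j : ℤ),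
      ‖x ^ a / (algebraMap F E z₀ ^ j * (e : E)) - 1‖ ≤ min r (1 / 2) := by
    intro a
    obtain ⟨e, he, j, hj⟩ := hT (x ^ a) (pow_ne_zero _ hx)
    exact ⟨⟨e, he⟩, j, hj⟩
  choose f j hf using hc
  obtain ⟨a, b, hab, hfab⟩ := Fintype.exists_ne_map_eq_of_card_lt
    (fun i : Fin (T.card + 1) => f i) (by simp)
  have key : ∀ a b : ℕ, a < b → f a = f b → ∃ (M : ℕ) (l : ℤ), 0 < M ∧
      ‖x ^ M / algebraMap F E z₀ ^ l - 1‖ ≤ r := by
    intro a b hlt hfe
    refine ⟨b - a, j b - j a, by omega, ?_⟩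
    have he0 : ((f b : T) : E) ≠ 0 := hT0 _ (f b).2
    have hp := hf b
    have hq := hf a
    rw [hfe] at hq
    set p : E := x ^ b / (algebraMap F E z₀ ^ j b * ((f b : T) : E)) with hpdef
    set q : E := x ^ a / (algebraMap F E z₀ ^ j a * ((f b : T) : E)) with hqdef
    have hq1 : 1 ≤ ‖q‖ := by
      have h1 : ‖q + (1 - q)‖ ≤ max ‖q‖ ‖1 - q‖ := hult _ _
      rw [add_sub_cancel, norm_one, norm_sub_rev] at h1
      rcases le_max_iff.mp h1 with h2 | h2
      · exact h2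
      · have h3 : ‖q - 1‖ ≤ 1 / 2 := hq.trans (min_le_right _ _)
        linarith
    have hq0 : q ≠ 0 := by
      intro h
      rw [h, norm_zero] at hq1
      linarith
    have hpq : ‖p - q‖ ≤ r := by
      have h1 : ‖(p - 1) + (1 - q)‖ ≤ max ‖p - 1‖ ‖1 - q‖ := hult _ _
      have h2 : (p - 1) + (1 - q) = p - q := by ring
      rw [h2, norm_sub_rev 1 q] at h1
      exact h1.trans (max_le (hp.trans (min_le_left _ _)) (hq.trans (min_le_left _ _)))
    have hquot : x ^ (b - a) / algebraMap F E z₀ ^ (j b - j a) = p / q := by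
      rw [hpdef, hqdef, zpow_sub₀ hz0', pow_sub₀ x hx hlt.le]
      have h1 : algebraMap F E z₀ ^ j a ≠ 0 := zpow_ne_zero _ hz0'
      have h2 : algebraMap F E z₀ ^ j b ≠ 0 := zpow_ne_zero _ hz0'
      have h3 : x ^ a ≠ 0 := pow_ne_zero _ hx
      field_simp
    rw [hquot]
    have h4 : p / q - 1 = (p - q) / q := by field_simp
    rw [h4, norm_div]
    exact (div_le_self (norm_nonneg _) hq1).trans hpq
  rcases lt_trichotomy (a : ℕ) (b : ℕ) with h | h | h
  · exact key a b h hfab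
  · exact absurd (Fin.ext h) hab
  · exact key b a h hfab.symm

end Pool.Agent.VPer
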