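import Pool.Agent.Work.MP_037d19_vp.Interface

/-!
# Vanishing of linear periods: the assembly
-/

namespace Pool.Agent.VPer

open Pool.Agent.LPer
open scoped Polynomial Topology
open Module (finrank)

theorem exists_small {F : Type} [NontriviallyNormedField F] (a : F) :
    ∃ s : F, s ≠ 0 ∧ ‖s ^ 2 * a‖ ≤ 1 := by
  rcases eq_or_ne a 0 with rfl | ha
  · exact ⟨1, one_ne_zero, by simp⟩
  · obtain ⟨s, hs0, hs⟩ := NormedField.exists_norm_lt F
      (show 0 < min 1 (1 / ‖a‖) from lt_min one_pos (by positivity))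
    refine ⟨s, norm_pos_iff.mp hs0, ?_⟩
    have h1 : ‖s‖ ≤ 1 := (hs.trans_le (min_le_left _ _)).le
    have h2 : ‖s‖ ≤ 1 / ‖a‖ := (hs.trans_le (min_le_right _ _)).le
    have ha' : 0 < ‖a‖ := norm_pos_iff.mpr ha
    rw [norm_mul, norm_pow]
    have h3 : ‖s‖ * ‖a‖ ≤ 1 := by
      rw [le_div_iff₀ ha'] at h2
      exact h2
    calc ‖s‖ ^ 2 * ‖a‖ = ‖s‖ * (‖s‖ * ‖a‖) := by ring
      _ ≤ 1 * 1 := by gcongr
      _ = 1 := by ring

theorem stmt_FIN (hLFD : Stmt_LFD) (hQE : Stmt_QE) (hDN : Stmt_DN) (hCLG : Stmt_CLG)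
    (hITER : Stmt_ITER) (hREP : Stmt_REP) : Stmt_FIN := by
  intro p _ F E A D _ _ _ _ _ _ _ _ _ _ _ _ _ k m hE hA hm e ι K hK
  obtain ⟨i1, i2, i3, i4, -⟩ := hLFD p F
  have := i1
  have := i2
  have := i3
  obtain ⟨N, hN⟩ := hDN p F D
  obtain ⟨δ₀, a₀, hsq, hns, hcent⟩ := hQE F E A ι hE
  obtain ⟨s, hs0, hs⟩ := exists_small (F := F) a₀
  have hdata : Data F E A ι k (algebraMap F E s * δ₀) (s ^ 2 * a₀) := by
    refine ⟨hE, hA, ?_, ?_, ?_⟩
    · rw [mul_pow, hsq, map_mul, map_pow]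
    · intro b hb
      apply hns (b / s)
      rw [div_pow, hb]
      field_simp
    · intro x
      rw [hcent]
      have h1 : ι (algebraMap F E s * δ₀) = s • ι δ₀ := by
        rw [map_mul, AlgHom.commutes, Algebra.smul_def]
      rw [h1, smul_mul_assoc, mul_smul_comm]
      constructor
      · intro h
        rw [h]
      · intro h
        have := congrArg (fun z => s⁻¹ • z) h
        simpa [smul_smul, inv_mul_cancel₀ hs0] using this
  obtain ⟨r₀, C, hr₀, hC, h1⟩ := hCLG F E A D N ι k _ _ m e hN hdata hs hm K hK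
  obtain ⟨r₁, hr₁, h2⟩ := hITER E r₀ C hr₀ hC
  refine ⟨r₁, hr₁, ?_⟩
  rintro χ hχ V _ _ π hirr ⟨v, hv0, hv⟩ ⟨ℓ, hℓ, hℓ0⟩
  obtain ⟨g, hg⟩ := hREP F E A V ι χ π K v ℓ hirr hv0 hv hℓ hℓ0
  refine h2 χ hχ ?_
  intro w hw
  obtain ⟨h, hh, hK', hest⟩ := h1 g w hw
  exact ⟨_, hg h hh hK', hest⟩

end Pool.Agent.VPer
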