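import Pool.Agent.Work.MP_037d19_vp.Interface3

/-!
# Finitely many characters: the assembly
-/

namespace Pool.Agent.VPer

open Pool.Agent.LPer
open scoped Topology
open Module (finrank)

/-- The trivial character. -/
noncomputable def triv (F : Type) [Field F] : F →*₀ ℂ :=
  open Classical in
  { toFun := fun x => if x = 0 then 0 else 1
    map_zero' := by simp
    map_one' := by simp
    map_mul' := by
      intro x y
      by_cases hx : x = 0
      · simp [hx]
      · by_cases hy : y = 0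
        · simp [hy]
        · simp [hx, hy] }

theorem triv_apply {F : Type} [Field F] {x : F} (hx : x ≠ 0) : triv F x = 1 := by
  classical
  change (if x = 0 then (0 : ℂ) else 1) = 1
  rw [if_neg hx]

theorem finite_chars (hSCH : Stmt_SCH) (hFINC : Stmt_FINC) (hMUL : Stmt_MUL)
    (p : ℕ) [Fact p.Prime] (F E A D : Type) [NontriviallyNormedField F]
    [NormedAlgebra ℚ_[p] F] [FiniteDimensional ℚ_[p] F] [NormedField E] [NormedAlgebra F E]
    [NormedRing A] [NormedAlgebra F A] [Algebra.IsCentral F A] [IsSimpleRing A]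
    [FiniteDimensional F A] [DivisionRing D] [Algebra F D] [FiniteDimensional F D]
    (k m : ℕ) (hE : finrank F E = 2) (hA : finrank F A = (2 * k) ^ 2) (hm : Odd m)
    (e : A ≃ₐ[F] Matrix (Fin m) (Fin m) D) (ι : E →ₐ[F] A) (V : Type) [AddCommGroup V]
    [Module ℂ V] (π : Representation ℂ Aˣ V) (hπ : IrrAdm π) :
    {χ : E →*₀ ℂ | (∀ᶠ x in 𝓝 (1 : E), χ x = 1) ∧
      ∃ ℓ : Module.Dual ℂ V, IsPeriod ι χ π ℓ ∧ ℓ ≠ 0}.Finite := by
  rcases Set.eq_empty_or_nonempty {χ : E →*₀ ℂ | (∀ᶠ x in 𝓝 (1 : E), χ x = 1) ∧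
      ∃ ℓ : Module.Dual ℂ V, IsPeriod ι χ π ℓ ∧ ℓ ≠ 0} with hemp | ⟨χ₀, hχ₀, ℓ₀, hℓ₀, hℓ₀0⟩
  · rw [hemp]
    exact Set.finite_empty
  obtain ⟨i1, i2, i3, i4, -⟩ := stmt_LFD p F
  have := i1
  have := i2
  have := i3
  have hfE : FiniteDimensional F E := Module.finite_of_finrank_pos (by omega)
  have hpE : ProperSpace E := FiniteDimensional.proper F E
  have hcA : CompleteSpace A := FiniteDimensional.complete F A
  have hk : 0 < k := by
    rcases Nat.eq_zero_or_pos k with h | h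
    · have h1 : 0 < finrank F A := Module.finrank_pos
      rw [hA, h] at h1
      simp at h1
    · exact h
  have hnat1 : ∀ j : ℕ, ‖(j : E)‖ ≤ 1 := by
    intro j
    have h1 : (j : E) = algebraMap F E (j : F) := (map_natCast _ j).symm
    have h3 : (j : F) = algebraMap ℚ_[p] F (j : ℚ_[p]) := (map_natCast _ j).symm
    rw [h1, norm_algebraMap', h3, norm_algebraMap']
    have h2 := Padic.norm_int_le_one (p := p) (j : ℤ)
    rwa [Int.cast_natCast] at h2
  have hult : IsUltrametricDist E :=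
    IsUltrametricDist.isUltrametricDist_of_forall_norm_natCast_le_one hnat1
  have hultE : ∀ x y : E, ‖x + y‖ ≤ max ‖x‖ ‖y‖ := fun x y => IsUltrametricDist.norm_add_le_max x y
  obtain ⟨δ₀, a₀, hsq, hns, hcent⟩ := stmt_QE F E A ι hE
  have hdata : Data F E A ι k δ₀ a₀ := ⟨hE, hA, hsq, hns, hcent⟩
  obtain ⟨hmulF, honeF, -, -⟩ := hMUL F E A ι k _ _ hdata
  have hnz : ∀ u : Aˣ, nrd F (u : A) ≠ 0 := by
    intro u h6
    have h7 : nrd F (u : A) * nrd F ((u⁻¹ : Aˣ) : A) = 1 := by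
      rw [← hmulF, Units.mul_inv, honeF]
    rw [h6, zero_mul] at h7
    exact zero_ne_one h7
  -- the vector
  have hnt := hπ.nontrivial
  obtain ⟨v, hv⟩ := exists_ne (0 : V)
  have hemb : Topology.IsOpenEmbedding (Units.val : Aˣ → A) := Units.isOpenEmbedding_val
  obtain ⟨ε, hε, hε1, hfix⟩ : ∃ ε : ℝ, 0 < ε ∧ ε ≤ 1 ∧
      ∀ u : Aˣ, ‖(u : A) - 1‖ < ε → π u v = v := by
    have h1 : Units.val '' {g : Aˣ | π g v = v} ∈ 𝓝 (1 : A) := by
      refine (hemb.isOpenMap _ (hπ.smooth v)).mem_nhds ?_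
      refine ⟨1, ?_, Units.val_one⟩
      change π 1 v = v
      rw [map_one]
      rfl
    obtain ⟨ε, hε, hball⟩ := Metric.mem_nhds_iff.mp h1
    refine ⟨min ε 1, lt_min hε one_pos, min_le_right _ _, ?_⟩
    intro u hu
    obtain ⟨u', hu', hu''⟩ := hball (show (u : A) ∈ Metric.ball (1 : A) ε by
      rw [Metric.mem_ball, dist_eq_norm]
      exact hu.trans_le (min_le_left _ _))
    have h2 : u' = u := Units.ext hu''
    rw [← h2]
    exact hu'
  obtain ⟨c, hc, hstrong⟩ := strong p F E A D k m hE hA hm e ι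
  have htriv : ∀ᶠ x in 𝓝 (1 : F), triv F x = 1 := by
    have h1 : ∀ᶠ x in 𝓝 (1 : F), x ≠ 0 := isOpen_ne.mem_nhds one_ne_zero
    filter_upwards [h1] with x hx
    exact triv_apply hx
  have hgen : ∀ W : Submodule ℂ V, (∀ g : Aˣ, ∀ x ∈ W, π g x ∈ W) →
      (∀ v : V, (∀ u : Aˣ, ‖(u : A) - 1‖ < ε → π u v = triv F (nrd F (u : A)) • v) → v ∈ W) →
      W = ⊤ := by
    intro W hW hWv
    rcases hπ.irreducible W hW with h | h
    · exfalso
      have h1 : v ∈ W := hWv v (by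
        intro u hu
        rw [triv_apply (hnz u), one_smul]
        exact hfix u hu)
      rw [h, Submodule.mem_bot] at h1
      exact hv h1
    · exact h
  obtain ⟨z₀, hz0, hz1⟩ := NormedField.exists_norm_lt_one F
  have hz00 : z₀ ≠ 0 := norm_pos_iff.mp hz0
  set r : ℝ := min (c * ε) (1 / 2) with hr
  have hrpos : 0 < r := lt_min (by positivity) (by norm_num)
  refine (hFINC F E hultE r k z₀ (χ₀ (algebraMap F E z₀) ^ k) hrpos hk hz00 hz1).subset ?_
  rintro χ ⟨hχ, ℓ, hℓ, hℓ0⟩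
  refine ⟨?_, ?_⟩
  · intro x hx
    have h1 := hstrong ε hε hε1 χ (triv F) hχ htriv V π hgen ⟨ℓ, hℓ, hℓ0⟩ x
      (hx.trans (min_le_left _ _))
    have hx0 : x ≠ 0 := by
      intro h
      rw [h, zero_sub, norm_neg, norm_one] at hx
      have h2 : r ≤ 1 / 2 := min_le_right _ _
      linarith
    rw [h1]
    apply triv_apply
    intro h
    have h2 : Algebra.norm F x * Algebra.norm F x⁻¹ = 1 := by
      rw [← map_mul, mul_inv_cancel₀ hx0, map_one]
    rw [h, zero_mul] at h2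
    exact zero_ne_one h2
  · exact hSCH F E A ι k δ₀ a₀ hdata χ χ₀ V π hπ ℓ ℓ₀ hℓ hℓ0 hℓ₀ hℓ₀0 z₀ hz00

end Pool.Agent.VPer
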