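import Pool.Agent.Work.MP_037d19_lp.Defs2
import Pool.Agent.Work.MP_037d19_lp.Defs3

/-!
# Vanishing of linear periods for sufficiently ramified characters: the interface
-/

namespace Pool.Agent.VPer

open Pool.Agent.LPer
open scoped Polynomial Topology
open Module (finrank)

/-- A multiplicative nonarchimedean absolute value on a division ring. -/
structure DVal {D : Type} [DivisionRing D] (N : D → ℝ) : Prop where
  nonneg : ∀ x, 0 ≤ N x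
  zero_iff : ∀ x, N x = 0 ↔ x = 0
  mul : ∀ x y, N (x * y) = N x * N y
  add : ∀ x y, N (x + y) ≤ max (N x) (N y)

/-- An absolute value on `D` which extends that of `F`. -/
structure DNorm (F : Type) {D : Type} [NormedField F] [DivisionRing D] [Algebra F D]
    (N : D → ℝ) : Prop where
  val : DVal N
  alg : ∀ a : F, N (algebraMap F D a) = ‖a‖

/-- Integral matrices. -/
def IntM {D : Type} (N : D → ℝ) {m : ℕ} (M : Matrix (Fin m) (Fin m) D) : Prop :=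
  ∀ i j, N (M i j) ≤ 1

/-- The order `M_m(O_D)` inside `A`. -/
def InR0 {F A D : Type} [Field F] [Ring A] [Algebra F A] [DivisionRing D] [Algebra F D]
    (N : D → ℝ) {m : ℕ} (e : A ≃ₐ[F] Matrix (Fin m) (Fin m) D) (u : A) : Prop :=
  IntM N (e u)

/-- The trace of left multiplication. -/
noncomputable def trA (F : Type) {A : Type} [Field F] [Ring A] [Algebra F A] (x : A) : F :=
  LinearMap.trace F A (Algebra.lmul F A x)

/-- DN: the absolute value on `D`. -/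
def Stmt_DN : Prop :=
  ∀ (p : ℕ) [Fact p.Prime] (F D : Type) [NontriviallyNormedField F] [NormedAlgebra ℚ_[p] F]
    [FiniteDimensional ℚ_[p] F] [DivisionRing D] [Algebra F D] [FiniteDimensional F D],
    ∃ N : D → ℝ, DNorm F N

/-- SNF: the elementary divisor form. -/
def Stmt_SNF : Prop :=
  ∀ (D : Type) [DivisionRing D] (N : D → ℝ), DVal N → ∀ (m : ℕ)
    (X : Matrix (Fin m) (Fin m) D), ∃ (P P' Q Q' : Matrix (Fin m) (Fin m) D) (a : Fin m → D),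
    IntM N P ∧ IntM N P' ∧ IntM N Q ∧ IntM N Q' ∧ P * P' = 1 ∧ P' * P = 1 ∧ Q * Q' = 1 ∧
    Q' * Q = 1 ∧ X = P * Matrix.diagonal a * Q

/-- RANK: a block of non-units in an integral invertible matrix is small. -/
def Stmt_RANK : Prop :=
  ∀ (D : Type) [DivisionRing D] (N : D → ℝ), DVal N → ∀ (m : ℕ)
    (K K' : Matrix (Fin m) (Fin m) D) (S T : Finset (Fin m)), K * K' = 1 → IntM N K' →
    (∀ i ∈ S, ∀ j ∈ T, N (K i j) < 1) → S.card + T.card ≤ m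

/-- KEYM: the key lemma for matrices. -/
def Stmt_KEYM : Prop :=
  ∀ (F D : Type) [NormedField F] [DivisionRing D] [Algebra F D] (N : D → ℝ), DNorm F N →
    ∀ (m : ℕ) (X : Matrix (Fin m) (Fin m) D) (δ : F), Odd m → δ ≠ 0 → ‖δ‖ ≤ 1 →
    X * X = algebraMap F (Matrix (Fin m) (Fin m) D) δ →
    ∃ (Z W Q Q' : Matrix (Fin m) (Fin m) D) (i : Fin m), IntM N Z ∧ IntM N W ∧
      X * Z * X = δ • W ∧ Q * Q' = 1 ∧ Q' * Q = 1 ∧
      (∀ l j, j ≠ i → (Q * (X * Z) * Q') l j = 0) ∧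
      (Q * (X * Z) * Q') i i = algebraMap F D δ

/-- TRM: trace forms on matrices with one column. -/
def Stmt_TRM : Prop :=
  ∀ (F D : Type) [Field F] [DivisionRing D] [Algebra F D] (m : ℕ)
    (T : Matrix (Fin m) (Fin m) D →ₗ[F] F),
    (∀ x y : Matrix (Fin m) (Fin m) D, T (x * y) = T (y * x)) →
    ∀ (M : Matrix (Fin m) (Fin m) D) (i : Fin m) (δ : F), (∀ l j, j ≠ i → M l j = 0) →
    M i i = algebraMap F D δ → (m : F) * T M = δ * T 1

/-- KEYA: the key lemma in `A`. -/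
def Stmt_KEYA : Prop :=
  ∀ (F E A D : Type) [NormedField F] [CharZero F] [Field E] [Algebra F E] [Ring A] [Algebra F A]
    [Algebra.IsCentral F A] [IsSimpleRing A] [FiniteDimensional F A] [DivisionRing D]
    [Algebra F D] (N : D → ℝ) (ι : E →ₐ[F] A) (k : ℕ) (δE : E) (a : F) (m : ℕ)
    (e : A ≃ₐ[F] Matrix (Fin m) (Fin m) D), DNorm F N → Data F E A ι k δE a → ‖a‖ ≤ 1 →
    Odd m → ∀ g : Aˣ, ∃ y z : A, y ∈ Cent ι ∧ InR0 N e (((g⁻¹ : Aˣ) : A) * y * g) ∧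
      InR0 N e z ∧ (m : F) * trA F (ι δE * y) = 2 * a * (2 * k) ^ 2 ∧
      trA F y = 2 * trA F z

/-- POLY: the polynomial `Nrd(1 + t y)`. -/
def Stmt_POLY : Prop :=
  ∀ (F E A : Type) [Field F] [CharZero F] [Field E] [Algebra F E] [Ring A] [Algebra F A]
    [Algebra.IsCentral F A] [IsSimpleRing A] [FiniteDimensional F A] (ι : E →ₐ[F] A) (k : ℕ)
    (δE : E) (a : F), Data F E A ι k δE a → ∀ y : Cent ι, ∃ Q : E[X], Q.natDegree ≤ k ∧
    Q.coeff 0 = 1 ∧ 4 * (k : E) * δE * Q.coeff 1 =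
      δE * algebraMap F E (trA F (y : A)) +
        algebraMap F E (trA F (ι δE * (y : A))) ∧
    ∀ t : F, Q.eval (algebraMap F E t) = nrd E (1 + t • y : Cent ι)

/-- LAG: the coefficients are bounded by the values on the unit ball of `F`. -/
def Stmt_LAG : Prop :=
  ∀ (F E : Type) [NontriviallyNormedField F] [NormedField E] [NormedAlgebra F E] (k : ℕ),
    ∃ C : ℝ, 0 < C ∧ ∀ (Q : E[X]) (B : ℝ), Q.natDegree ≤ k →
    (∀ t : F, ‖t‖ ≤ 1 → ‖Q.eval (algebraMap F E t)‖ ≤ B) → ∀ i, ‖Q.coeff i‖ ≤ C * B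

/-- NE: the absolute value of the norm. -/
def Stmt_NE : Prop :=
  ∀ (F E : Type) [NontriviallyNormedField F] [CompleteSpace F] [ProperSpace F] [NormedField E]
    [NormedAlgebra F E], finrank F E = 2 → ∀ x : E, ‖Algebra.norm F x‖ = ‖x‖ ^ 2

/-- RB: the order is bounded. -/
def Stmt_RB : Prop :=
  ∀ (F A D : Type) [NontriviallyNormedField F] [CompleteSpace F] [NormedRing A]
    [NormedAlgebra F A] [FiniteDimensional F A] [DivisionRing D] [Algebra F D]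
    [FiniteDimensional F D] (N : D → ℝ) (m : ℕ) (e : A ≃ₐ[F] Matrix (Fin m) (Fin m) D),
    DNorm F N → ∃ B : ℝ, 0 < B ∧ ∀ u : A, InR0 N e u → ‖u‖ ≤ B

/-- BND: the reduced norm is bounded. -/
def Stmt_BND : Prop :=
  ∀ (F E A D : Type) [NontriviallyNormedField F] [CompleteSpace F] [ProperSpace F] [CharZero F]
    [NormedField E] [NormedAlgebra F E] [NormedRing A] [NormedAlgebra F A]
    [Algebra.IsCentral F A] [IsSimpleRing A] [FiniteDimensional F A] [DivisionRing D]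
    [Algebra F D] [FiniteDimensional F D] (N : D → ℝ) (ι : E →ₐ[F] A) (k : ℕ) (δE : E) (a : F)
    (m : ℕ) (e : A ≃ₐ[F] Matrix (Fin m) (Fin m) D), DNorm F N → Data F E A ι k δE a →
    ∃ B : ℝ, 0 < B ∧ ∀ (g : Aˣ) (y : Cent ι), InR0 N e (((g⁻¹ : Aˣ) : A) * y * g) →
      ∀ t : F, ‖t‖ ≤ 1 → ‖nrd E (1 + t • y : Cent ι)‖ ≤ B

/-- TGT: every small linear coefficient is attained. -/
def Stmt_TGT : Prop :=
  ∀ (F E A D : Type) [NontriviallyNormedField F] [CompleteSpace F] [ProperSpace F] [CharZero F]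
    [NormedField E] [NormedAlgebra F E] [NormedRing A] [NormedAlgebra F A]
    [Algebra.IsCentral F A] [IsSimpleRing A] [FiniteDimensional F A] [DivisionRing D]
    [Algebra F D] [FiniteDimensional F D] (N : D → ℝ) (ι : E →ₐ[F] A) (k : ℕ) (δE : E) (a : F)
    (m : ℕ) (e : A ≃ₐ[F] Matrix (Fin m) (Fin m) D), DNorm F N → Data F E A ι k δE a →
    ‖a‖ ≤ 1 → Odd m → ∃ c₁ : ℝ, 0 < c₁ ∧ ∀ (g : Aˣ) (w : E), ‖w‖ ≤ c₁ →
      ∃ (y : Cent ι) (Q : E[X]), InR0 N e (((g⁻¹ : Aˣ) : A) * y * g) ∧ Q.natDegree ≤ k ∧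
        Q.coeff 0 = 1 ∧ Q.coeff 1 = w ∧
        ∀ t : F, Q.eval (algebraMap F E t) = nrd E (1 + t • y : Cent ι)

/-- EST: the quadratic estimate. -/
def Stmt_EST : Prop :=
  ∀ (F E A D : Type) [NontriviallyNormedField F] [CompleteSpace F] [ProperSpace F] [CharZero F]
    [NormedField E] [NormedAlgebra F E] [NormedRing A] [NormedAlgebra F A]
    [Algebra.IsCentral F A] [IsSimpleRing A] [FiniteDimensional F A] [DivisionRing D]
    [Algebra F D] [FiniteDimensional F D] (N : D → ℝ) (ι : E →ₐ[F] A) (k : ℕ) (δE : E) (a : F)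
    (m : ℕ) (e : A ≃ₐ[F] Matrix (Fin m) (Fin m) D), DNorm F N → Data F E A ι k δE a →
    ∃ C : ℝ, 0 < C ∧ ∀ (g : Aˣ) (y : Cent ι) (Q : E[X]),
      InR0 N e (((g⁻¹ : Aˣ) : A) * y * g) → Q.natDegree ≤ k → Q.coeff 0 = 1 →
      (∀ t : F, Q.eval (algebraMap F E t) = nrd E (1 + t • y : Cent ι)) →
      ∀ t : F, ‖t‖ ≤ 1 →
        ‖nrd E (1 + t • y : Cent ι) - 1 - algebraMap F E t * Q.coeff 1‖ ≤ C * ‖t‖ ^ 2

/-- CLG: approximation inside `H ∩ g K g⁻¹`, uniformly in `g`. -/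
def Stmt_CLG : Prop :=
  ∀ (F E A D : Type) [NontriviallyNormedField F] [CompleteSpace F] [ProperSpace F] [CharZero F]
    [NormedField E] [NormedAlgebra F E] [NormedRing A] [NormedAlgebra F A]
    [Algebra.IsCentral F A] [IsSimpleRing A] [FiniteDimensional F A] [DivisionRing D]
    [Algebra F D] [FiniteDimensional F D] (N : D → ℝ) (ι : E →ₐ[F] A) (k : ℕ) (δE : E) (a : F)
    (m : ℕ) (e : A ≃ₐ[F] Matrix (Fin m) (Fin m) D), DNorm F N → Data F E A ι k δE a →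
    ‖a‖ ≤ 1 → Odd m → ∀ (K : Subgroup Aˣ), IsOpen (K : Set Aˣ) →
    ∃ r₀ C : ℝ, 0 < r₀ ∧ 0 < C ∧ ∀ (g : Aˣ) (w : E), ‖w‖ ≤ r₀ →
      ∃ (h : Aˣ) (hh : (h : A) ∈ Cent ι), g⁻¹ * h * g ∈ K ∧
        ‖nrd E (⟨(h : A), hh⟩ : Cent ι) - 1 - w‖ ≤ C * ‖w‖ ^ 2

/-- ITER: successive approximation. -/
def Stmt_ITER : Prop :=
  ∀ (E : Type) [NormedField E] (r₀ C : ℝ), 0 < r₀ → 0 < C → ∃ r₁ : ℝ, 0 < r₁ ∧
    ∀ χ : E →*₀ ℂ, (∀ᶠ x in 𝓝 (1 : E), χ x = 1) →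
    (∀ w : E, ‖w‖ ≤ r₀ → ∃ u : E, χ u = 1 ∧ ‖u - 1 - w‖ ≤ C * ‖w‖ ^ 2) →
    ∀ x : E, ‖x - 1‖ ≤ r₁ → χ x = 1

/-- REP: the period and the fixed vector. -/
def Stmt_REP : Prop :=
  ∀ (F E A V : Type) [Field F] [Field E] [Algebra F E] [Ring A] [Algebra F A]
    [FiniteDimensional F A] [AddCommGroup V] [Module ℂ V] (ι : E →ₐ[F] A) (χ : E → ℂ)
    (π : Representation ℂ Aˣ V) (K : Subgroup Aˣ) (v : V) (ℓ : Module.Dual ℂ V),
    (∀ W : Submodule ℂ V, (∀ g : Aˣ, ∀ x ∈ W, π g x ∈ W) → W = ⊥ ∨ W = ⊤) → v ≠ 0 →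
    (∀ g ∈ K, π g v = v) → IsPeriod ι χ π ℓ → ℓ ≠ 0 →
    ∃ g : Aˣ, ∀ (h : Aˣ) (hh : (h : A) ∈ Cent ι), g⁻¹ * h * g ∈ K →
      χ (nrd E (⟨(h : A), hh⟩ : Cent ι)) = 1

/-- The main theorem. -/
def Stmt_FIN : Prop :=
  ∀ (p : ℕ) [Fact p.Prime] (F E A D : Type) [NontriviallyNormedField F]
    [NormedAlgebra ℚ_[p] F] [FiniteDimensional ℚ_[p] F] [NormedField E] [NormedAlgebra F E]
    [NormedRing A] [NormedAlgebra F A] [Algebra.IsCentral F A] [IsSimpleRing A]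
    [FiniteDimensional F A] [DivisionRing D] [Algebra F D] [FiniteDimensional F D]
    (k m : ℕ) (_ : finrank F E = 2) (_ : finrank F A = (2 * k) ^ 2) (_ : Odd m)
    (_ : A ≃ₐ[F] Matrix (Fin m) (Fin m) D) (ι : E →ₐ[F] A)
    (K : Subgroup Aˣ) (_ : IsOpen (K : Set Aˣ)),
    ∃ r : ℝ, 0 < r ∧ ∀ (χ : E →*₀ ℂ) (_ : ∀ᶠ x in 𝓝 (1 : E), χ x = 1) (V : Type)
      [AddCommGroup V] [Module ℂ V] (π : Representation ℂ Aˣ V),
      (∀ W : Submodule ℂ V, (∀ g : Aˣ, ∀ x ∈ W, π g x ∈ W) → W = ⊥ ∨ W = ⊤) →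
      (∃ v : V, v ≠ 0 ∧ ∀ g ∈ K, π g v = v) →
      (∃ ℓ : Module.Dual ℂ V, IsPeriod ι χ π ℓ ∧ ℓ ≠ 0) →
      ∀ x : E, ‖x - 1‖ ≤ r → χ x = 1

end Pool.Agent.VPer
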