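import Pool.Agent.Work.MP_037d19_vp.Strong

/-!
# Vanishing of linear periods, sharp radius for large `p`: the interface
-/

namespace Pool.Agent.VPer

open Pool.Agent.LPer
open scoped Polynomial Topology
open Module (finrank)

/-- NRB: `|Nrd h| ≤ 1` for `h` in the order `g R0 g⁻¹`. Proof: `nrd E (h ^ n) = nrd E h ^ n` (MUL) and
`h ^ n = 1 + 1 • (h ^ n - 1)` with `g⁻¹ (h ^ n - 1) g` in `R0` (a ring: `DVal.intM_mul`, `e` is a ring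
isomorphism), so `‖nrd E h‖ ^ n ≤ B` for all `n` by BND with `t = 1`. -/
def Stmt_NRB : Prop :=
  ∀ (F E A D : Type) [NontriviallyNormedField F] [CompleteSpace F] [ProperSpace F] [CharZero F]
    [NormedField E] [NormedAlgebra F E] [NormedRing A] [NormedAlgebra F A]
    [Algebra.IsCentral F A] [IsSimpleRing A] [FiniteDimensional F A] [DivisionRing D]
    [Algebra F D] [FiniteDimensional F D] (N : D → ℝ) (ι : E →ₐ[F] A) (k : ℕ) (δE : E) (a : F)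
    (m : ℕ) (e : A ≃ₐ[F] Matrix (Fin m) (Fin m) D), DNorm F N → Data F E A ι k δE a →
    ∀ (g : Aˣ) (h : Cent ι), InR0 N e (((g⁻¹ : Aˣ) : A) * h * g) → ‖nrd E h‖ ≤ 1

/-- LAG1: integrality of the coefficients. Proof: Lagrange interpolation at `0, 1, ..., k`; the
differences have norm one, so the basis polynomials have coefficients of norm `≤ 1` (products of
`C ((i - j)⁻¹) * (X - C j)`; polynomials with coefficients in the unit ball are closed under sums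
and products because `E` is ultrametric). -/
def Stmt_LAG1 : Prop :=
  ∀ (F E : Type) [NontriviallyNormedField F] [NormedField E] [NormedAlgebra F E],
    (∀ x y : E, ‖x + y‖ ≤ max ‖x‖ ‖y‖) → ∀ k : ℕ,
    (∀ j : ℕ, 0 < j → j ≤ k → ‖(j : F)‖ = 1) → ∀ Q : E[X], Q.natDegree ≤ k →
    (∀ t : F, ‖t‖ ≤ 1 → ‖Q.eval (algebraMap F E t)‖ ≤ 1) → ∀ i, ‖Q.coeff i‖ ≤ 1

/-- GEN: a good generator. Proof: `s` of maximal norm in the compact set `{s | ‖s ^ 2 * a₀‖ ≤ 1}`,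
`δ = s δ₀`, `a = s ^ 2 a₀`. `w = u + v δ`; its conjugate `w' = u - v δ` has the same norm, because
`Algebra.norm F w = u ^ 2 - v ^ 2 a = Algebra.norm F w'` and `‖Algebra.norm F x‖ = ‖x‖ ^ 2`;
`2 u = w + w'` gives `‖u‖ ≤ 1`, `v δ = w - u` gives `‖v ^ 2 a‖ ≤ 1`, so `‖v s‖ ≤ ‖s‖` by maximality. -/
def Stmt_GEN : Prop :=
  ∀ (F E : Type) [NontriviallyNormedField F] [CompleteSpace F] [ProperSpace F] [CharZero F]
    [NormedField E] [NormedAlgebra F E], ‖(2 : F)‖ = 1 → (∀ x y : E, ‖x + y‖ ≤ max ‖x‖ ‖y‖) →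
    (∀ x : E, ‖Algebra.norm F x‖ = ‖x‖ ^ 2) → finrank F E = 2 → ∀ (δ₀ : E) (a₀ : F),
    δ₀ ^ 2 = algebraMap F E a₀ → (∀ b : F, b ^ 2 ≠ a₀) →
    ∃ s : F, s ≠ 0 ∧ ‖s ^ 2 * a₀‖ ≤ 1 ∧ ∀ w : E, ‖w‖ ≤ 1 → ∃ u v : F, ‖u‖ ≤ 1 ∧ ‖v‖ ≤ 1 ∧
      w = algebraMap F E u + algebraMap F E v * (algebraMap F E s * δ₀)

/-- TGT1: every integral linear coefficient is attained. Proof: `y_g`, `z` from KEYA; by POLY its
`Q` has `Q.coeff 1 = T + (2k/m) δE`, `T = trA z / (2k)` (`a / δE = δE`); NRB and LAG1 give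
`‖Q.coeff 1‖ ≤ 1`, so `‖T‖ ≤ 1` (`‖2k/m‖ = 1`, `‖δE‖ ≤ 1`). For `w = u + v δE` take
`μ = v m / (2k)`, `λ = (u - μ T) / k`, `y = λ + μ y_g`. As in `stmt_TGT` (TGT.lean). -/
def Stmt_TGT1 : Prop :=
  ∀ (F E A D : Type) [NontriviallyNormedField F] [CompleteSpace F] [ProperSpace F] [CharZero F]
    [NormedField E] [NormedAlgebra F E] [NormedRing A] [NormedAlgebra F A]
    [Algebra.IsCentral F A] [IsSimpleRing A] [FiniteDimensional F A] [DivisionRing D]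
    [Algebra F D] [FiniteDimensional F D] (N : D → ℝ) (ι : E →ₐ[F] A) (k : ℕ) (δE : E) (a : F)
    (m : ℕ) (e : A ≃ₐ[F] Matrix (Fin m) (Fin m) D), DNorm F N → Data F E A ι k δE a →
    ‖a‖ ≤ 1 → Odd m → (∀ x y : E, ‖x + y‖ ≤ max ‖x‖ ‖y‖) →
    (∀ j : ℕ, 0 < j → j ≤ 2 * k → ‖(j : F)‖ = 1) → m ≤ 2 * k →
    (∀ w : E, ‖w‖ ≤ 1 → ∃ u v : F, ‖u‖ ≤ 1 ∧ ‖v‖ ≤ 1 ∧
      w = algebraMap F E u + algebraMap F E v * δE) →
    ∀ (g : Aˣ) (w : E), ‖w‖ ≤ 1 →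
      ∃ (y : Cent ι) (Q : E[X]), InR0 N e (((g⁻¹ : Aˣ) : A) * y * g) ∧ Q.natDegree ≤ k ∧
        Q.coeff 0 = 1 ∧ Q.coeff 1 = w ∧
        ∀ t : F, Q.eval (algebraMap F E t) = nrd E (1 + t • y : Cent ι)

/-- CL1: approximation with the sharp radius. Proof: `w / s` has norm `≤ 1`; TGT1 gives `y`, `Q`;
`h = 1 + s y`; all coefficients of `Q` have norm `≤ 1` (NRB for `1 + t y`, `‖t‖ ≤ 1`, and LAG1), so
`Q(s) - 1 - w = ∑_{i ≥ 2} Q_i s ^ i` has norm `≤ ‖s‖ ^ 2`. `1 + s u`, `u = g⁻¹ y g ∈ R0`, is a unit: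
`x = -(s u)`, `‖x ^ n‖ ≤ ‖s‖ ^ n B < 1` (RB, `u ^ n ∈ R0`), `1 - x ^ n` is a unit and a commuting
multiple of `1 - x`. As in `clg2` (Strong.lean). -/
def Stmt_CL1 : Prop :=
  ∀ (F E A D : Type) [NontriviallyNormedField F] [CompleteSpace F] [ProperSpace F] [CharZero F]
    [NormedField E] [NormedAlgebra F E] [NormedRing A] [NormedAlgebra F A]
    [Algebra.IsCentral F A] [IsSimpleRing A] [FiniteDimensional F A] [DivisionRing D]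
    [Algebra F D] [FiniteDimensional F D] (N : D → ℝ) (ι : E →ₐ[F] A) (k : ℕ) (δE : E) (a : F)
    (m : ℕ) (e : A ≃ₐ[F] Matrix (Fin m) (Fin m) D), DNorm F N → Data F E A ι k δE a →
    ‖a‖ ≤ 1 → Odd m → (∀ x y : E, ‖x + y‖ ≤ max ‖x‖ ‖y‖) →
    (∀ j : ℕ, 0 < j → j ≤ 2 * k → ‖(j : F)‖ = 1) → m ≤ 2 * k →
    (∀ w : E, ‖w‖ ≤ 1 → ∃ u v : F, ‖u‖ ≤ 1 ∧ ‖v‖ ≤ 1 ∧
      w = algebraMap F E u + algebraMap F E v * δE) →
    ∀ s : F, s ≠ 0 → ‖s‖ < 1 → ∀ (g : Aˣ) (w : E), ‖w‖ ≤ ‖s‖ →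
      ∃ (h : Aˣ) (hh : (h : A) ∈ Cent ι),
        (∀ i j, N ((e ((g⁻¹ * h * g : Aˣ) : A) - 1) i j) ≤ ‖s‖) ∧
        ‖nrd E (⟨(h : A), hh⟩ : Cent ι) - 1 - w‖ ≤ ‖s‖ ^ 2

/-- ITER1: successive approximation with the sharp radius. Proof: `s_j = t ^ (2 ^ j)`,
`‖x_j - 1‖ ≤ ‖s_j‖`, `x_(j+1) = x_j / u`, `‖u‖ = 1`. -/
def Stmt_ITER1 : Prop :=
  ∀ (F E : Type) [NontriviallyNormedField F] [NormedField E] [NormedAlgebra F E],
    (∀ x y : E, ‖x + y‖ ≤ max ‖x‖ ‖y‖) → ∀ t : F, t ≠ 0 → ‖t‖ < 1 → ∀ χ : E →*₀ ℂ,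
    (∀ᶠ x in 𝓝 (1 : E), χ x = 1) →
    (∀ s : F, s ≠ 0 → ‖s‖ ≤ ‖t‖ → ∀ w : E, ‖w‖ ≤ ‖s‖ →
      ∃ u : E, χ u = 1 ∧ ‖u - 1 - w‖ ≤ ‖s‖ ^ 2) →
    ∀ x : E, ‖x - 1‖ ≤ ‖t‖ → χ x = 1

/-- DN1: the explicit absolute value on `D` (copy of `stmt_DN`, last line `fun _ => rfl`). -/
def Stmt_DN1 : Prop :=
  ∀ (p : ℕ) [Fact p.Prime] (F D : Type) [NontriviallyNormedField F] [NormedAlgebra ℚ_[p] F]
    [FiniteDimensional ℚ_[p] F] [DivisionRing D] [Algebra F D] [FiniteDimensional F D],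
    ∃ N : D → ℝ, DNorm F N ∧ ∀ z, N z = ‖Algebra.norm F z‖ ^ (1 / (finrank F D : ℝ))

end Pool.Agent.VPer
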