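import Pool.Agent.Work.MP_037d19_vp.Interface2

/-!
# Finiteness of the set of characters: the interface
-/

namespace Pool.Agent.VPer

open Pool.Agent.LPer
open scoped Topology
open Module (finrank)

/-- SCH: an element `z` of `F^×` acts by a scalar on an irreducible admissible representation, so
`χ₁(z)^k = χ₂(z)^k`. Proof: `z₀ = algebraMap F A z` is a central unit `u`. `v ≠ 0` is fixed by the open
subgroup `K = {g | π g v = v}` (smooth); `fixed π K` is finite-dimensional, non-zero and stable under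
`π u` (`u` central), so `π u` has an eigenvector there, eigenvalue `c`
(`Module.End.exists_eigenvalue`); the eigenspace `{x | π u x = c x}` is stable under all `π g`, so it
is everything: `π u = c`. Then `ℓ_i(π u x) = χ_i(nrd E z) ℓ_i x` (IsPeriod for `h = u`, which lies in
`Cent ι`), `nrd E (algebraMap F (Cent ι) z) = algebraMap F E z ^ k` (NNM): both are `c`. -/
def Stmt_SCH : Prop :=
  ∀ (F E A : Type) [NontriviallyNormedField F] [CompleteSpace F] [CharZero F] [NormedField E]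
    [NormedAlgebra F E] [NormedRing A] [NormedAlgebra F A] [Algebra.IsCentral F A]
    [IsSimpleRing A] [FiniteDimensional F A] (ι : E →ₐ[F] A) (k : ℕ) (δE : E) (a : F),
    Data F E A ι k δE a → ∀ (χ₁ χ₂ : E →*₀ ℂ) (V : Type) [AddCommGroup V] [Module ℂ V]
    (π : Representation ℂ Aˣ V), IrrAdm π → ∀ ℓ₁ ℓ₂ : Module.Dual ℂ V, IsPeriod ι χ₁ π ℓ₁ →
    ℓ₁ ≠ 0 → IsPeriod ι χ₂ π ℓ₂ → ℓ₂ ≠ 0 → ∀ z : F, z ≠ 0 →
    χ₁ (algebraMap F E z) ^ k = χ₂ (algebraMap F E z) ^ k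

/-- FA: finitely many classes. Proof: `R = {x : E | ‖z₀‖ ≤ ‖x‖ ≤ 1}` is compact (ProperSpace) and is
covered by the open sets `{x | ‖x / e - 1‖ < r}`, `e ∈ R`; every `x ≠ 0` is `z₀ ^ j * y`, `y ∈ R`. -/
def Stmt_FA : Prop :=
  ∀ (F E : Type) [NontriviallyNormedField F] [NormedField E] [NormedAlgebra F E]
    [ProperSpace E] (r : ℝ) (z₀ : F), 0 < r → z₀ ≠ 0 → ‖z₀‖ < 1 →
    ∃ T : Finset E, (∀ e ∈ T, e ≠ 0) ∧ ∀ x : E, x ≠ 0 → ∃ e ∈ T, ∃ j : ℤ,
      ‖x / (algebraMap F E z₀ ^ j * e) - 1‖ ≤ r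

/-- FB: a power of every `x ≠ 0` is a power of `z₀` up to the ball. Proof: FA with `r' = min r (1/2)`;
two of the elements `x ^ a`, `0 ≤ a ≤ card T`, have the same `e`; divide: if `‖p - 1‖ ≤ r'` and
`‖q - 1‖ ≤ r'` then `‖q‖ = 1` and `‖p / q - 1‖ = ‖p - q‖ ≤ r'` (ultrametric). -/
def Stmt_FB : Prop :=
  ∀ (F E : Type) [NontriviallyNormedField F] [NormedField E] [NormedAlgebra F E]
    [ProperSpace E], (∀ x y : E, ‖x + y‖ ≤ max ‖x‖ ‖y‖) → ∀ (r : ℝ) (z₀ : F), 0 < r →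
    z₀ ≠ 0 → ‖z₀‖ < 1 → ∀ x : E, x ≠ 0 → ∃ (M : ℕ) (l : ℤ), 0 < M ∧
      ‖x ^ M / algebraMap F E z₀ ^ l - 1‖ ≤ r

/-- FINC: finitely many characters. (FA and FB give: `χ` is determined by `χ z₀`, a `k`-th root of
`κ`, and the `χ e`, `e ∈ T`, with `χ(e) ^ M_e = χ(z₀) ^ l_e`.) Proof: `R = {x : E | ‖z₀‖ ≤ ‖x‖ ≤ 1}` is compact and is covered
by the open sets `{x | ‖x / e - 1‖ < r}`, `e ∈ R`; finite subcover `e_1, ..., e_n`: every `x ≠ 0` is
`z₀ ^ j * e_i * (1 + small)`, `j : ℤ`. So `χ` is determined by `χ z₀` and the `χ e_i`; `χ z₀` is one of the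
finitely many `k`-th roots of `κ`; for each `i` two of the elements `e_i ^ a`, `0 ≤ a ≤ n`, lie in the
same class `z₀ ^ ℤ e_j (1 + small)`: `e_i ^ M = z₀ ^ l (1 + small')` with `0 < M ≤ n` (the quotients of two
elements of `e_j (1 + small)` lie in the ball of radius `r`, for `r < 1` and `E` ultrametric: use the
ball of radius `r' = min r (1/2)`), so `χ(e_i) ^ M = χ(z₀) ^ l`: finitely many values. -/
def Stmt_FINC : Prop :=
  ∀ (F E : Type) [NontriviallyNormedField F] [NormedField E] [NormedAlgebra F E]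
    [ProperSpace E], (∀ x y : E, ‖x + y‖ ≤ max ‖x‖ ‖y‖) → ∀ (r : ℝ) (k : ℕ) (z₀ : F) (κ : ℂ),
    0 < r → 0 < k → z₀ ≠ 0 → ‖z₀‖ < 1 →
    {χ : E →*₀ ℂ | (∀ x : E, ‖x - 1‖ ≤ r → χ x = 1) ∧ χ (algebraMap F E z₀) ^ k = κ}.Finite

end Pool.Agent.VPer
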