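import Pool.Agent.Work.MP_037d19_vp.Interface

/-!
# Vanishing of linear periods: block KEYA
-/

namespace Pool.Agent.VPer

open Pool.Agent.LPer
open Module (finrank)

namespace KeyA

section

variable {F A : Type} [Field F] [Ring A] [Algebra F A]

theorem trA_add (x y : A) : trA F (x + y) = trA F x + trA F y := by
  unfold trA
  rw [map_add, map_add]

theorem trA_smul (c : F) (x : A) : trA F (c • x) = c * trA F x := by
  unfold trA
  rw [map_smul, map_smul, smul_eq_mul]

theorem trA_comm (x y : A) : trA F (x * y) = trA F (y * x) := by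
  unfold trA
  rw [map_mul (Algebra.lmul F A) x y, map_mul (Algebra.lmul F A) y x, LinearMap.trace_mul_comm]

theorem trA_one [FiniteDimensional F A] : trA F (1 : A) = (finrank F A : F) := by
  unfold trA
  rw [map_one, LinearMap.trace_one]

theorem trA_conj (g : Aˣ) (x : A) : trA F ((g : A) * x * ((g⁻¹ : Aˣ) : A)) = trA F x := by
  rw [trA_comm, ← mul_assoc, Units.inv_mul, one_mul]

end

end KeyA

open KeyA in
theorem stmt_KEYA (hKEYM : Stmt_KEYM) (hTRM : Stmt_TRM) : Stmt_KEYA := by
  intro F E A D _ _ _ _ _ _ _ _ _ _ _ N ι k δE a m e hN hD ha hm g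
  have ha0 : a ≠ 0 := by
    intro h
    apply hD.nsq 0
    rw [h]
    simp
  -- `x = g⁻¹ (ι δE) g`
  set s : A := ι δE with hs
  have hss : s * s = algebraMap F A a := by
    rw [hs, ← map_mul, ← pow_two, hD.sq]
    exact ι.commutes a
  set x : A := ((g⁻¹ : Aˣ) : A) * s * g with hx
  have hxx : x * x = algebraMap F A a := by
    calc x * x = ((g⁻¹ : Aˣ) : A) * s * ((g : A) * ((g⁻¹ : Aˣ) : A)) * s * g := by
          rw [hx]; noncomm_ring
      _ = ((g⁻¹ : Aˣ) : A) * (s * s) * g := by
          rw [Units.mul_inv]; noncomm_ring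
      _ = algebraMap F A a := by
          rw [hss, mul_assoc, Algebra.commutes a (g : A), ← mul_assoc, Units.inv_mul, one_mul]
  have hXX : e x * e x = algebraMap F (Matrix (Fin m) (Fin m) D) a := by
    rw [← map_mul, hxx]
    exact e.commutes a
  obtain ⟨Z, W, Q, Q', i, hZ, hW, hXZX, hQ1, hQ2, hcol, hii⟩ :=
    hKEYM F D N hN m (e x) a hm ha0 ha hXX
  set z : A := e.symm Z with hz
  set w : A := e.symm W with hw
  have hez : e z = Z := e.apply_symm_apply Z
  have hew : e w = W := e.apply_symm_apply W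
  have hxzx : x * z * x = a • w := by
    apply e.injective
    rw [map_mul, map_mul, map_smul, hez, hew]
    exact hXZX
  have key1 : x * w = z * x := by
    have h : a • (x * w) = a • (z * x) := by
      calc a • (x * w) = x * (a • w) := (mul_smul_comm _ _ _).symm
        _ = x * (x * z * x) := by rw [hxzx]
        _ = (x * x) * (z * x) := by noncomm_ring
        _ = a • (z * x) := by rw [hxx, Algebra.smul_def]
    exact smul_right_injective A ha0 h
  have key2 : w * x = x * z := by
    have h : a • (w * x) = a • (x * z) := by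
      calc a • (w * x) = (a • w) * x := (smul_mul_assoc _ _ _).symm
        _ = (x * z * x) * x := by rw [hxzx]
        _ = (x * z) * (x * x) := by noncomm_ring
        _ = a • (x * z) := by rw [hxx, ← Algebra.commutes, Algebra.smul_def]
    exact smul_right_injective A ha0 h
  have htw : trA F w = trA F z := by
    have h : a * trA F w = a * trA F z := by
      rw [← trA_smul, ← hxzx, trA_comm, ← mul_assoc, hxx, ← Algebra.smul_def, trA_smul]
    exact mul_left_cancel₀ ha0 h
  have hgs : (g : A) * x = s * g := by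
    rw [hx, ← mul_assoc, ← mul_assoc, Units.mul_inv, one_mul]
  have hxg : x * ((g⁻¹ : Aˣ) : A) = ((g⁻¹ : Aˣ) : A) * s := by
    rw [hx, mul_assoc, Units.mul_inv, mul_one]
  refine ⟨(g : A) * (z + w) * ((g⁻¹ : Aˣ) : A), z, ?_, ?_, ?_, ?_, ?_⟩
  · rw [hD.cent]
    calc s * ((g : A) * (z + w) * ((g⁻¹ : Aˣ) : A))
        = (s * g) * (z + w) * ((g⁻¹ : Aˣ) : A) := by noncomm_ring
      _ = (g : A) * (x * z + x * w) * ((g⁻¹ : Aˣ) : A) := by
          rw [← hgs]; noncomm_ring
      _ = (g : A) * (w * x + z * x) * ((g⁻¹ : Aˣ) : A) := by rw [key1, key2]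
      _ = (g : A) * (z + w) * (x * ((g⁻¹ : Aˣ) : A)) := by
          noncomm_ring
      _ = (g : A) * (z + w) * ((g⁻¹ : Aˣ) : A) * s := by
          rw [hxg]; noncomm_ring
  · have h1 : ((g⁻¹ : Aˣ) : A) * ((g : A) * (z + w) * ((g⁻¹ : Aˣ) : A)) * g = z + w := by
      calc ((g⁻¹ : Aˣ) : A) * ((g : A) * (z + w) * ((g⁻¹ : Aˣ) : A)) * g
          = (((g⁻¹ : Aˣ) : A) * g) * (z + w) * (((g⁻¹ : Aˣ) : A) * g) := by noncomm_ring
        _ = z + w := by rw [Units.inv_mul, one_mul, mul_one]
    rw [h1]
    intro i' j'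
    rw [map_add, hez, hew, Matrix.add_apply]
    exact (hN.val.add _ _).trans (max_le (hZ i' j') (hW i' j'))
  · intro i' j'
    rw [hez]
    exact hZ i' j'
  · have h1 : trA F (s * ((g : A) * (z + w) * ((g⁻¹ : Aˣ) : A))) = 2 * trA F (x * z) := by
      have h2 : s * ((g : A) * (z + w) * ((g⁻¹ : Aˣ) : A)) =
          (g : A) * (x * z + x * w) * ((g⁻¹ : Aˣ) : A) := by
        calc s * ((g : A) * (z + w) * ((g⁻¹ : Aˣ) : A))
            = (s * g) * (z + w) * ((g⁻¹ : Aˣ) : A) := by noncomm_ring
          _ = (g : A) * (x * z + x * w) * ((g⁻¹ : Aˣ) : A) := by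
              rw [← hgs]; noncomm_ring
      rw [h2, trA_conj, trA_add, key1, trA_comm z x]
      ring
    rw [h1]
    -- the linear form `T`
    let T : Matrix (Fin m) (Fin m) D →ₗ[F] F :=
      (LinearMap.trace F A) ∘ₗ (Algebra.lmul F A).toLinearMap ∘ₗ
        (e.symm : Matrix (Fin m) (Fin m) D →ₐ[F] A).toLinearMap
    have hT : ∀ M, T M = trA F (e.symm M) := fun M => rfl
    have hTc : ∀ u v : Matrix (Fin m) (Fin m) D, T (u * v) = T (v * u) := by
      intro u v
      rw [hT, hT, map_mul, map_mul, trA_comm]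
    have h3 := hTRM F D m T hTc (Q * (e x * Z) * Q') i a hcol hii
    have h4 : T (Q * (e x * Z) * Q') = trA F (x * z) := by
      rw [hTc, ← mul_assoc, hQ2, one_mul, hT, map_mul, e.symm_apply_apply]
    have h5 : T 1 = (2 * (k : F)) ^ 2 := by
      rw [hT, map_one, trA_one, hD.rankA]
      push_cast
      ring
    rw [h4, h5] at h3
    linear_combination 2 * h3
  · rw [trA_conj, trA_add, htw]
    ring

end Pool.Agent.VPer
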