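import Pool.Agent.Work.MP_037d19_vp.KEYA

/-!
# Vanishing of linear periods: block TGT
-/

namespace Pool.Agent.VPer

open Pool.Agent.LPer
open scoped Polynomial Topology
open Module (finrank)

namespace Tgt

open KeyA

/-- coordinates with respect to `1, δ` are bounded -/
theorem coord (F E : Type) [NontriviallyNormedField F] [CompleteSpace F] [NormedField E]
    [NormedAlgebra F E] (δ : E) (a : F) (hE : finrank F E = 2) (hsq : δ ^ 2 = algebraMap F E a)
    (hns : ∀ b : F, b ^ 2 ≠ a) :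
    ∃ C : ℝ, 0 < C ∧ ∀ w : E, ∃ u v : F, w = algebraMap F E u + algebraMap F E v * δ ∧
      ‖u‖ ≤ C * ‖w‖ ∧ ‖v‖ ≤ C * ‖w‖ := by
  have hfin : FiniteDimensional F E := Module.finite_of_finrank_pos (by omega)
  let L : F × F →ₗ[F] E :=
    (Algebra.linearMap F E).comp (LinearMap.fst F F F) +
      ((LinearMap.mulRight F δ).comp (Algebra.linearMap F E)).comp (LinearMap.snd F F F)
  have hL : ∀ q : F × F, L q = algebraMap F E q.1 + algebraMap F E q.2 * δ := fun q => rfl
  have hinj : Function.Injective L := by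
    rw [injective_iff_map_eq_zero]
    rintro ⟨u, v⟩ h
    rw [hL] at h
    simp only at h
    by_cases hv : v = 0
    · subst hv
      rw [map_zero, zero_mul, add_zero] at h
      have hu : u = 0 := (FaithfulSMul.algebraMap_injective F E) (by rw [h, map_zero])
      rw [hu]
      rfl
    · exfalso
      apply hns (u / v)
      apply FaithfulSMul.algebraMap_injective F E
      have hv' : algebraMap F E v ≠ 0 := by
        intro h0
        exact hv ((FaithfulSMul.algebraMap_injective F E) (by rw [h0, map_zero]))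
      have h1 : algebraMap F E v * δ = -algebraMap F E u := by
        linear_combination h
      have h2 : δ = -(algebraMap F E u / algebraMap F E v) := by
        field_simp
        linear_combination h1
      rw [← hsq, h2, map_pow, map_div₀]
      ring
  have hdim : finrank F (F × F) = finrank F E := by
    rw [hE, Module.finrank_prod, Module.finrank_self]
  let e : (F × F) ≃ₗ[F] E := LinearEquiv.ofInjectiveOfFinrankEq L hinj hdim
  have he : ∀ q, e q = L q := fun q => rfl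
  let e' : E →L[F] (F × F) := LinearMap.toContinuousLinearMap (e.symm : E →ₗ[F] F × F)
  refine ⟨‖e'‖ + 1, by positivity, fun w => ⟨(e.symm w).1, (e.symm w).2, ?_, ?_, ?_⟩⟩
  · rw [← hL, ← he, LinearEquiv.apply_symm_apply]
  · have h1 : ‖(e.symm w).1‖ ≤ ‖e' w‖ := norm_fst_le (e' w)
    have h2 : ‖e' w‖ ≤ ‖e'‖ * ‖w‖ := e'.le_opNorm w
    nlinarith [norm_nonneg w]
  · have h1 : ‖(e.symm w).2‖ ≤ ‖e' w‖ := norm_snd_le (e' w)
    have h2 : ‖e' w‖ ≤ ‖e'‖ * ‖w‖ := e'.le_opNorm w
    nlinarith [norm_nonneg w]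

/-- the trace is bounded on bounded sets -/
theorem trA_le (F A : Type) [NontriviallyNormedField F] [CompleteSpace F] [NormedRing A]
    [NormedAlgebra F A] [FiniteDimensional F A] :
    ∃ C : ℝ, 0 < C ∧ ∀ x : A, ‖trA F x‖ ≤ C * ‖x‖ := by
  let T : A →ₗ[F] F := (LinearMap.trace F A) ∘ₗ (Algebra.lmul F A).toLinearMap
  let T' : A →L[F] F := LinearMap.toContinuousLinearMap T
  refine ⟨‖T'‖ + 1, by positivity, fun x => ?_⟩
  have h1 : ‖T' x‖ ≤ ‖T'‖ * ‖x‖ := T'.le_opNorm x
  have h2 : T' x = trA F x := rfl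
  rw [← h2]
  nlinarith [norm_nonneg x]

end Tgt

open KeyA Tgt in
theorem stmt_TGT (hKEYA : Stmt_KEYA) (hPOLY : Stmt_POLY) (hRB : Stmt_RB) (hW : Stmt_W) :
    Stmt_TGT := by
  intro F E A D _ _ _ _ _ _ _ _ _ _ _ _ _ _ N ι k δE a m e hN hD ha hm
  obtain ⟨C, hC, hcoord⟩ := coord F E δE a hD.rankE hD.sq hD.nsq
  obtain ⟨B, hB, hRB'⟩ := hRB F A D N m e hN
  obtain ⟨C', hC', htr⟩ := trA_le F A
  have hk0 : k ≠ 0 := by
    intro h
    have h1 : 0 < finrank F A := Module.finrank_pos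
    rw [hD.rankA, h] at h1
    simp at h1
  have hkF : (k : F) ≠ 0 := Nat.cast_ne_zero.2 hk0
  have hm0 : m ≠ 0 := by
    rintro rfl
    simp at hm
  have hmF : (m : F) ≠ 0 := Nat.cast_ne_zero.2 hm0
  have h2F : (2 : F) ≠ 0 := two_ne_zero
  have ha0 : a ≠ 0 := by
    intro h
    apply hD.nsq 0
    rw [h]
    simp
  -- the trace of `δ` is zero
  have hδδ : ι δE * ι δE = algebraMap F A a := by
    rw [← map_mul, ← pow_two, hD.sq, AlgHom.commutes]
  have htδ : trA F (ι δE) = 0 := by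
    obtain ⟨w, hw⟩ := hW F E A δE a (ι δE) hD.rankE hD.sq hD.nsq hδδ
    have h1 : trA F ((w : A) * ι δE * ((w⁻¹ : Aˣ) : A)) = trA F (ι δE) := trA_conj w _
    have h2 : (w : A) * ι δE * ((w⁻¹ : Aˣ) : A) = (-1 : F) • ι δE := by
      rw [hw, neg_mul, mul_assoc, Units.mul_inv, mul_one, neg_smul, one_smul]
    rw [h2, trA_smul] at h1
    have h3 : (2 : F) * trA F (ι δE) = 0 := by linear_combination -h1
    exact (mul_eq_zero.1 h3).resolve_left h2F
  set M₁ : ℝ := ‖(m : F) / (2 * k)‖ with hM₁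
  set M₂ : ℝ := ‖(1 : F) / k‖ with hM₂
  set M₃ : ℝ := ‖(1 : F) / (2 * k)‖ with hM₃
  have hM₁0 : 0 ≤ M₁ := norm_nonneg _
  have hM₂0 : 0 ≤ M₂ := norm_nonneg _
  have hM₃0 : 0 ≤ M₃ := norm_nonneg _
  set R : ℝ := C * (1 + M₁ + M₂ * (1 + M₁ * (C' * B) * M₃)) with hR
  have hRpos : 0 < R := by positivity
  refine ⟨1 / R, by positivity, fun g w hw => ?_⟩
  obtain ⟨u, v, hw', hu, hv⟩ := hcoord w
  obtain ⟨y₀, z, hy₀, hR₀, hz, hty, hty'⟩ := hKEYA F E A D N ι k δE a m e hN hD ha hm g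
  have htz : ‖trA F z‖ ≤ C' * B := (htr z).trans (by gcongr; exact hRB' z hz)
  have hRw : R * ‖w‖ ≤ 1 := by
    calc R * ‖w‖ ≤ R * (1 / R) := by gcongr
      _ = 1 := by field_simp
  set μ : F := v * (m / (2 * k)) with hμ
  set lam : F := (1 / k) * (u - μ * trA F z * (1 / (2 * k))) with hlam
  have hμn : ‖μ‖ ≤ C * ‖w‖ * M₁ := by
    rw [hμ, norm_mul]
    gcongr
  have hCw : 0 ≤ C * ‖w‖ := by positivity
  have hμ1 : ‖μ‖ ≤ 1 := by
    refine hμn.trans (le_trans ?_ hRw)
    rw [hR]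
    have h1 : M₁ ≤ 1 + M₁ + M₂ * (1 + M₁ * (C' * B) * M₃) := by
      have : 0 ≤ M₂ * (1 + M₁ * (C' * B) * M₃) := by positivity
      linarith
    calc C * ‖w‖ * M₁ ≤ C * ‖w‖ * (1 + M₁ + M₂ * (1 + M₁ * (C' * B) * M₃)) := by gcongr
      _ = C * (1 + M₁ + M₂ * (1 + M₁ * (C' * B) * M₃)) * ‖w‖ := by ring
  have hlam1 : ‖lam‖ ≤ 1 := by
    have h1 : ‖u - μ * trA F z * (1 / (2 * k))‖ ≤ C * ‖w‖ + C * ‖w‖ * M₁ * (C' * B) * M₃ := by
      refine (norm_sub_le _ _).trans ?_
      rw [norm_mul, norm_mul]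
      gcongr
    have h2 : ‖lam‖ ≤ M₂ * (C * ‖w‖ + C * ‖w‖ * M₁ * (C' * B) * M₃) := by
      rw [hlam, norm_mul]
      gcongr
    refine h2.trans (le_trans ?_ hRw)
    rw [hR]
    calc M₂ * (C * ‖w‖ + C * ‖w‖ * M₁ * (C' * B) * M₃)
        = C * ‖w‖ * (M₂ * (1 + M₁ * (C' * B) * M₃)) := by ring
      _ ≤ C * ‖w‖ * (1 + M₁ + M₂ * (1 + M₁ * (C' * B) * M₃)) := by
          gcongr
          linarith
      _ = C * (1 + M₁ + M₂ * (1 + M₁ * (C' * B) * M₃)) * ‖w‖ := by ring
  -- the element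
  set y : Cent ι := algebraMap F (Cent ι) lam + μ • ⟨y₀, hy₀⟩ with hy
  have hyc : (y : A) = algebraMap F A lam + μ • y₀ := rfl
  obtain ⟨Q, hQd, hQ0, hQ1, hQe⟩ := hPOLY F E A ι k δE a hD y
  refine ⟨y, Q, ?_, hQd, hQ0, ?_, hQe⟩
  · have h1 : ((g⁻¹ : Aˣ) : A) * (y : A) * g =
        algebraMap F A lam + μ • (((g⁻¹ : Aˣ) : A) * y₀ * g) := by
      rw [hyc, mul_add, add_mul, ← Algebra.commutes lam ((g⁻¹ : Aˣ) : A), mul_assoc (algebraMap F A lam),
        Units.inv_mul, mul_one, mul_smul_comm, smul_mul_assoc]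
    rw [h1]
    intro i j
    rw [map_add, map_smul, AlgEquiv.commutes, Matrix.add_apply, Matrix.smul_apply]
    refine (hN.val.add _ _).trans (max_le ?_ ?_)
    · rw [Matrix.algebraMap_matrix_apply]
      split_ifs
      · rw [hN.alg]
        exact hlam1
      · rw [(hN.val.zero_iff 0).2 rfl]
        exact zero_le_one
    · rw [Algebra.smul_def, hN.val.mul, hN.alg]
      calc ‖μ‖ * N (e (((g⁻¹ : Aˣ) : A) * y₀ * g) i j) ≤ 1 * 1 :=
            mul_le_mul hμ1 (hR₀ i j) (hN.val.nonneg _) zero_le_one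
        _ = 1 := one_mul 1
  · have h1 : trA F (y : A) = lam * (2 * k) ^ 2 + μ * (2 * trA F z) := by
      rw [hyc, trA_add, trA_smul, hty', Algebra.algebraMap_eq_smul_one, trA_smul, trA_one,
        hD.rankA]
      push_cast
      ring
    have h2 : trA F (ι δE * (y : A)) = μ * trA F (ι δE * y₀) := by
      rw [hyc, mul_add, mul_smul_comm, trA_add, trA_smul, ← Algebra.commutes, ← Algebra.smul_def,
        trA_smul, htδ, mul_zero, zero_add]
    have h3 : (m : F) * trA F (ι δE * (y : A)) = μ * (2 * a * (2 * k) ^ 2) := by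
      rw [h2, ← hty]
      ring
    have hδ0 : δE ≠ 0 := by
      intro h
      apply ha0
      apply FaithfulSMul.algebraMap_injective F E
      rw [← hD.sq, h, map_zero]
      simp
    have hkE : (k : E) ≠ 0 := by
      have h := (map_ne_zero (algebraMap F E)).2 hkF
      rwa [map_natCast] at h
    have hmE : (m : E) ≠ 0 := by
      have h := (map_ne_zero (algebraMap F E)).2 hmF
      rwa [map_natCast] at h
    have h2E : (2 : E) ≠ 0 := by
      have h := (map_ne_zero (algebraMap F E)).2 h2F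
      rwa [map_ofNat] at h
    -- multiply by `m`
    have h4 : (m : E) * (4 * (k : E) * δE * Q.coeff 1) = (m : E) * (4 * (k : E) * δE * w) := by
      rw [hQ1]
      have h5 : (m : E) * algebraMap F E (trA F (ι δE * (y : A))) =
          algebraMap F E (μ * (2 * a * (2 * k) ^ 2)) := by
        rw [← h3, map_mul, map_natCast]
      have h6 : (k : F) * lam = u - μ * trA F z * (1 / (2 * k)) := by
        rw [hlam]
        field_simp
      have h7 : (2 * k : F) * μ = v * m := by
        rw [hμ]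
        field_simp
      have h8 : (2 * (k : F)) * (k * lam) = 2 * k * u - μ * trA F z := by
        rw [h6]
        field_simp
      have h9 : trA F (y : A) = 4 * k * u := by
        rw [h1]
        linear_combination 2 * h8
      have h10 : μ * (2 * a * (2 * k) ^ 2) = 4 * k * a * (v * m) := by
        linear_combination (4 * k * a) * h7
      rw [mul_add, h5, h9, h10, hw']
      simp only [map_mul, map_natCast, map_ofNat]
      rw [← hD.sq]
      ring
    have h11 : (m : E) * (4 * (k : E) * δE) ≠ 0 := by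
      have h4E : (4 : E) ≠ 0 := by
        have : (4 : E) = 2 * 2 := by norm_num
        rw [this]
        exact mul_ne_zero h2E h2E
      exact mul_ne_zero hmE (mul_ne_zero (mul_ne_zero h4E hkE) hδ0)
    apply mul_left_cancel₀ h11
    linear_combination h4

end Pool.Agent.VPer
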