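import Pool.Agent.Work.MP_037d19_vp.Fin
import Pool.Agent.Work.MP_037d19_vp.B_BND
import Pool.Agent.Work.MP_037d19_vp.B_CLG
import Pool.Agent.Work.MP_037d19_vp.B_DN
import Pool.Agent.Work.MP_037d19_vp.B_EST
import Pool.Agent.Work.MP_037d19_vp.B_ITER
import Pool.Agent.Work.MP_037d19_vp.B_KEYM
import Pool.Agent.Work.MP_037d19_vp.B_LAG
import Pool.Agent.Work.MP_037d19_vp.B_NE
import Pool.Agent.Work.MP_037d19_vp.B_POLY
import Pool.Agent.Work.MP_037d19_vp.B_RANK
import Pool.Agent.Work.MP_037d19_vp.B_RB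
import Pool.Agent.Work.MP_037d19_vp.B_REP
import Pool.Agent.Work.MP_037d19_vp.B_SNF
import Pool.Agent.Work.MP_037d19_vp.B_TRM
import Pool.Agent.Work.MP_037d19_vp.KEYA
import Pool.Agent.Work.MP_037d19_vp.TGT
import Pool.Agent.Work.MP_037d19_lp.B_CHP
import Pool.Agent.Work.MP_037d19_lp.B_ROOT
import Pool.Agent.Work.MP_037d19_lp.B_NRP
import Pool.Agent.Work.MP_037d19_lp.B_SPL
import Pool.Agent.Work.MP_037d19_lp.B_CEN
import Pool.Agent.Work.MP_037d19_lp.B_J0
import Pool.Agent.Work.MP_037d19_lp.B_W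
import Pool.Agent.Work.MP_037d19_lp.B_QE
import Pool.Agent.Work.MP_037d19_lp.B_NRD
import Pool.Agent.Work.MP_037d19_lp.B_MUL
import Pool.Agent.Work.MP_037d19_lp.B_CDET
import Pool.Agent.Work.MP_037d19_lp.B_LFD
import Pool.Agent.Work.MP_037d19_lp.B_ANN
import Pool.Agent.Work.MP_037d19_lp.B_NNM

/-!
# Vanishing of linear periods for sufficiently ramified characters: the theorem
-/

namespace Pool.Agent.VPer

open Pool.Agent.LPer

theorem main : Stmt_FIN := by
  have hNRP := stmt_NRP stmt_CHP stmt_ROOT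
  have hW := stmt_W stmt_J0
  have hNRD := stmt_NRD hNRP stmt_SPL stmt_CEN hW
  have hMUL := stmt_MUL hNRD
  have hNNM := stmt_NNM hNRP stmt_CEN hW hNRD
  have hKEYM := stmt_KEYM stmt_SNF stmt_RANK
  have hKEYA := stmt_KEYA hKEYM stmt_TRM
  have hPOLY := stmt_POLY hNRD
  have hRB := stmt_RB
  have hNE := stmt_NE stmt_ANN
  have hTGT := stmt_TGT hKEYA hPOLY hRB hW
  have hBND := p_BND hRB hNE hNNM hMUL hNRD stmt_CDET
  have hEST := stmt_EST hBND p_LAG
  have hCLG := stmt_CLG hRB hTGT hEST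
  exact stmt_FIN stmt_LFD stmt_QE stmt_DN hCLG stmt_ITER stmt_REP

end Pool.Agent.VPer
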