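import Pool.Agent.Work.MP_037d19_vp.Interface2

/-!
# Vanishing of linear periods: the sharp radius for large `p`
-/

namespace Pool.Agent.VPer

open Pool.Agent.LPer
open scoped Polynomial Topology
open Module (finrank)

/-- The period and the equivariant vectors, for a general set of units. -/
theorem rep3 {F E A V : Type} [Field F] [Field E] [Algebra F E] [Ring A]
    [Algebra F A] [FiniteDimensional F A] [AddCommGroup V] [Module ℂ V] (ι : E →ₐ[F] A)
    (χ : E → ℂ) (ω : F → ℂ) (π : Representation ℂ Aˣ V) (S : Aˣ → Prop) (ℓ : Module.Dual ℂ V)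
    (hgen : ∀ W : Submodule ℂ V, (∀ g : Aˣ, ∀ x ∈ W, π g x ∈ W) →
      (∀ v : V, (∀ u : Aˣ, S u → π u v = ω (nrd F (u : A)) • v) → v ∈ W) → W = ⊤)
    (hper : IsPeriod ι χ π ℓ) (hℓ : ℓ ≠ 0) :
    ∃ g : Aˣ, ∀ (h : Aˣ) (hh : (h : A) ∈ Cent ι), S (g⁻¹ * h * g) →
      χ (nrd E (⟨(h : A), hh⟩ : Cent ι)) = ω (nrd F ((g⁻¹ * h * g : Aˣ) : A)) := by
  have hex : ∃ (v : V) (g : Aˣ), (∀ u : Aˣ, S u → π u v = ω (nrd F (u : A)) • v) ∧
      ℓ (π g v) ≠ 0 := by
    by_contra hcon
    push Not at hcon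
    let W : Submodule ℂ V :=
      { carrier := {x | ∀ g : Aˣ, ℓ (π g x) = 0}
        add_mem' := by
          intro a b ha hb g
          rw [map_add, map_add, ha g, hb g, add_zero]
        zero_mem' := by
          intro g
          rw [map_zero, map_zero]
        smul_mem' := by
          intro c x hx g
          rw [map_smul, map_smul, hx g, smul_zero] }
    have hW : ∀ x : V, x ∈ W ↔ ∀ g : Aˣ, ℓ (π g x) = 0 := fun x => Iff.rfl
    have hst : ∀ g : Aˣ, ∀ x ∈ W, π g x ∈ W := by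
      intro g x hx
      rw [hW] at hx ⊢
      intro g'
      have h1 : π g' (π g x) = π (g' * g) x := by
        rw [map_mul]
        rfl
      rw [h1]
      exact hx _
    have h := hgen W hst (fun v hv => (hW v).2 (fun g => hcon v g hv))
    apply hℓ
    apply LinearMap.ext
    intro x
    have h1 : x ∈ W := by
      rw [h]
      exact Submodule.mem_top
    have h2 := (hW x).1 h1 1
    rw [map_one] at h2
    exact h2
  obtain ⟨v, g, hv, hg⟩ := hex
  refine ⟨g, fun h hh hmem => ?_⟩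
  have h1 := hper h hh (π g v)
  have h2 : π h (π g v) = ω (nrd F ((g⁻¹ * h * g : Aˣ) : A)) • π g v := by
    have h3 : π h (π g v) = π (h * g) v := by
      rw [map_mul]
      rfl
    have h4 : h * g = g * (g⁻¹ * h * g) := by group
    have h5 : π (g * (g⁻¹ * h * g)) v = π g (π (g⁻¹ * h * g) v) := by
      rw [map_mul π g (g⁻¹ * h * g)]
      rfl
    rw [h3, h4, h5, hv _ hmem, map_smul]
  rw [h2, map_smul, smul_eq_mul] at h1
  exact (mul_right_cancel₀ hg h1).symm

/-- The condition `N z ≤ ‖t‖` in terms of the norm form. -/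
theorem level_iff {F D : Type} [NontriviallyNormedField F] [DivisionRing D] [Algebra F D]
    [FiniteDimensional F D] {N : D → ℝ}
    (hN : ∀ z, N z = ‖Algebra.norm F z‖ ^ (1 / (finrank F D : ℝ))) (t : F) (z : D) :
    N z ≤ ‖t‖ → ‖Algebra.norm F z‖ ≤ ‖t‖ ^ finrank F D := by
  intro h
  have hn : 1 ≤ finrank F D := Module.finrank_pos
  have h1 : N z ^ finrank F D = ‖Algebra.norm F z‖ := by
    rw [hN, one_div, Real.rpow_inv_natCast_pow (norm_nonneg _) (by omega)]
  rw [← h1]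
  have h2 : 0 ≤ N z := by
    rw [hN]
    exact Real.rpow_nonneg (norm_nonneg _) _
  exact pow_le_pow_left₀ h2 h _

/-- The sharp form. -/
theorem sharp (hGEN : Stmt_GEN) (hCL1 : Stmt_CL1) (hITER1 : Stmt_ITER1) (hDN1 : Stmt_DN1) (hMUL : Stmt_MUL)
    (hNNM : Stmt_NNM) (hNE : Stmt_NE)
    (p : ℕ) [Fact p.Prime] (F E A D : Type) [NontriviallyNormedField F]
    [NormedAlgebra ℚ_[p] F] [FiniteDimensional ℚ_[p] F] [NormedField E] [NormedAlgebra F E]
    [NormedRing A] [NormedAlgebra F A] [Algebra.IsCentral F A] [IsSimpleRing A]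
    [FiniteDimensional F A] [DivisionRing D] [Algebra F D] [FiniteDimensional F D]
    (k m : ℕ) (hE : finrank F E = 2) (hA : finrank F A = (2 * k) ^ 2) (hm : Odd m)
    (e : A ≃ₐ[F] Matrix (Fin m) (Fin m) D) (ι : E →ₐ[F] A) (hp : 2 * k < p) :
    ∀ t : F, t ≠ 0 → ‖t‖ < 1 → ∀ (χ : E →*₀ ℂ) (ω : F →*₀ ℂ),
      (∀ᶠ x in 𝓝 (1 : E), χ x = 1) → (∀ᶠ x in 𝓝 (1 : F), ω x = 1) →
      ∀ (V : Type) [AddCommGroup V] [Module ℂ V] (π : Representation ℂ Aˣ V),
      (∀ W : Submodule ℂ V, (∀ g : Aˣ, ∀ x ∈ W, π g x ∈ W) →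
        (∀ v : V, (∀ u : Aˣ, (∀ i j, ‖Algebra.norm F ((e (u : A) - 1) i j)‖ ≤
          ‖t‖ ^ finrank F D) → π u v = ω (nrd F (u : A)) • v) → v ∈ W) → W = ⊤) →
      (∃ ℓ : Module.Dual ℂ V, IsPeriod ι χ π ℓ ∧ ℓ ≠ 0) →
      ∀ x : E, ‖x - 1‖ ≤ ‖t‖ → χ x = ω (Algebra.norm F x) := by
  obtain ⟨i1, i2, i3, i4, -⟩ := stmt_LFD p F
  have := i1
  have := i2
  have := i3
  have hfE : FiniteDimensional F E := Module.finite_of_finrank_pos (by omega)
  have hk : 0 < k := by
    rcases Nat.eq_zero_or_pos k with h | h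
    · have h1 : 0 < finrank F A := Module.finrank_pos
      rw [hA, h] at h1
      simp at h1
    · exact h
  -- naturals
  have hnat : ∀ j : ℕ, ‖(j : F)‖ = ‖(j : ℚ_[p])‖ := by
    intro j
    have h1 : (j : F) = algebraMap ℚ_[p] F (j : ℚ_[p]) := (map_natCast _ j).symm
    rw [h1, norm_algebraMap']
  have hbig : ∀ j : ℕ, 0 < j → j ≤ 2 * k → ‖(j : F)‖ = 1 := by
    intro j hj hj2
    rw [hnat]
    have h1 : ¬ (p ∣ j) := fun h => absurd (Nat.le_of_dvd hj h) (by omega)
    exact (Padic.norm_natCast_eq_one_iff).mpr ((Nat.Prime.coprime_iff_not_dvd Fact.out).mpr h1)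
  have hnat1 : ∀ j : ℕ, ‖(j : E)‖ ≤ 1 := by
    intro j
    have h1 : (j : E) = algebraMap F E (j : F) := (map_natCast _ j).symm
    rw [h1, norm_algebraMap', hnat]
    have h2 := Padic.norm_int_le_one (p := p) (j : ℤ)
    rwa [Int.cast_natCast] at h2
  have hult : IsUltrametricDist E := IsUltrametricDist.isUltrametricDist_of_forall_norm_natCast_le_one hnat1
  have hultE : ∀ x y : E, ‖x + y‖ ≤ max ‖x‖ ‖y‖ := fun x y => IsUltrametricDist.norm_add_le_max x y
  have hm2 : m ≤ 2 * k := by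
    have h1 : finrank F A = m * m * finrank F D := by
      rw [LinearEquiv.finrank_eq e.toLinearEquiv, Module.finrank_matrix]
      simp
    have h2 : 1 ≤ finrank F D := Module.finrank_pos
    rw [hA] at h1
    by_contra hcon
    push Not at hcon
    have h3 : (2 * k) ^ 2 < m * m := by nlinarith
    have h4 : m * m ≤ m * m * finrank F D := Nat.le_mul_of_pos_right _ (by omega)
    omega
  obtain ⟨N, hN, hNe⟩ := hDN1 p F D
  obtain ⟨δ₀, a₀, hsq, hns, hcent⟩ := stmt_QE F E A ι hE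
  obtain ⟨s, hs0, hs, hcoord⟩ := hGEN F E (by
    have := hbig 2 (by omega) (by omega)
    exact_mod_cast this) hultE (hNE F E hE) hE δ₀ a₀ hsq hns
  have hdata : Data F E A ι k (algebraMap F E s * δ₀) (s ^ 2 * a₀) := by
    refine ⟨hE, hA, ?_, ?_, ?_⟩
    · rw [mul_pow, hsq, map_mul, map_pow]
    · intro b hb
      apply hns (b / s)
      rw [div_pow, hb]
      field_simp
    · intro x
      rw [hcent]
      have h1 : ι (algebraMap F E s * δ₀) = s • ι δ₀ := by
        rw [map_mul, AlgHom.commutes, Algebra.smul_def]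
      rw [h1, smul_mul_assoc, mul_smul_comm]
      constructor
      · intro h
        rw [h]
      · intro h
        have := congrArg (fun z => s⁻¹ • z) h
        simpa [smul_smul, inv_mul_cancel₀ hs0] using this
  obtain ⟨hmulF, honeF, -, -⟩ := hMUL F E A ι k _ _ hdata
  obtain ⟨hnnm, -, -⟩ := hNNM F E A ι k _ _ hdata
  have hcl := hCL1 F E A D N ι k _ _ m e hN hdata hs hm hultE hbig hm2 hcoord
  rintro t ht0 ht1 χ ω hχ hω V _ _ π hgen ⟨ℓ, hℓ, hℓ0⟩ x hx
  obtain ⟨g, hg⟩ := rep3 ι χ ω π _ ℓ hgen hℓ hℓ0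
  have htw : ∀ᶠ x in 𝓝 (1 : E), twist χ ω x = 1 := by
    have h2 : Filter.Tendsto (fun x : E => Algebra.norm F x) (𝓝 1) (𝓝 1) := by
      have h3 := (NE.cont F E).tendsto 1
      rw [map_one] at h3
      exact h3
    filter_upwards [hχ, h2.eventually hω] with x hx1 hx2
    rw [twist_apply, hx1, hx2, inv_one, mul_one]
  have hfin := hITER1 F E hultE t ht0 ht1 (twist χ ω) htw (by
    intro s' hs'0 hs't w hw
    obtain ⟨h, hh, hK, hest⟩ := hcl s' hs'0 (hs't.trans_lt ht1) g w hw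
    refine ⟨nrd E (⟨(h : A), hh⟩ : Cent ι), ?_, hest⟩
    have h2 := hg h hh (by
      intro i j
      exact level_iff hNe t _ ((hK i j).trans hs't))
    have hconj : nrd F ((g⁻¹ * h * g : Aˣ) : A) = nrd F (h : A) := by
      rw [Units.val_mul, Units.val_mul, hmulF, hmulF]
      have h3 : nrd F ((g⁻¹ : Aˣ) : A) * nrd F (g : A) = 1 := by
        rw [← hmulF, Units.inv_mul, honeF]
      calc nrd F ((g⁻¹ : Aˣ) : A) * nrd F (h : A) * nrd F (g : A)
          = (nrd F ((g⁻¹ : Aˣ) : A) * nrd F (g : A)) * nrd F (h : A) := by ring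
        _ = nrd F (h : A) := by rw [h3, one_mul]
    have h4 : nrd F (h : A) = Algebra.norm F (nrd E (⟨(h : A), hh⟩ : Cent ι)) :=
      hnnm ⟨(h : A), hh⟩
    have h5 : ω (Algebra.norm F (nrd E (⟨(h : A), hh⟩ : Cent ι))) ≠ 0 := by
      rw [← h4]
      intro h0
      have h6 : nrd F (h : A) = 0 := (map_eq_zero ω).mp h0
      have h7 : nrd F (h : A) * nrd F ((h⁻¹ : Aˣ) : A) = 1 := by
        rw [← hmulF, Units.mul_inv, honeF]
      rw [h6, zero_mul] at h7
      exact zero_ne_one h7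
    rw [hconj, h4] at h2
    rw [twist_apply, h2, mul_inv_cancel₀ h5]) x hx
  rw [twist_apply] at hfin
  have h8 : ω (Algebra.norm F x) ≠ 0 := by
    intro h0
    rw [h0, inv_zero, mul_zero] at hfin
    exact zero_ne_one hfin
  field_simp at hfin
  exact hfin

end Pool.Agent.VPer
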