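import Pool.Agent.Work.MP_037d19_vp.Plain
import Pool.Agent.Work.MP_037d19_vp.Sharp
import Pool.Agent.Work.MP_037d19_vp.B_NRB
import Pool.Agent.Work.MP_037d19_vp.B_LAG1
import Pool.Agent.Work.MP_037d19_vp.B_GEN
import Pool.Agent.Work.MP_037d19_vp.B_TGT1
import Pool.Agent.Work.MP_037d19_vp.B_CL1
import Pool.Agent.Work.MP_037d19_vp.B_ITER1
import Pool.Agent.Work.MP_037d19_vp.B_DN1

/-!
# Vanishing of linear periods: both parts
-/

namespace Pool.Agent.VPer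

open Pool.Agent.LPer
open scoped Polynomial Topology
open Module (finrank)

theorem both (p : ℕ) [Fact p.Prime] (F E A D : Type) [NontriviallyNormedField F]
    [NormedAlgebra ℚ_[p] F] [FiniteDimensional ℚ_[p] F] [NormedField E] [NormedAlgebra F E]
    [NormedRing A] [NormedAlgebra F A] [Algebra.IsCentral F A] [IsSimpleRing A]
    [FiniteDimensional F A] [DivisionRing D] [Algebra F D] [FiniteDimensional F D]
    (k m : ℕ) (hE : finrank F E = 2) (hA : finrank F A = (2 * k) ^ 2) (hm : Odd m)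
    (e : A ≃ₐ[F] Matrix (Fin m) (Fin m) D) (ι : E →ₐ[F] A) :
    (∃ c : ℝ, 0 < c ∧ ∀ ε : ℝ, 0 < ε → ε ≤ 1 →
      PeriodForces ι (fun u : Aˣ => ‖(u : A) - 1‖ < ε) (c * ε)) ∧
    (2 * k < p → ∀ t : F, t ≠ 0 → ‖t‖ < 1 →
      PeriodForces ι (fun u : Aˣ => ∀ i j, ‖Algebra.norm F ((e (u : A) - 1) i j)‖ ≤
        ‖t‖ ^ finrank F D) ‖t‖) := by
  have hNRP := stmt_NRP stmt_CHP stmt_ROOT
  have hW := stmt_W stmt_J0
  have hNRD := stmt_NRD hNRP stmt_SPL stmt_CEN hW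
  have hMUL := stmt_MUL hNRD
  have hNNM := stmt_NNM hNRP stmt_CEN hW hNRD
  have hKEYM := stmt_KEYM stmt_SNF stmt_RANK
  have hKEYA := stmt_KEYA hKEYM stmt_TRM
  have hPOLY := stmt_POLY hNRD
  have hRB := stmt_RB
  have hNE := stmt_NE stmt_ANN
  have hBND := p_BND hRB hNE hNNM hMUL hNRD stmt_CDET
  have hNRB := stmt_NRB hBND hMUL
  have hLAG1 := stmt_LAG1
  have hTGT1 := stmt_TGT1 hKEYA hPOLY hW hNRB hLAG1
  have hCL1 := stmt_CL1 hRB hTGT1 hNRB hLAG1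
  refine ⟨?_, ?_⟩
  · obtain ⟨c, hc, h⟩ := strong p F E A D k m hE hA hm e ι
    refine ⟨c, hc, ?_⟩
    intro ε hε hε1 χ ω hχ hω V _ _ π hgen hper
    exact h ε hε hε1 χ ω hχ hω V π hgen hper
  · intro hp t ht0 ht1 χ ω hχ hω V _ _ π hgen hper
    exact sharp stmt_GEN hCL1 stmt_ITER1 stmt_DN1 hMUL hNNM hNE p F E A D k m hE hA hm e ι hp
      t ht0 ht1 χ ω hχ hω V π hgen hper

end Pool.Agent.VPer
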