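import Pool.Agent.Work.MP_037d19_vp.Main2
import Pool.Agent.Work.MP_037d19_vp.FinChars
import Pool.Agent.Work.MP_037d19_vp.B_SCH
import Pool.Agent.Work.MP_037d19_vp.FAx
import Pool.Agent.Work.MP_037d19_vp.FBx
import Pool.Agent.Work.MP_037d19_vp.B_FINC

/-!
# Vanishing of linear periods: the three parts
-/

namespace Pool.Agent.VPer

open Pool.Agent.LPer
open scoped Topology
open Module (finrank)

theorem three (p : ℕ) [Fact p.Prime] (F E A D : Type) [NontriviallyNormedField F]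
    [NormedAlgebra ℚ_[p] F] [FiniteDimensional ℚ_[p] F] [NormedField E] [NormedAlgebra F E]
    [NormedRing A] [NormedAlgebra F A] [Algebra.IsCentral F A] [IsSimpleRing A]
    [FiniteDimensional F A] [DivisionRing D] [Algebra F D] [FiniteDimensional F D]
    (k m : ℕ) (hE : finrank F E = 2) (hA : finrank F A = (2 * k) ^ 2) (hm : Odd m)
    (e : A ≃ₐ[F] Matrix (Fin m) (Fin m) D) (ι : E →ₐ[F] A) :
    (∃ c : ℝ, 0 < c ∧ ∀ ε : ℝ, 0 < ε → ε ≤ 1 →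
      PeriodForces ι (fun u : Aˣ => ‖(u : A) - 1‖ < ε) (c * ε)) ∧
    (2 * k < p → ∀ t : F, t ≠ 0 → ‖t‖ < 1 →
      PeriodForces ι (fun u : Aˣ => ∀ i j, ‖Algebra.norm F ((e (u : A) - 1) i j)‖ ≤
        ‖t‖ ^ finrank F D) ‖t‖) ∧
    ∀ (V : Type) [AddCommGroup V] [Module ℂ V] (π : Representation ℂ Aˣ V), IrrAdm π →
      {χ : E →*₀ ℂ | (∀ᶠ x in 𝓝 (1 : E), χ x = 1) ∧
        ∃ ℓ : Module.Dual ℂ V, IsPeriod ι χ π ℓ ∧ ℓ ≠ 0}.Finite := by
  have hNRP := stmt_NRP stmt_CHP stmt_ROOT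
  have hW := stmt_W stmt_J0
  have hNRD := stmt_NRD hNRP stmt_SPL stmt_CEN hW
  have hMUL := stmt_MUL hNRD
  have hNNM := stmt_NNM hNRP stmt_CEN hW hNRD
  obtain ⟨h1, h2⟩ := both p F E A D k m hE hA hm e ι
  refine ⟨h1, h2, ?_⟩
  intro V _ _ π hπ
  exact finite_chars (stmt_SCH hNNM) (stmt_FINC stmt_FA (stmt_FB stmt_FA)) hMUL p F E A D k m hE
    hA hm e ι V π hπ

end Pool.Agent.VPer
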