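import Pool.Agent.Work.MP_037d19_lp.Defs2
import Pool.Agent.Work.MP_037d19_lp.Defs3

/-!
# Vanishing of linear periods: the notions of the final statement
-/

namespace Pool.Agent.VPer

open Pool.Agent.LPer
open scoped Topology

/-- `V` is generated, as a representation of `A^×`, by its vectors `v` with
`π(u)v = ω(Nrd u)v` for all units `u` satisfying `S`. -/
def GeneratedBy {F A V : Type} [Field F] [Ring A] [Algebra F A] [FiniteDimensional F A]
    [AddCommGroup V] [Module ℂ V] (ω : F → ℂ) (π : Representation ℂ Aˣ V) (S : Aˣ → Prop) :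
    Prop :=
  ∀ W : Submodule ℂ V, (∀ g : Aˣ, ∀ x ∈ W, π g x ∈ W) →
    (∀ v : V, (∀ u : Aˣ, S u → π u v = ω (nrd F (u : A)) • v) → v ∈ W) → W = ⊤

/-- For all smooth characters `χ` of `E^×` and `ω` of `F^×` and every representation `π` of `A^×`
generated by its vectors `v` with `π(u)v = ω(Nrd u)v` for all `u` satisfying `S`: if
`Hom_H(π, χ ∘ Nrd)` is not zero, then `χ = ω ∘ N_{E/F}` on the ball `‖x - 1‖ ≤ r`. -/
def PeriodForces {F E A : Type} [NormedField F] [NormedField E] [Algebra F E] [Ring A]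
    [Algebra F A] [FiniteDimensional F A] (ι : E →ₐ[F] A) (S : Aˣ → Prop) (r : ℝ) : Prop :=
  ∀ (χ : E →*₀ ℂ) (ω : F →*₀ ℂ), (∀ᶠ x in 𝓝 (1 : E), χ x = 1) →
    (∀ᶠ x in 𝓝 (1 : F), ω x = 1) → ∀ (V : Type) [AddCommGroup V] [Module ℂ V]
    (π : Representation ℂ Aˣ V), GeneratedBy ω π S →
    (∃ ℓ : Module.Dual ℂ V, IsPeriod ι χ π ℓ ∧ ℓ ≠ 0) →
    ∀ x : E, ‖x - 1‖ ≤ r → χ x = ω (Algebra.norm F x)

end Pool.Agent.VPer
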