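import Pool.Agent.Work.MP_037d19_vp.Main

/-!
# Vanishing of linear periods: the strong form with a linear radius
-/

namespace Pool.Agent.VPer

open Pool.Agent.LPer
open scoped Polynomial Topology
open Module (finrank)

/-- Approximation with a linear radius. -/
theorem clg2 (hRB : Stmt_RB) (hTGT : Stmt_TGT) (hEST : Stmt_EST)
    (F E A D : Type) [NontriviallyNormedField F] [CompleteSpace F] [ProperSpace F] [CharZero F]
    [NormedField E] [NormedAlgebra F E] [NormedRing A] [NormedAlgebra F A]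
    [Algebra.IsCentral F A] [IsSimpleRing A] [FiniteDimensional F A] [DivisionRing D]
    [Algebra F D] [FiniteDimensional F D] (N : D → ℝ) (ι : E →ₐ[F] A) (k : ℕ) (δE : E) (a : F)
    (m : ℕ) (e : A ≃ₐ[F] Matrix (Fin m) (Fin m) D) (hN : DNorm F N) (hD : Data F E A ι k δE a)
    (ha : ‖a‖ ≤ 1) (hm : Odd m) : ∃ M C : ℝ, 0 < M ∧ 0 < C ∧ ∀ ε : ℝ, 0 < ε → ε ≤ 1 →
      ∀ (g : Aˣ) (w : E), ‖w‖ ≤ M * ε → ∃ (h : Aˣ) (hh : (h : A) ∈ Cent ι),
        ‖((g⁻¹ * h * g : Aˣ) : A) - 1‖ < ε ∧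
        ‖nrd E (⟨(h : A), hh⟩ : Cent ι) - 1 - w‖ ≤ C * ‖w‖ ^ 2 := by
  obtain ⟨B, hB, hRB'⟩ := hRB F A D N m e hN
  obtain ⟨c₁, hc₁, hT⟩ := hTGT F E A D N ι k δE a m e hN hD ha hm
  obtain ⟨C, hC, hE⟩ := hEST F E A D N ι k δE a m e hN hD
  have hcA : CompleteSpace A := FiniteDimensional.complete F A
  obtain ⟨c, hc⟩ := NormedField.exists_one_lt_norm F
  have hcpos : 0 < ‖c‖ := one_pos.trans hc
  set M : ℝ := c₁⁻¹ * ‖c‖ with hM
  have hMpos : 0 < M := by positivity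
  refine ⟨min (1 / M) (1 / (2 * B * M)), C * M ^ 2, lt_min (by positivity) (by positivity),
    by positivity, ?_⟩
  intro ε hε hε1 g w hw
  have hw1 : ‖w‖ ≤ 1 / M := by
    calc ‖w‖ ≤ min (1 / M) (1 / (2 * B * M)) * ε := hw
      _ ≤ (1 / M) * 1 := by
          apply mul_le_mul (min_le_left _ _) hε1 hε.le
          positivity
      _ = 1 / M := mul_one _
  have hw2 : ‖w‖ ≤ ε / (2 * B * M) := by
    calc ‖w‖ ≤ min (1 / M) (1 / (2 * B * M)) * ε := hw
      _ ≤ (1 / (2 * B * M)) * ε := mul_le_mul_of_nonneg_right (min_le_right _ _) hε.le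
      _ = ε / (2 * B * M) := by ring
  by_cases hw0 : w = 0
  · obtain ⟨y, Q, -, -, hQ0, -, hQ⟩ := hT g 0 (by rw [norm_zero]; exact hc₁.le)
    have h1 : nrd E (1 : Cent ι) = 1 := by
      have h2 := hQ 0
      rw [map_zero, ← Polynomial.coeff_zero_eq_eval_zero, hQ0, zero_smul, add_zero] at h2
      exact h2.symm
    refine ⟨1, by rw [Units.val_one]; exact (Cent ι).one_mem, ?_, ?_⟩
    · rw [mul_one, inv_mul_cancel, Units.val_one, sub_self, norm_zero]
      exact hε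
    · have h3 : (⟨((1 : Aˣ) : A), by rw [Units.val_one]; exact (Cent ι).one_mem⟩ : Cent ι) = 1 := by
        apply Subtype.ext
        exact Units.val_one
      rw [h3, h1, hw0]
      simp
  obtain ⟨d, hd0, hd1, -, hd2⟩ := rescale_to_shell (𝕜 := F) hc hc₁ hw0
  obtain ⟨y, Q, hy, hdeg, hQ0, hQ1, hQ⟩ := hT g (d • w) hd1.le
  set t : F := d⁻¹ with ht
  have htn : ‖t‖ ≤ M * ‖w‖ := by
    rw [ht, norm_inv]
    exact hd2
  have ht1 : ‖t‖ ≤ 1 := by
    refine htn.trans ?_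
    rw [le_div_iff₀ hMpos] at hw1
    linarith
  have ht2 : ‖t‖ * B < ε := by
    have h1 : ‖w‖ * (2 * B * M) ≤ ε := (le_div_iff₀ (by positivity)).mp hw2
    have h2 : ‖t‖ * B ≤ M * ‖w‖ * B := mul_le_mul_of_nonneg_right htn hB.le
    nlinarith
  set u : A := ((g⁻¹ : Aˣ) : A) * (y : A) * g with hu
  have hun : ‖u‖ ≤ B := hRB' u hy
  have htu : ‖t • u‖ < ε := by
    rw [norm_smul]
    refine lt_of_le_of_lt ?_ ht2
    gcongr
  obtain ⟨κ, hκ⟩ : ∃ κ : Aˣ, (κ : A) = 1 + t • u := by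
    refine ⟨Units.oneSub (-(t • u)) (by rw [norm_neg]; exact htu.trans_le hε1), ?_⟩
    rw [Units.val_oneSub, sub_neg_eq_add]
  have hval : ((g * κ * g⁻¹ : Aˣ) : A) = 1 + t • (y : A) := by
    rw [Units.val_mul, Units.val_mul, hκ, hu, mul_add, mul_one, add_mul, Units.mul_inv,
      mul_smul_comm, smul_mul_assoc]
    congr 2
    calc (g : A) * (((g⁻¹ : Aˣ) : A) * (y : A) * g) * ((g⁻¹ : Aˣ) : A)
        = ((g : A) * ((g⁻¹ : Aˣ) : A)) * (y : A) * ((g : A) * ((g⁻¹ : Aˣ) : A)) := by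
          noncomm_ring
      _ = (y : A) := by rw [Units.mul_inv, one_mul, mul_one]
  have hhC : ((g * κ * g⁻¹ : Aˣ) : A) ∈ Cent ι := by
    rw [hval]
    exact ((1 + t • y : Cent ι)).2
  have hsub : (⟨((g * κ * g⁻¹ : Aˣ) : A), hhC⟩ : Cent ι) = 1 + t • y := by
    apply Subtype.ext
    exact hval
  refine ⟨g * κ * g⁻¹, hhC, ?_, ?_⟩
  · have h1 : g⁻¹ * (g * κ * g⁻¹) * g = κ := by group
    rw [h1, hκ, add_sub_cancel_left]
    exact htu
  · rw [hsub]
    have h1 := hE g y Q hy hdeg hQ0 hQ t ht1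
    have h2 : algebraMap F E t * Q.coeff 1 = w := by
      rw [hQ1, ← Algebra.smul_def, smul_smul, ht, inv_mul_cancel₀ hd0, one_smul]
    rw [h2] at h1
    refine h1.trans ?_
    have h3 : ‖t‖ ^ 2 ≤ (M * ‖w‖) ^ 2 := by gcongr
    calc C * ‖t‖ ^ 2 ≤ C * (M * ‖w‖) ^ 2 := by gcongr
      _ = C * M ^ 2 * ‖w‖ ^ 2 := by ring

/-- Successive approximation with explicit radius. -/
theorem iter2 {E : Type} [NormedField E] (r₁ C : ℝ) (hr₁ : 0 < r₁) (hC : 0 < C)
    (h2 : r₁ ≤ 1 / 4) (h3 : C * r₁ ≤ 1 / 4) (χ : E →*₀ ℂ) (hχ : ∀ᶠ x in 𝓝 (1 : E), χ x = 1)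
    (happ : ∀ w : E, ‖w‖ ≤ r₁ → ∃ u : E, χ u = 1 ∧ ‖u - 1 - w‖ ≤ C * ‖w‖ ^ 2) :
    ∀ x : E, ‖x - 1‖ ≤ r₁ → χ x = 1 := by
  intro x hx
  have step : ∀ e : E, ‖e - 1‖ ≤ r₁ → ∃ e' : E, χ e' = χ e ∧ ‖e' - 1‖ ≤ ‖e - 1‖ / 2 := by
    intro e he
    obtain ⟨u, hu, hue⟩ := happ (e - 1) he
    have hw0 : 0 ≤ ‖e - 1‖ := norm_nonneg _
    have hCw : C * ‖e - 1‖ ≤ 1 / 4 := (mul_le_mul_of_nonneg_left he hC.le).trans h3
    have hue' : ‖u - e‖ ≤ 1 / 4 * ‖e - 1‖ := by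
      have h5 : u - 1 - (e - 1) = u - e := by ring
      rw [h5] at hue
      refine hue.trans ?_
      rw [pow_two, ← mul_assoc]
      exact mul_le_mul_of_nonneg_right hCw hw0
    have hun : 1 / 2 ≤ ‖u‖ := by
      have h6 : (1 : ℝ) ≤ ‖u‖ + ‖u - e‖ + ‖e - 1‖ := by
        have h7 : (1 : E) = u - (u - e) - (e - 1) := by ring
        calc (1 : ℝ) = ‖(1 : E)‖ := norm_one.symm
          _ = ‖u - (u - e) - (e - 1)‖ := by rw [← h7]
          _ ≤ ‖u - (u - e)‖ + ‖e - 1‖ := norm_sub_le _ _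
          _ ≤ ‖u‖ + ‖u - e‖ + ‖e - 1‖ := by
              gcongr
              exact norm_sub_le _ _
      have h8 : ‖e - 1‖ ≤ 1 / 4 := he.trans h2
      linarith
    have hu0 : u ≠ 0 := by
      intro h
      rw [h, norm_zero] at hun
      linarith
    refine ⟨e / u, ?_, ?_⟩
    · rw [map_div₀, hu, div_one]
    · have h9 : e / u - 1 = (e - u) / u := by
        field_simp
      rw [h9, norm_div, norm_sub_rev, div_le_iff₀ (by linarith)]
      nlinarith
  have hall : ∀ n : ℕ, ∃ e : E, χ e = χ x ∧ ‖e - 1‖ ≤ r₁ / 2 ^ n := by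
    intro n
    induction n with
    | zero => exact ⟨x, rfl, by simpa using hx⟩
    | succ n ih =>
      obtain ⟨e, he, he'⟩ := ih
      have h10 : r₁ / 2 ^ n ≤ r₁ := by
        apply div_le_self hr₁.le
        exact one_le_pow₀ (by norm_num)
      obtain ⟨e', h11, h12⟩ := step e (he'.trans h10)
      refine ⟨e', h11.trans he, h12.trans ?_⟩
      rw [pow_succ, ← div_div]
      linarith
  obtain ⟨ε, hε, hε'⟩ := Metric.eventually_nhds_iff.1 hχ
  obtain ⟨n, hn⟩ := exists_pow_lt_of_lt_one (div_pos hε hr₁) (by norm_num : (1 / 2 : ℝ) < 1)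
  obtain ⟨e, he, he'⟩ := hall n
  rw [← he]
  apply hε'
  rw [dist_eq_norm]
  refine he'.trans_lt ?_
  rw [lt_div_iff₀ hr₁] at hn
  calc r₁ / 2 ^ n = (1 / 2) ^ n * r₁ := by
        rw [div_pow, one_pow]
        ring
    _ < ε := hn

/-- The period and the equivariant vectors. -/
theorem rep2 {F E A V : Type} [NormedField F] [Field E] [Algebra F E] [NormedRing A]
    [NormedAlgebra F A] [FiniteDimensional F A] [AddCommGroup V] [Module ℂ V] (ι : E →ₐ[F] A)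
    (χ : E → ℂ) (ω : F → ℂ) (π : Representation ℂ Aˣ V) (ε : ℝ) (ℓ : Module.Dual ℂ V)
    (hgen : ∀ W : Submodule ℂ V, (∀ g : Aˣ, ∀ x ∈ W, π g x ∈ W) →
      (∀ v : V, (∀ u : Aˣ, ‖(u : A) - 1‖ < ε → π u v = ω (nrd F (u : A)) • v) → v ∈ W) → W = ⊤)
    (hper : IsPeriod ι χ π ℓ) (hℓ : ℓ ≠ 0) :
    ∃ g : Aˣ, ∀ (h : Aˣ) (hh : (h : A) ∈ Cent ι), ‖((g⁻¹ * h * g : Aˣ) : A) - 1‖ < ε →
      χ (nrd E (⟨(h : A), hh⟩ : Cent ι)) = ω (nrd F ((g⁻¹ * h * g : Aˣ) : A)) := by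
  have hex : ∃ (v : V) (g : Aˣ), (∀ u : Aˣ, ‖(u : A) - 1‖ < ε → π u v = ω (nrd F (u : A)) • v) ∧
      ℓ (π g v) ≠ 0 := by
    by_contra hcon
    push Not at hcon
    let W : Submodule ℂ V :=
      { carrier := {x | ∀ g : Aˣ, ℓ (π g x) = 0}
        add_mem' := by
          intro a b ha hb g
          rw [map_add, map_add, ha g, hb g, add_zero]
        zero_mem' := by
          intro g
          rw [map_zero, map_zero]
        smul_mem' := by
          intro c x hx g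
          rw [map_smul, map_smul, hx g, smul_zero] }
    have hW : ∀ x : V, x ∈ W ↔ ∀ g : Aˣ, ℓ (π g x) = 0 := fun x => Iff.rfl
    have hst : ∀ g : Aˣ, ∀ x ∈ W, π g x ∈ W := by
      intro g x hx
      rw [hW] at hx ⊢
      intro g'
      have h1 : π g' (π g x) = π (g' * g) x := by
        rw [map_mul]
        rfl
      rw [h1]
      exact hx _
    have h := hgen W hst (fun v hv => (hW v).2 (fun g => hcon v g hv))
    apply hℓ
    apply LinearMap.ext
    intro x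
    have h1 : x ∈ W := by
      rw [h]
      exact Submodule.mem_top
    have h2 := (hW x).1 h1 1
    rw [map_one] at h2
    exact h2
  obtain ⟨v, g, hv, hg⟩ := hex
  refine ⟨g, fun h hh hmem => ?_⟩
  have h1 := hper h hh (π g v)
  have h2 : π h (π g v) = ω (nrd F ((g⁻¹ * h * g : Aˣ) : A)) • π g v := by
    have h3 : π h (π g v) = π (h * g) v := by
      rw [map_mul]
      rfl
    have h4 : h * g = g * (g⁻¹ * h * g) := by group
    have h5 : π (g * (g⁻¹ * h * g)) v = π g (π (g⁻¹ * h * g) v) := by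
      rw [map_mul π g (g⁻¹ * h * g)]
      rfl
    rw [h3, h4, h5, hv _ hmem, map_smul]
  rw [h2, map_smul, smul_eq_mul] at h1
  exact (mul_right_cancel₀ hg h1).symm

/-- The character `χ · (ω ∘ N)⁻¹`. -/
noncomputable def twist {F E : Type} [Field F] [Field E] [Algebra F E] [FiniteDimensional F E]
    (χ : E →*₀ ℂ) (ω : F →*₀ ℂ) : E →*₀ ℂ where
  toFun x := χ x * (ω (Algebra.norm F x))⁻¹
  map_zero' := by simp
  map_one' := by simp
  map_mul' x y := by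
    rw [map_mul, map_mul, map_mul, mul_inv]
    ring

theorem twist_apply {F E : Type} [Field F] [Field E] [Algebra F E] [FiniteDimensional F E]
    (χ : E →*₀ ℂ) (ω : F →*₀ ℂ) (x : E) : twist χ ω x = χ x * (ω (Algebra.norm F x))⁻¹ := rfl

/-- The strong form. -/
theorem strong (p : ℕ) [Fact p.Prime] (F E A D : Type) [NontriviallyNormedField F]
    [NormedAlgebra ℚ_[p] F] [FiniteDimensional ℚ_[p] F] [NormedField E] [NormedAlgebra F E]
    [NormedRing A] [NormedAlgebra F A] [Algebra.IsCentral F A] [IsSimpleRing A]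
    [FiniteDimensional F A] [DivisionRing D] [Algebra F D] [FiniteDimensional F D]
    (k m : ℕ) (hE : finrank F E = 2) (hA : finrank F A = (2 * k) ^ 2) (hm : Odd m)
    (e : A ≃ₐ[F] Matrix (Fin m) (Fin m) D) (ι : E →ₐ[F] A) :
    ∃ c : ℝ, 0 < c ∧ ∀ (ε : ℝ), 0 < ε → ε ≤ 1 → ∀ (χ : E →*₀ ℂ) (ω : F →*₀ ℂ),
      (∀ᶠ x in 𝓝 (1 : E), χ x = 1) → (∀ᶠ x in 𝓝 (1 : F), ω x = 1) →
      ∀ (V : Type) [AddCommGroup V] [Module ℂ V] (π : Representation ℂ Aˣ V),
      (∀ W : Submodule ℂ V, (∀ g : Aˣ, ∀ x ∈ W, π g x ∈ W) →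
        (∀ v : V, (∀ u : Aˣ, ‖(u : A) - 1‖ < ε → π u v = ω (nrd F (u : A)) • v) → v ∈ W) →
        W = ⊤) →
      (∃ ℓ : Module.Dual ℂ V, IsPeriod ι χ π ℓ ∧ ℓ ≠ 0) →
      ∀ x : E, ‖x - 1‖ ≤ c * ε → χ x = ω (Algebra.norm F x) := by
  have hNRP := stmt_NRP stmt_CHP stmt_ROOT
  have hW := stmt_W stmt_J0
  have hNRD := stmt_NRD hNRP stmt_SPL stmt_CEN hW
  have hMUL := stmt_MUL hNRD
  have hNNM := stmt_NNM hNRP stmt_CEN hW hNRD
  have hKEYM := stmt_KEYM stmt_SNF stmt_RANK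
  have hKEYA := stmt_KEYA hKEYM stmt_TRM
  have hPOLY := stmt_POLY hNRD
  have hRB := stmt_RB
  have hNE := stmt_NE stmt_ANN
  have hTGT := stmt_TGT hKEYA hPOLY hRB hW
  have hBND := p_BND hRB hNE hNNM hMUL hNRD stmt_CDET
  have hEST := stmt_EST hBND p_LAG
  obtain ⟨i1, i2, i3, i4, -⟩ := stmt_LFD p F
  have := i1
  have := i2
  have := i3
  have hfE : FiniteDimensional F E := Module.finite_of_finrank_pos (by omega)
  obtain ⟨N, hN⟩ := stmt_DN p F D
  obtain ⟨δ₀, a₀, hsq, hns, hcent⟩ := stmt_QE F E A ι hE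
  obtain ⟨s, hs0, hs⟩ := exists_small (F := F) a₀
  have hdata : Data F E A ι k (algebraMap F E s * δ₀) (s ^ 2 * a₀) := by
    refine ⟨hE, hA, ?_, ?_, ?_⟩
    · rw [mul_pow, hsq, map_mul, map_pow]
    · intro b hb
      apply hns (b / s)
      rw [div_pow, hb]
      field_simp
    · intro x
      rw [hcent]
      have h1 : ι (algebraMap F E s * δ₀) = s • ι δ₀ := by
        rw [map_mul, AlgHom.commutes, Algebra.smul_def]
      rw [h1, smul_mul_assoc, mul_smul_comm]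
      constructor
      · intro h
        rw [h]
      · intro h
        have := congrArg (fun z => s⁻¹ • z) h
        simpa [smul_smul, inv_mul_cancel₀ hs0] using this
  obtain ⟨M, C, hM, hC, h1⟩ := clg2 hRB hTGT hEST F E A D N ι k _ _ m e hN hdata hs hm
  obtain ⟨hmulF, honeF, -, -⟩ := hMUL F E A ι k _ _ hdata
  obtain ⟨hnnm, -, -⟩ := hNNM F E A ι k _ _ hdata
  refine ⟨min M (min (1 / 4) (1 / (4 * C))), lt_min hM (lt_min (by norm_num) (by positivity)), ?_⟩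
  rintro ε hε hε1 χ ω hχ hω V _ _ π hgen ⟨ℓ, hℓ, hℓ0⟩ x hx
  obtain ⟨g, hg⟩ := rep2 ι χ ω π ε ℓ hgen hℓ hℓ0
  set c : ℝ := min M (min (1 / 4) (1 / (4 * C))) with hc
  have hcpos : 0 < c := lt_min hM (lt_min (by norm_num) (by positivity))
  have hc1 : c ≤ M := min_le_left _ _
  have hc2 : c ≤ 1 / 4 := (min_le_right _ _).trans (min_le_left _ _)
  have hc3 : c ≤ 1 / (4 * C) := (min_le_right _ _).trans (min_le_right _ _)
  have hr1 : c * ε ≤ 1 / 4 := by nlinarith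
  have hr2 : C * (c * ε) ≤ 1 / 4 := by
    have h2 : C * c ≤ 1 / 4 := by
      rw [le_div_iff₀ (by positivity)] at hc3
      linarith
    have h3 : 0 ≤ C * c := by positivity
    nlinarith
  have htw : ∀ᶠ x in 𝓝 (1 : E), twist χ ω x = 1 := by
    have h2 : Filter.Tendsto (fun x : E => Algebra.norm F x) (𝓝 1) (𝓝 1) := by
      have h3 := (NE.cont F E).tendsto 1
      rw [map_one] at h3
      exact h3
    filter_upwards [hχ, h2.eventually hω] with x hx1 hx2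
    rw [twist_apply, hx1, hx2, inv_one, mul_one]
  have hfin := iter2 (c * ε) C (by positivity) hC hr1 hr2 (twist χ ω) htw (by
    intro w hw
    obtain ⟨h, hh, hK, hest⟩ := h1 ε hε hε1 g w (hw.trans (by gcongr))
    refine ⟨nrd E (⟨(h : A), hh⟩ : Cent ι), ?_, hest⟩
    have h2 := hg h hh hK
    have hconj : nrd F ((g⁻¹ * h * g : Aˣ) : A) = nrd F (h : A) := by
      rw [Units.val_mul, Units.val_mul, hmulF, hmulF]
      have h3 : nrd F ((g⁻¹ : Aˣ) : A) * nrd F (g : A) = 1 := by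
        rw [← hmulF, Units.inv_mul, honeF]
      calc nrd F ((g⁻¹ : Aˣ) : A) * nrd F (h : A) * nrd F (g : A)
          = (nrd F ((g⁻¹ : Aˣ) : A) * nrd F (g : A)) * nrd F (h : A) := by ring
        _ = nrd F (h : A) := by rw [h3, one_mul]
    have h4 : nrd F (h : A) = Algebra.norm F (nrd E (⟨(h : A), hh⟩ : Cent ι)) :=
      hnnm ⟨(h : A), hh⟩
    have h5 : ω (Algebra.norm F (nrd E (⟨(h : A), hh⟩ : Cent ι))) ≠ 0 := by
      rw [← h4]
      intro h0
      have h6 : nrd F (h : A) = 0 := (map_eq_zero ω).mp h0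
      have h7 : nrd F (h : A) * nrd F ((h⁻¹ : Aˣ) : A) = 1 := by
        rw [← hmulF, Units.mul_inv, honeF]
      rw [h6, zero_mul] at h7
      exact zero_ne_one h7
    rw [hconj, h4] at h2
    rw [twist_apply, h2, mul_inv_cancel₀ h5]) x hx
  rw [twist_apply] at hfin
  have h8 : ω (Algebra.norm F x) ≠ 0 := by
    intro h0
    rw [h0, inv_zero, mul_zero] at hfin
    exact zero_ne_one hfin
  field_simp at hfin
  exact hfin

end Pool.Agent.VPer
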